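import Pool.Agent.H47.SQ.SpecB

/-!
# Part B, file 1: nodes of the tree (helper71)

`nd H k i` is the set of leaves below the node of level `k` above the leaf `i`.
-/

set_option autoImplicit false

namespace Pool.Agent.H47.SQ

open Finset

lemma q_nonneg {x : ℝ} (hx : 0 ≤ x) : 0 ≤ q x := mul_nonneg hx (Real.sqrt_nonneg _)

lemma q_zero : q 0 = 0 := by simp [q]

lemma q_sq {x : ℝ} (hx : 0 ≤ x) : q (x ^ 2) = x ^ 3 := by
  unfold q
  rw [Real.sqrt_sq hx]
  ring

lemma q34_pow4 {x : ℝ} (hx : 0 ≤ x) : q34 (x ^ 4) = x ^ 3 := by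
  unfold q34
  have h1 : √(x ^ 4) = x ^ 2 := by
    rw [show x ^ 4 = (x ^ 2) ^ 2 by ring, Real.sqrt_sq (by positivity)]
  rw [h1, Real.sqrt_sq hx]
  ring

lemma q_eq_sqrt_cube {x : ℝ} (hx : 0 ≤ x) : q x = √x ^ 3 := by
  have h := q_sq (Real.sqrt_nonneg x)
  rwa [Real.sq_sqrt hx] at h

lemma q34_eq {x : ℝ} (hx : 0 ≤ x) : q34 x = √(√x) ^ 3 := by
  have h := q34_pow4 (Real.sqrt_nonneg (√x))
  rwa [show √(√x) ^ 4 = (√(√x) ^ 2) ^ 2 by ring, Real.sq_sqrt (Real.sqrt_nonneg _),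
    Real.sq_sqrt hx] at h

/-- The leaf `i` in the subtree of the child `t`. -/
def mk {H : ℕ} (t : Fin 16) (i : L H) : L (H+1) := (t, i)

lemma exists_mk {H : ℕ} (p : L (H+1)) : ∃ (t : Fin 16) (i : L H), p = mk t i := ⟨p.1, p.2, rfl⟩

@[simp] lemma sub_mk {H : ℕ} {β : Type*} (f : L (H+1) → β) (t : Fin 16) (i : L H) :
    sub f t i = f (mk t i) := rfl

lemma sum_mk {H : ℕ} {β : Type*} [AddCommMonoid β] (f : L (H+1) → β) :
    ∑ i, f i = ∑ t : Fin 16, ∑ i : L H, f (mk t i) := sum_L_succ f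

lemma N_succ' (H : ℕ) (c : L (H+1) → ℝ) :
    N (H+1) c = ∑ t : Fin 16, N H (fun i => c (mk t i)) + (1/2 : ℝ)^(H+1) * q (∑ i, c i) := rfl

lemma N_zero_fun : ∀ H : ℕ, N H (fun _ => 0) = 0
  | 0 => by simp [N_zero, q_zero]
  | (H+1) => by
    rw [N_succ']
    simp [N_zero_fun H, q_zero]

lemma N_nonneg : ∀ (H : ℕ) (c : L H → ℝ), (∀ i, 0 ≤ c i) → 0 ≤ N H c
  | 0, c, hc => by rw [N_zero]; exact q_nonneg (hc _)
  | (H+1), c, hc => by
    rw [N_succ']
    have h : ∀ t : Fin 16, 0 ≤ N H (fun i => c (mk t i)) := fun t => N_nonneg H _ (fun i => hc _)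
    have h2 : 0 ≤ q (∑ i, c i) := q_nonneg (Finset.sum_nonneg fun i _ => hc i)
    have := Finset.sum_nonneg (s := Finset.univ) (fun t _ => h t)
    positivity

/-- Leaves below the node of level `k` above the leaf `i`. -/
def nd : (H : ℕ) → ℕ → L H → Finset (L H)
  | 0, _, _ => Finset.univ
  | (H+1), k, p =>
    if k ≤ H then Finset.univ.filter (fun p' : L (H+1) => p'.1 = p.1 ∧ p'.2 ∈ nd H k p.2)
    else Finset.univ

lemma mem_nd_succ {H k : ℕ} (hk : k ≤ H) (t t' : Fin 16) (i j : L H) :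
    mk t' j ∈ nd (H+1) k (mk t i) ↔ t' = t ∧ j ∈ nd H k i := by
  have : nd (H+1) k (mk t i) =
      Finset.univ.filter (fun p' : L (H+1) => p'.1 = t ∧ p'.2 ∈ nd H k i) := by
    show (if k ≤ H then _ else _) = _
    rw [if_pos hk]
    rfl
  rw [this, Finset.mem_filter]
  exact ⟨fun h => h.2, fun h => ⟨Finset.mem_univ _, h⟩⟩

lemma nd_top : ∀ (H : ℕ) (i : L H), nd H H i = Finset.univ
  | 0, _ => rfl
  | (H+1), i => by
    show (if H + 1 ≤ H then _ else _) = _
    rw [if_neg (by omega)]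

lemma sum_mem {H : ℕ} (S : Finset (L H)) (f : L H → ℝ) :
    ∑ i ∈ S, f i = ∑ i, if i ∈ S then f i else 0 := by
  rw [Finset.sum_ite_mem, Finset.univ_inter]

lemma sum_nd_succ {H k : ℕ} (hk : k ≤ H) (t : Fin 16) (i : L H) (f : L (H+1) → ℝ) :
    ∑ j ∈ nd (H+1) k (mk t i), f j = ∑ j ∈ nd H k i, f (mk t j) := by
  rw [sum_mem, sum_mk, Finset.sum_eq_single t, sum_mem (nd H k i)]
  · apply Finset.sum_congr rfl
    intro j _
    simp only [mem_nd_succ hk, true_and]
  · intro b _ hb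
    apply Finset.sum_eq_zero
    intro j _
    rw [if_neg]
    rw [mem_nd_succ hk]
    exact fun h => hb h.1
  · simp

lemma card_nd : ∀ (H k : ℕ) (_ : k ≤ H) (i : L H), (∑ _j ∈ nd H k i, (1 : ℝ)) = 16 ^ k
  | 0, k, hk, i => by
    have : k = 0 := by omega
    subst this
    show ∑ _j ∈ (Finset.univ : Finset (L 0)), (1 : ℝ) = _
    rw [sum_L_zero]; norm_num
  | (H+1), k, hk, p => by
    obtain ⟨t, i, rfl⟩ := exists_mk p
    rcases Nat.lt_or_ge H k with h | h
    · have : k = H + 1 := by omega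
      subst this
      rw [nd_top, Finset.sum_const, Finset.card_univ, card_L]
      simp
    · rw [sum_nd_succ h]
      exact card_nd H k h i

lemma sum_indicator {H : ℕ} (S : Finset (L H)) :
    (∑ i, if i ∈ S then (1 : ℝ) else 0) = ∑ _i ∈ S, (1 : ℝ) := by
  rw [Finset.sum_ite_mem, Finset.univ_inter]

lemma q_pow {x : ℝ} (hx : 0 ≤ x) (n : ℕ) : q (x ^ (2 * n)) = x ^ (3 * n) := by
  rw [show x ^ (2 * n) = (x ^ n) ^ 2 by ring, q_sq (by positivity)]
  ring

lemma q_16_pow (k : ℕ) : q ((16 : ℝ) ^ k) = 64 ^ k := by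
  rw [show (16 : ℝ) ^ k = 4 ^ (2 * k) by rw [pow_mul]; norm_num, q_pow (by norm_num), pow_mul]
  norm_num

lemma N_one : ∀ H : ℕ, N H (fun _ => 1) = 16 ^ H * (2 ^ (H+1) - 1)
  | 0 => by simp [N_zero, q]; norm_num
  | (H+1) => by
    rw [N_succ']
    simp only [N_one H]
    rw [Finset.sum_const, Finset.sum_const, Finset.card_univ, Finset.card_univ, card_L]
    simp only [Fintype.card_fin, nsmul_eq_mul, mul_one, Nat.cast_pow, Nat.cast_ofNat]
    rw [q_16_pow]
    have e : (64 : ℝ) ^ (H+1) = 16 ^ (H+1) * (2 ^ (H+1) * 2 ^ (H+1)) := by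
      rw [← mul_pow, ← mul_pow]; norm_num
    rw [e, one_div, inv_pow]
    have h2 : (2 : ℝ) ^ (H+1) ≠ 0 := by positivity
    field_simp
    ring

lemma N_nd : ∀ (H k : ℕ) (_ : k ≤ H) (i : L H),
    N H (fun j => if j ∈ nd H k i then 1 else 0) ≤
      2 * 32 ^ k + 64 ^ k * ((1/2) ^ k - (1/2) ^ H)
  | 0, k, hk, i => by
    have : k = 0 := by omega
    subst this
    rw [nd_top]
    simp [N_zero, q]
  | (H+1), k, hk, p => by
    obtain ⟨t, i, rfl⟩ := exists_mk p
    rcases Nat.lt_or_ge H k with h | h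
    · have : k = H + 1 := by omega
      subst this
      rw [nd_top]
      simp only [Finset.mem_univ, if_true]
      rw [N_one]
      have e : (32 : ℝ) ^ (H+1) = 16 ^ (H+1) * 2 ^ (H+1) := by rw [← mul_pow]; norm_num
      have h16 : (0 : ℝ) < 16 ^ (H+1) := by positivity
      rw [e, sub_self, mul_zero, add_zero, pow_succ 2 (H+1)]
      nlinarith [h16]
    · rw [N_succ']
      have h1 : ∑ t' : Fin 16,
          N H (fun j : L H => if mk t' j ∈ nd (H+1) k (mk t i) then (1 : ℝ) else 0) =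
          N H (fun j => if j ∈ nd H k i then 1 else 0) := by
        rw [Finset.sum_eq_single t]
        · simp only [mem_nd_succ h, true_and]
        · intro b _ hb
          simp only [mem_nd_succ h, hb, false_and, if_false]
          exact N_zero_fun H
        · simp
      rw [h1, sum_indicator, card_nd (H+1) k hk, q_16_pow]
      have ih := N_nd H k h i
      have e : (1/2 : ℝ) ^ (H+1) = (1/2) ^ H * (1/2) := pow_succ _ _
      have : (0:ℝ) < 64 ^ k := by positivity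
      have : (0:ℝ) < (1/2) ^ H := by positivity
      rw [e]
      nlinarith

lemma N_nd_le {H k : ℕ} (hk : k ≤ H) (i : L H) :
    N H (fun j => if j ∈ nd H k i then 1 else 0) ≤ 3 * 32 ^ k := by
  have h := N_nd H k hk i
  have e : (64 : ℝ) ^ k * (1/2) ^ k = 32 ^ k := by rw [← mul_pow]; norm_num
  have : (0:ℝ) < 64 ^ k * (1/2) ^ H := by positivity
  nlinarith

lemma sum_sqrt_nd : ∀ (H k : ℕ) (_ : k ≤ H) (U : L H → ℝ),
    16 ^ k * ∑ i, U i * √(∑ j ∈ nd H k i, U j) = ∑ i, q (∑ j ∈ nd H k i, U j)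
  | 0, k, hk, U => by
    have : k = 0 := by omega
    subst this
    simp only [nd_top, sum_L_zero]
    simp [q]
  | (H+1), k, hk, U => by
    rcases Nat.lt_or_ge H k with h | h
    · have : k = H + 1 := by omega
      subst this
      simp only [nd_top]
      rw [← Finset.sum_mul, Finset.sum_const, Finset.card_univ, card_L]
      simp only [nsmul_eq_mul, Nat.cast_pow, Nat.cast_ofNat]
      rfl
    · rw [sum_mk, sum_mk, Finset.mul_sum]
      apply Finset.sum_congr rfl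
      intro t _
      simp only [sum_nd_succ h]
      exact sum_sqrt_nd H k h (fun i => U (mk t i))

end Pool.Agent.H47.SQ
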