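import Pool.Agent.H47.SQ.B1

/-!
# Part B, file 2: the random regular sets (helper71)
-/

set_option autoImplicit false

namespace Pool.Agent.H47.SQ

open Finset

section piSum

variable {X : Type} [Fintype X]

lemma sum_pi_two {t t' : Fin 16} (h : t' ≠ t) (F G : X → ℝ) :
    ∑ x : Fin 16 → X, F (x t) * G (x t') = (Fintype.card X : ℝ) ^ 14 * ((∑ y, F y) * ∑ y, G y) := by
  have h1 := Finset.sum_prod_piFinset (ι := Fin 16) (Finset.univ : Finset X)
    (fun i y => (if i = t then F y else 1) * (if i = t' then G y else 1))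
  rw [Fintype.piFinset_univ] at h1
  have h2 : ∀ x : Fin 16 → X, ∏ i, ((if i = t then F (x i) else 1) * (if i = t' then G (x i) else 1)) =
      F (x t) * G (x t') := by
    intro x
    rw [Finset.prod_mul_distrib, Finset.prod_ite_eq', Finset.prod_ite_eq']
    simp
  rw [← Finset.sum_congr rfl (fun x _ => h2 x), h1]
  have h3 : ∀ i : Fin 16, (∑ y, ((if i = t then F y else 1) * (if i = t' then G y else 1))) =
      (if i = t then ∑ y, F y else 1) * (if i = t' then ∑ y, G y else 1) *
        (if i ∈ ({t, t'} : Finset (Fin 16)) then 1 else (Fintype.card X : ℝ)) := by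
    intro i
    by_cases h4 : i = t
    · subst h4
      simp [h.symm]
    · by_cases h5 : i = t'
      · subst h5
        simp [h4]
      · simp [h4, h5]
  rw [Finset.prod_congr rfl (fun i _ => h3 i), Finset.prod_mul_distrib, Finset.prod_mul_distrib,
    Finset.prod_ite_eq', Finset.prod_ite_eq', Finset.prod_ite]
  simp only [Finset.mem_univ, if_true, Finset.prod_const_one, one_mul, Finset.prod_const]
  have h6 : (Finset.univ.filter (fun i : Fin 16 => i ∉ ({t, t'} : Finset (Fin 16)))).card = 14 := by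
    rw [Finset.filter_not, Finset.card_sdiff_of_subset (Finset.filter_subset _ _)]
    simp only [Finset.filter_mem_eq_inter, Finset.univ_inter, Finset.card_univ, Fintype.card_fin]
    rw [Finset.card_pair h.symm]
  rw [h6]
  ring

lemma sum_pi_one (t : Fin 16) (F : X → ℝ) :
    ∑ x : Fin 16 → X, F (x t) = (Fintype.card X : ℝ) ^ 15 * ∑ y, F y := by
  obtain ⟨t', ht'⟩ : ∃ t' : Fin 16, t' ≠ t := exists_ne t
  have := sum_pi_two ht' F (fun _ => 1)
  simp only [mul_one, Finset.sum_const, Finset.card_univ, nsmul_eq_mul] at this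
  rw [this]
  ring

end piSum

/-- Index type of the random family of regular sets. -/
def Fam : ℕ → Type
  | 0 => Unit
  | (n+1) => Fin 16 × (Fin 16 → Fam n)

instance instFintypeFam : (n : ℕ) → Fintype (Fam n)
  | 0 => inferInstanceAs (Fintype Unit)
  | (n+1) => letI := instFintypeFam n; inferInstanceAs (Fintype (Fin 16 × (Fin 16 → Fam n)))

instance instNonemptyFam : (n : ℕ) → Nonempty (Fam n)
  | 0 => inferInstanceAs (Nonempty Unit)
  | (n+1) => letI := instNonemptyFam n; inferInstanceAs (Nonempty (Fin 16 × (Fin 16 → Fam n)))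

/-- Constructor of the index type. -/
def mkF {H : ℕ} (r : Fin 16) (x : Fin 16 → Fam H) : Fam (H+1) := (r, x)

lemma exists_mkF {H : ℕ} (p : Fam (H+1)) : ∃ (r : Fin 16) (x : Fin 16 → Fam H), p = mkF r x :=
  ⟨p.1, p.2, rfl⟩

lemma sum_mkF {H : ℕ} (f : Fam (H+1) → ℝ) :
    ∑ x, f x = ∑ r : Fin 16, ∑ x : Fin 16 → Fam H, f (mkF r x) := by
  exact Fintype.sum_prod_type (fun p : Fin 16 × (Fin 16 → Fam H) => f (mkF p.1 p.2))

lemma card_Fam_succ (H : ℕ) :
    (Fintype.card (Fam (H+1)) : ℝ) = 16 * (Fintype.card (Fam H) : ℝ) ^ 16 := by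
  have : Fintype.card (Fam (H+1)) = 16 * (Fintype.card (Fam H)) ^ 16 := by
    show Fintype.card (Fin 16 × (Fin 16 → Fam H)) = _
    rw [Fintype.card_prod, Fintype.card_fin, Fintype.card_fun, Fintype.card_fin]
  rw [this]; push_cast; ring

/-- The regular set with index `x`, for the profile `e`. -/
def fam (e : ℕ → ℕ) : (H : ℕ) → Fam H → Finset (L H)
  | 0, _ => Finset.univ
  | (H+1), x => Finset.univ.filter (fun p : L (H+1) =>
      (p.1 - x.1).val < 4 ^ (e (H+1) - e H) ∧ p.2 ∈ fam e H (x.2 p.1))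

lemma mem_fam_succ {e : ℕ → ℕ} {H : ℕ} (t : Fin 16) (i : L H) (r : Fin 16) (x : Fin 16 → Fam H) :
    mk t i ∈ fam e (H+1) (mkF r x) ↔
      (t - r).val < 4 ^ (e (H+1) - e H) ∧ i ∈ fam e H (x t) := by
  have : fam e (H+1) (mkF r x) = Finset.univ.filter (fun p : L (H+1) =>
      (p.1 - r).val < 4 ^ (e (H+1) - e H) ∧ p.2 ∈ fam e H (x p.1)) := rfl
  rw [this, Finset.mem_filter]
  exact ⟨fun h => h.2, fun h => ⟨Finset.mem_univ _, h⟩⟩

lemma sum_fam_succ {e : ℕ → ℕ} {H : ℕ} (r : Fin 16) (x : Fin 16 → Fam H) (f : L (H+1) → ℝ) :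
    ∑ j ∈ fam e (H+1) (mkF r x), f j =
      ∑ t : Fin 16, if (t - r).val < 4 ^ (e (H+1) - e H) then ∑ i ∈ fam e H (x t), f (mk t i)
        else 0 := by
  rw [sum_mem, sum_mk]
  apply Finset.sum_congr rfl
  intro t _
  split_ifs with h
  · rw [sum_mem (fam e H (x t))]
    apply Finset.sum_congr rfl
    intro j _
    simp only [mem_fam_succ, h, true_and]
  · apply Finset.sum_eq_zero
    intro j _
    simp only [mem_fam_succ, h, false_and, if_false]

/-- Admissible profiles: `√s_l = 2 ^ e l`. -/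
def Prof (e : ℕ → ℕ) : Prop := e 0 = 0 ∧ ∀ l, e l ≤ e (l+1) ∧ e (l+1) ≤ e l + 2

lemma count_t (a : ℕ) (ha : a ≤ 2) (r : Fin 16) :
    (∑ t : Fin 16, if (t - r).val < 4 ^ a then (1 : ℝ) else 0) = 4 ^ a := by
  rw [← Finset.sum_filter, Finset.sum_const, nsmul_eq_mul, mul_one]
  have : (Finset.univ.filter (fun t : Fin 16 => (t - r).val < 4 ^ a)).card = 4 ^ a := by
    interval_cases a <;> revert r <;> decide
  rw [this]; push_cast; rfl

lemma count_r (a : ℕ) (ha : a ≤ 2) (t : Fin 16) :
    (∑ r : Fin 16, if (t - r).val < 4 ^ a then (1 : ℝ) else 0) = 4 ^ a := by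
  rw [← Finset.sum_filter, Finset.sum_const, nsmul_eq_mul, mul_one]
  have : (Finset.univ.filter (fun r : Fin 16 => (t - r).val < 4 ^ a)).card = 4 ^ a := by
    interval_cases a <;> revert t <;> decide
  rw [this]; push_cast; rfl

lemma pow_prof {e : ℕ → ℕ} (he : Prof e) (H : ℕ) :
    (4 : ℝ) ^ (e (H+1) - e H) * 4 ^ (e H) = 4 ^ (e (H+1)) := by
  rw [← pow_add, Nat.sub_add_cancel (he.2 H).1]

lemma card_fam {e : ℕ → ℕ} (he : Prof e) : ∀ (H : ℕ) (x : Fam H),
    ∑ _i ∈ fam e H x, (1 : ℝ) = 4 ^ (e H)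
  | 0, x => by
    show ∑ _i ∈ (Finset.univ : Finset (L 0)), (1 : ℝ) = _
    rw [sum_L_zero, he.1]; norm_num
  | (H+1), p => by
    obtain ⟨r, x, rfl⟩ := exists_mkF p
    rw [sum_fam_succ]
    simp only [card_fam he H]
    rw [← pow_prof he H, ← count_t (e (H+1) - e H) (by have := he.2 H; omega) r, Finset.sum_mul]
    apply Finset.sum_congr rfl
    intro t _
    split_ifs <;> simp

/-- `κ`. -/
noncomputable def kap (e : ℕ → ℕ) (H : ℕ) : ℝ := ∑ l ∈ Finset.range (H+1), 2 ^ (e l) / 2 ^ l

lemma q_mono {x y : ℝ} (h : 0 ≤ x) (hxy : x ≤ y) : q x ≤ q y :=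
  mul_le_mul hxy (Real.sqrt_le_sqrt hxy) (Real.sqrt_nonneg _) (h.trans hxy)

lemma q_four_pow_mul (n : ℕ) {x : ℝ} (_hx : 0 ≤ x) : q (4 ^ n * x) = 8 ^ n * q x := by
  unfold q
  rw [Real.sqrt_mul (by positivity), show (4 : ℝ) ^ n = (2 ^ n) ^ 2 by
    rw [← pow_mul, mul_comm, pow_mul]; norm_num, Real.sqrt_sq (by positivity),
    show (8 : ℝ) ^ n = (2 ^ n) ^ 3 by rw [← pow_mul, mul_comm, pow_mul]; norm_num]
  ring

lemma dual_fam {e : ℕ → ℕ} (he : Prof e) : ∀ (H : ℕ) (x : Fam H) (a : L H → ℝ), (∀ i, 0 ≤ a i) →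
    kap e H * (∑ i ∈ fam e H x, a i) ^ 3 ≤ (4 ^ (e H)) ^ 2 * N H (fun i => (a i) ^ 2)
  | 0, x, a, ha => by
    have h1 : kap e 0 = 1 := by simp [kap, he.1]
    have h2 : ∀ i : L 0, ∑ i ∈ fam e 0 x, a i = a i := by
      intro i
      show ∑ i ∈ (Finset.univ : Finset (L 0)), a i = _
      rw [sum_L_zero]
      rfl
    have h3 : ∀ i : L 0, N 0 (fun i => (a i) ^ 2) = q ((a i) ^ 2) := fun i => rfl
    obtain ⟨i⟩ : Nonempty (L 0) := inferInstance
    rw [h1, h2 i, h3 i, he.1, q_sq (ha i)]
    simp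
  | (H+1), p, a, ha => by
    obtain ⟨r, x, rfl⟩ := exists_mkF p
    have hk : kap e (H+1) = kap e H + 2 ^ (e (H+1)) / 2 ^ (H+1) := by
      unfold kap; rw [Finset.sum_range_succ]
    have hk0 : 0 ≤ kap e H := by unfold kap; positivity
    rw [hk, add_mul, N_succ', mul_add]
    apply add_le_add
    · rw [sum_fam_succ, ← Finset.sum_filter]
      set C := Finset.univ.filter (fun t : Fin 16 => (t - r).val < 4 ^ (e (H+1) - e H)) with hC
      have hCc : (C.card : ℝ) = 4 ^ (e (H+1) - e H) := by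
        have := count_t (e (H+1) - e H) (by have := he.2 H; omega) r
        rw [← Finset.sum_filter, Finset.sum_const, nsmul_eq_mul, mul_one] at this
        exact this
      have hA : ∀ t, 0 ≤ ∑ i ∈ fam e H (x t), a (mk t i) :=
        fun t => Finset.sum_nonneg fun i _ => ha _
      have h1 := pow_sum_div_card_le_sum_pow (s := C) (f := fun t => ∑ i ∈ fam e H (x t), a (mk t i))
        (fun t _ => hA t) 2
      rw [hCc, div_le_iff₀ (by positivity)] at h1
      calc kap e H * (∑ t ∈ C, ∑ i ∈ fam e H (x t), a (mk t i)) ^ 3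
          ≤ kap e H * ((∑ t ∈ C, (∑ i ∈ fam e H (x t), a (mk t i)) ^ 3) *
              (4 ^ (e (H+1) - e H)) ^ 2) := by
            apply mul_le_mul_of_nonneg_left _ hk0
            exact h1
        _ = (4 ^ (e (H+1) - e H)) ^ 2 *
              ∑ t ∈ C, kap e H * (∑ i ∈ fam e H (x t), a (mk t i)) ^ 3 := by
            rw [← Finset.mul_sum]; ring
        _ ≤ (4 ^ (e (H+1) - e H)) ^ 2 *
              ∑ t ∈ C, (4 ^ (e H)) ^ 2 * N H (fun i => (a (mk t i)) ^ 2) := by
            apply mul_le_mul_of_nonneg_left _ (by positivity)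
            apply Finset.sum_le_sum
            intro t _
            exact dual_fam he H (x t) (fun i => a (mk t i)) (fun i => ha _)
        _ ≤ (4 ^ (e (H+1) - e H)) ^ 2 *
              ∑ t, (4 ^ (e H)) ^ 2 * N H (fun i => (a (mk t i)) ^ 2) := by
            apply mul_le_mul_of_nonneg_left _ (by positivity)
            apply Finset.sum_le_sum_of_subset_of_nonneg (Finset.subset_univ _)
            intro t _ _
            have := N_nonneg H (fun i => (a (mk t i)) ^ 2) (fun i => by positivity)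
            positivity
        _ = (4 ^ (e (H+1))) ^ 2 * ∑ t, N H (fun i => (a (mk t i)) ^ 2) := by
            rw [← pow_prof he H, ← Finset.mul_sum]; ring
    · set B := ∑ i ∈ fam e (H+1) (mkF r x), a i with hB
      have hB0 : 0 ≤ B := Finset.sum_nonneg fun i _ => ha i
      have h1 : B ^ 2 ≤ 4 ^ (e (H+1)) * ∑ i, (a i) ^ 2 := by
        have h2 := sq_sum_le_card_mul_sum_sq (s := fam e (H+1) (mkF r x)) (f := a)
        have h3 : ((fam e (H+1) (mkF r x)).card : ℝ) = 4 ^ (e (H+1)) := by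
          have := card_fam he (H+1) (mkF r x)
          rwa [Finset.sum_const, nsmul_eq_mul, mul_one] at this
        rw [h3] at h2
        refine h2.trans (mul_le_mul_of_nonneg_left ?_ (by positivity))
        exact Finset.sum_le_sum_of_subset_of_nonneg (Finset.subset_univ _)
          (fun i _ _ => by positivity)
      have h4 : B ^ 3 ≤ 8 ^ (e (H+1)) * q (∑ i, (a i) ^ 2) := by
        rw [← q_sq hB0, ← q_four_pow_mul _ (Finset.sum_nonneg fun i _ => by positivity)]
        exact q_mono (by positivity) h1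
      calc 2 ^ (e (H+1)) / 2 ^ (H+1) * B ^ 3
          ≤ 2 ^ (e (H+1)) / 2 ^ (H+1) * (8 ^ (e (H+1)) * q (∑ i, (a i) ^ 2)) :=
            mul_le_mul_of_nonneg_left h4 (by positivity)
        _ = (2 ^ (e (H+1)) * 8 ^ (e (H+1))) * ((1/2) ^ (H+1) * q (∑ i, (a i) ^ 2)) := by
            rw [one_div, inv_pow]; ring
        _ = (4 ^ (e (H+1))) ^ 2 * ((1/2) ^ (H+1) * q (∑ i, (a i) ^ 2)) := by
            rw [← mul_pow, ← pow_mul, mul_comm (e (H+1)) 2, pow_mul]; norm_num

/-- Probability that a given leaf is in the random set. -/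
lemma prob_fam {e : ℕ → ℕ} (he : Prof e) : ∀ (H : ℕ) (i : L H),
    (∑ x : Fam H, if i ∈ fam e H x then (1 : ℝ) else 0) =
      4 ^ (e H) / 16 ^ H * Fintype.card (Fam H)
  | 0, i => by
    have : ∀ x : Fam 0, i ∈ fam e 0 x := fun x => Finset.mem_univ _
    simp only [this, if_true, he.1]
    simp
  | (H+1), p => by
    obtain ⟨t, i, rfl⟩ := exists_mk p
    rw [sum_mkF]
    have h1 : ∀ r : Fin 16, (∑ x : Fin 16 → Fam H,
        if mk t i ∈ fam e (H+1) (mkF r x) then (1 : ℝ) else 0) =
        (if (t - r).val < 4 ^ (e (H+1) - e H) then (1:ℝ) else 0) *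
          ((Fintype.card (Fam H) : ℝ) ^ 15 * (4 ^ (e H) / 16 ^ H * Fintype.card (Fam H))) := by
      intro r
      rw [← prob_fam he H i, ← sum_pi_one t, Finset.mul_sum]
      apply Finset.sum_congr rfl
      intro x _
      simp only [mem_fam_succ]
      by_cases h1 : (t - r).val < 4 ^ (e (H+1) - e H) <;> by_cases h2 : i ∈ fam e H (x t) <;>
        simp [h1, h2]
    rw [Finset.sum_congr rfl (fun r _ => h1 r), ← Finset.sum_mul,
      count_r _ (by have := he.2 H; omega) t, card_Fam_succ, ← pow_prof he H]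
    field_simp
    ring

/-- The weight `W_i`. -/
noncomputable def WW (e : ℕ → ℕ) (H : ℕ) (U : L H → ℝ) (i : L H) : ℝ :=
  U i + ∑ k ∈ Finset.range H, 4 ^ (e k) / 16 ^ k * ∑ j ∈ nd H (k+1) i, U j

lemma WW_succ (e : ℕ → ℕ) (H : ℕ) (U : L (H+1) → ℝ) (t : Fin 16) (i : L H) :
    WW e (H+1) U (mk t i) =
      WW e H (fun i => U (mk t i)) i + 4 ^ (e H) / 16 ^ H * ∑ j, U j := by
  unfold WW
  rw [Finset.sum_range_succ, nd_top, ← add_assoc]
  congr 2
  apply Finset.sum_congr rfl
  intro k hk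
  rw [Finset.mem_range] at hk
  rw [sum_nd_succ (by omega)]

lemma pair_fam {e : ℕ → ℕ} (he : Prof e) : ∀ (H : ℕ) (U : L H → ℝ), (∀ i, 0 ≤ U i) →
    ∀ i : L H, (∑ x : Fam H, (if i ∈ fam e H x then (1 : ℝ) else 0) * ∑ j ∈ fam e H x, U j) ≤
      4 ^ (e H) / 16 ^ H * Fintype.card (Fam H) * WW e H U i
  | 0, U, hU, i => by
    have h1 : ∀ x : Fam 0, i ∈ fam e 0 x := fun x => Finset.mem_univ _
    have h2 : ∀ x : Fam 0, ∑ i ∈ fam e 0 x, U i = U i := by
      intro x
      show ∑ i ∈ (Finset.univ : Finset (L 0)), U i = _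
      rw [sum_L_zero]
      rfl
    simp only [h1, if_true, h2, he.1, WW]
    simp
  | (H+1), U, hU, p => by
    obtain ⟨t, i, rfl⟩ := exists_mk p
    set M : ℝ := (Fintype.card (Fam H) : ℝ) with hM
    have hM0 : 0 ≤ M := by positivity
    set pr : ℝ := 4 ^ (e H) / 16 ^ H with hpr
    have hpr0 : 0 ≤ pr := by positivity
    set F : Fam H → ℝ := fun y => if i ∈ fam e H y then (1 : ℝ) else 0 with hF
    have hF0 : ∀ y, 0 ≤ F y := by intro y; rw [hF]; dsimp only; split_ifs <;> norm_num
    set u : Fin 16 → Fam H → ℝ := fun t' y => ∑ j ∈ fam e H y, U (mk t' j) with hu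
    have hu0 : ∀ t' y, 0 ≤ u t' y := fun t' y => Finset.sum_nonneg fun j _ => hU _
    have hFs : ∑ y, F y = pr * M := prob_fam he H i
    have hus : ∀ t', ∑ y, u t' y = pr * M * ∑ j, U (mk t' j) := by
      intro t'
      have : ∀ y, u t' y = ∑ j, U (mk t' j) * (if j ∈ fam e H y then (1 : ℝ) else 0) := by
        intro y
        rw [hu]
        dsimp only
        rw [sum_mem (fam e H y)]
        apply Finset.sum_congr rfl
        intro j _
        split_ifs <;> simp
      rw [Finset.sum_congr rfl (fun y _ => this y), Finset.sum_comm]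
      simp only [← Finset.mul_sum, prob_fam he H]
      rw [← Finset.sum_mul]; ring
    have hFu : ∑ y, F y * u t y ≤ pr * M * WW e H (fun i => U (mk t i)) i :=
      pair_fam he H (fun i => U (mk t i)) (fun i => hU _) i
    -- the sum over functions
    have key : ∑ x : Fin 16 → Fam H, F (x t) * ∑ t', u t' (x t') ≤
        M ^ 16 * pr * WW e (H+1) U (mk t i) := by
      have e1 : ∑ x : Fin 16 → Fam H, F (x t) * ∑ t', u t' (x t') =
          ∑ t', ∑ x : Fin 16 → Fam H, F (x t) * u t' (x t') := by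
        rw [Finset.sum_comm]
        apply Finset.sum_congr rfl
        intro x _
        rw [Finset.mul_sum]
      rw [e1, ← Finset.add_sum_erase _ _ (Finset.mem_univ t), WW_succ]
      have e2 : ∑ x : Fin 16 → Fam H, F (x t) * u t (x t) = M ^ 15 * ∑ y, F y * u t y :=
        sum_pi_one t (fun y => F y * u t y)
      have e3 : ∑ t' ∈ Finset.univ.erase t, ∑ x : Fin 16 → Fam H, F (x t) * u t' (x t') =
          ∑ t' ∈ Finset.univ.erase t, M ^ 14 * ((pr * M) * (pr * M * ∑ j, U (mk t' j))) := by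
        apply Finset.sum_congr rfl
        intro t' ht'
        rw [sum_pi_two (Finset.ne_of_mem_erase ht') F (u t'), hFs, hus]
      have e4 : ∑ t' ∈ Finset.univ.erase t, M ^ 14 * ((pr * M) * (pr * M * ∑ j, U (mk t' j))) ≤
          M ^ 16 * pr * (pr * ∑ j, U j) := by
        rw [sum_mk]
        have e5 : ∑ t' ∈ Finset.univ.erase t, ∑ j, U (mk t' j) ≤ ∑ t', ∑ j, U (mk t' j) :=
          Finset.sum_le_sum_of_subset_of_nonneg (Finset.erase_subset _ _)
            (fun t' _ _ => Finset.sum_nonneg fun j _ => hU _)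
        calc _ = M ^ 16 * pr * (pr * ∑ t' ∈ Finset.univ.erase t, ∑ j, U (mk t' j)) := by
              simp only [Finset.mul_sum]
              apply Finset.sum_congr rfl
              intro t' _
              apply Finset.sum_congr rfl
              intro j _
              ring
          _ ≤ _ := by gcongr
      rw [e2, e3]
      have e6 : M ^ 15 * ∑ y, F y * u t y ≤ M ^ 16 * pr * WW e H (fun i => U (mk t i)) i := by
        calc _ ≤ M ^ 15 * (pr * M * WW e H (fun i => U (mk t i)) i) := by gcongr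
          _ = _ := by ring
      rw [mul_add]
      exact add_le_add e6 e4
    rw [sum_mkF]
    have h1 : ∀ r : Fin 16, (∑ x : Fin 16 → Fam H,
        (if mk t i ∈ fam e (H+1) (mkF r x) then (1 : ℝ) else 0) *
          ∑ j ∈ fam e (H+1) (mkF r x), U j) ≤
        (if (t - r).val < 4 ^ (e (H+1) - e H) then (1:ℝ) else 0) *
          (M ^ 16 * pr * WW e (H+1) U (mk t i)) := by
      intro r
      refine le_trans ?_ (mul_le_mul_of_nonneg_left key (by split_ifs <;> norm_num))
      rw [Finset.mul_sum]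
      apply Finset.sum_le_sum
      intro x _
      rw [sum_fam_succ, ← mul_assoc]
      apply mul_le_mul
      · simp only [mem_fam_succ, hF]
        by_cases h1 : (t - r).val < 4 ^ (e (H+1) - e H) <;> by_cases h2 : i ∈ fam e H (x t) <;>
          simp [h1, h2]
      · apply Finset.sum_le_sum
        intro t' _
        split_ifs
        · exact le_rfl
        · exact hu0 _ _
      · apply Finset.sum_nonneg
        intro t' _
        split_ifs
        · exact hu0 _ _
        · exact le_rfl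
      · refine mul_nonneg (by split_ifs <;> norm_num) (hF0 _)
    refine (Finset.sum_le_sum (fun r _ => h1 r)).trans (le_of_eq ?_)
    rw [← Finset.sum_mul, count_r _ (by have := he.2 H; omega) t, card_Fam_succ, ← pow_prof he H,
      hpr, ← hM]
    field_simp
    ring

end Pool.Agent.H47.SQ
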