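import Pool.Agent.H47.SQ.B2

/-!
# Part B, file 3: the estimate for one regular set (helper71)
-/

set_option autoImplicit false

namespace Pool.Agent.H47.SQ

open Finset

lemma q34_nonneg {x : ℝ} : 0 ≤ q34 x := mul_nonneg (Real.sqrt_nonneg _) (Real.sqrt_nonneg _)

lemma q34_mono {x y : ℝ} (hxy : x ≤ y) : q34 x ≤ q34 y :=
  mul_le_mul (Real.sqrt_le_sqrt hxy) (Real.sqrt_le_sqrt (Real.sqrt_le_sqrt hxy))
    (Real.sqrt_nonneg _) (Real.sqrt_nonneg _)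

lemma q34_pow_four {x : ℝ} (hx : 0 ≤ x) : q34 x ^ 4 = x ^ 3 := by
  have h1 : √(√x) ^ 4 = x := by
    rw [show √(√x) ^ 4 = (√(√x) ^ 2) ^ 2 by ring, Real.sq_sqrt (Real.sqrt_nonneg _),
      Real.sq_sqrt hx]
  rw [q34_eq hx, ← pow_mul, mul_comm, pow_mul, h1]

section one

variable {ι : Type} (S : Finset ι) (U V : ι → ℝ)

lemma bad_sum (hU : ∀ i, 0 ≤ U i) (hV : ∀ i, 0 ≤ V i) {θ : ℝ} (hθ : 0 < θ) :
    ∑ i ∈ S.filter (fun i => ¬ θ ^ 4 * U i ≤ ∑ j ∈ S, U j), q34 (V i) ≤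
      θ * q34 (∑ j ∈ S, V j) := by
  set B := S.filter (fun i => ¬ θ ^ 4 * U i ≤ ∑ j ∈ S, U j) with hB
  rcases B.eq_empty_or_nonempty with h0 | h0
  · rw [h0, Finset.sum_empty]
    exact mul_nonneg hθ.le q34_nonneg
  have hn : (B.card : ℝ) ≤ θ ^ 4 := by
    obtain ⟨i0, hi0, hmin⟩ := Finset.exists_min_image B U h0
    have h1 : (B.card : ℝ) * U i0 ≤ ∑ i ∈ B, U i := by
      rw [← nsmul_eq_mul]
      exact Finset.card_nsmul_le_sum _ _ _ (fun i hi => hmin i hi)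
    have h2 : ∑ i ∈ B, U i ≤ ∑ i ∈ S, U i :=
      Finset.sum_le_sum_of_subset_of_nonneg (Finset.filter_subset _ _) (fun i _ _ => hU i)
    have h3 : ∑ j ∈ S, U j < θ ^ 4 * U i0 := by
      have := (Finset.mem_filter.mp hi0).2
      exact not_le.mp this
    have h4 : 0 ≤ ∑ j ∈ S, U j := Finset.sum_nonneg fun i _ => hU i
    have h5 : 0 < U i0 := by
      rcases (hU i0).eq_or_lt with h | h
      · rw [← h, mul_zero] at h3
        linarith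
      · exact h
    have h6 : (B.card : ℝ) * U i0 < θ ^ 4 * U i0 := by linarith
    exact (lt_of_mul_lt_mul_right h6 h5.le).le
  set x : ι → ℝ := fun i => √(√(V i)) with hx
  have hx0 : ∀ i, 0 ≤ x i := fun i => Real.sqrt_nonneg _
  have hx3 : ∀ i, q34 (V i) = x i ^ 3 := fun i => q34_eq (hV i)
  have hx4 : ∀ i, x i ^ 4 = V i := by
    intro i
    rw [hx]
    dsimp only
    rw [show √(√(V i)) ^ 4 = (√(√(V i)) ^ 2) ^ 2 by ring, Real.sq_sqrt (Real.sqrt_nonneg _),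
      Real.sq_sqrt (hV i)]
  simp only [hx3]
  set A := ∑ i ∈ B, x i ^ 4 with hA
  have hA0 : 0 ≤ A := Finset.sum_nonneg fun i _ => by have := hx0 i; positivity
  have hAV : A ≤ ∑ j ∈ S, V j := by
    rw [hA]
    simp only [hx4]
    exact Finset.sum_le_sum_of_subset_of_nonneg (Finset.filter_subset _ _) (fun i _ _ => hV i)
  have c1 : (∑ i ∈ B, x i ^ 3) ^ 2 ≤ (∑ i ∈ B, x i ^ 2) * A := by
    have := Finset.sum_mul_sq_le_sq_mul_sq B x (fun i => x i ^ 2)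
    have e1 : ∑ i ∈ B, x i * x i ^ 2 = ∑ i ∈ B, x i ^ 3 :=
      Finset.sum_congr rfl fun i _ => by ring
    have e2 : ∑ i ∈ B, (x i ^ 2) ^ 2 = A := Finset.sum_congr rfl fun i _ => by ring
    rw [e1, e2] at this
    exact this
  have c2 : (∑ i ∈ B, x i ^ 2) ^ 2 ≤ B.card * A := by
    have := sq_sum_le_card_mul_sum_sq (s := B) (f := fun i => x i ^ 2)
    have e2 : ∑ i ∈ B, (x i ^ 2) ^ 2 = A := Finset.sum_congr rfl fun i _ => by ring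
    rw [e2] at this
    exact this
  have c3 : (∑ i ∈ B, x i ^ 3) ^ 4 ≤ (θ * q34 A) ^ 4 := by
    rw [mul_pow, q34_pow_four hA0]
    have p1 : 0 ≤ ∑ i ∈ B, x i ^ 2 := Finset.sum_nonneg fun i _ => by positivity
    calc (∑ i ∈ B, x i ^ 3) ^ 4 = ((∑ i ∈ B, x i ^ 3) ^ 2) ^ 2 := by ring
      _ ≤ ((∑ i ∈ B, x i ^ 2) * A) ^ 2 := by gcongr
      _ = (∑ i ∈ B, x i ^ 2) ^ 2 * A ^ 2 := by ring
      _ ≤ (B.card * A) * A ^ 2 := by gcongr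
      _ = B.card * A ^ 3 := by ring
      _ ≤ θ ^ 4 * A ^ 3 := by gcongr
  have c4 : ∑ i ∈ B, x i ^ 3 ≤ θ * q34 A :=
    le_of_pow_le_pow_left₀ (by norm_num) (mul_nonneg hθ.le q34_nonneg) c3
  exact c4.trans (mul_le_mul_of_nonneg_left (q34_mono hAV) hθ.le)

end one

lemma pt_young {u v g : ℝ} (hu : 0 ≤ u) (hv : 0 ≤ v) (hg : 0 < g) :
    u * v ^ 2 ≤ u ^ 3 / (48 * g ^ 2) + 8 / 3 * g * v ^ 3 := by
  have h : 0 ≤ (4 * g * v - u) ^ 2 * (8 * g * v + u) := by positivity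
  have h2 : u * v ^ 2 * (48 * g ^ 2) ≤ (u ^ 3 / (48 * g ^ 2) + 8 / 3 * g * v ^ 3) * (48 * g ^ 2) := by
    have e : (u ^ 3 / (48 * g ^ 2) + 8 / 3 * g * v ^ 3) * (48 * g ^ 2) =
        u ^ 3 + 128 * g ^ 3 * v ^ 3 := by
      field_simp
      ring
    rw [e]
    nlinarith [h]
  exact le_of_mul_le_mul_right h2 (by positivity)

lemma pt_good {u v K : ℝ} (hu : 0 ≤ u) (hv : 0 ≤ v) (hK : 1 ≤ K) :
    u * v ^ 2 ≤ 64 * K ^ 2 * u ^ 3 + 1 / (8 * K) * v ^ 3 := by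
  rcases le_total v (8 * K * u) with h | h
  · have h1 : v ^ 2 ≤ (8 * K * u) ^ 2 := by gcongr
    have h2 : u * v ^ 2 ≤ u * (8 * K * u) ^ 2 := mul_le_mul_of_nonneg_left h1 hu
    have h3 : 0 ≤ 1 / (8 * K) * v ^ 3 := by positivity
    nlinarith
  · have h1 : u ≤ v / (8 * K) := by
      rw [le_div_iff₀ (by positivity)]; linarith
    have h2 : u * v ^ 2 ≤ v / (8 * K) * v ^ 2 := mul_le_mul_of_nonneg_right h1 (by positivity)
    have h3 : v / (8 * K) * v ^ 2 = 1 / (8 * K) * v ^ 3 := by ring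
    have h4 : 0 ≤ 64 * K ^ 2 * u ^ 3 := by positivity
    linarith

lemma step1 {ι Ω : Type} [Fintype Ω] (S : Finset ι) (U V : ι → Ω → ℝ)
    (hU : ∀ i ω, 0 ≤ U i ω) (hV : ∀ i ω, 0 ≤ V i ω) {K κ s g b : ℝ} (hK : 1 ≤ K) (hκ : 0 < κ)
    (hg : g ^ 2 = K) (hg0 : 0 < g) (hb : b = 1 / (64 * g * K))
    (hs : ∑ _i ∈ S, (1 : ℝ) = s)
    (h1 : ∀ i ∈ S, ∑ ω, q (U i ω) ≤ 3 * K)
    (h2 : ∑ ω, q34 (∑ i ∈ S, V i ω) ≤ K * (s / √κ))
    (h2' : ∀ i ∈ S, ∑ ω, q34 (V i ω) ≤ K)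
    (h3 : ∀ i ∈ S, 1 / 2 ≤ ∑ ω, √(U i ω) * √(V i ω)) :
    s / 4 ≤ 64 * K ^ 2 * ∑ i ∈ S, ∑ ω, q (U i ω) *
      (if (b ^ 2 * κ) ^ 2 * U i ω ≤ ∑ j ∈ S, U j ω then 1 else 0) := by
  have hK0 : 0 < K := by linarith
  have hb0 : 0 < b := by rw [hb]; positivity
  set θ : ℝ := b * √κ with hθ
  have hθ0 : 0 < θ := mul_pos hb0 (Real.sqrt_pos.mpr hκ)
  have hθ4 : θ ^ 4 = (b ^ 2 * κ) ^ 2 := by
    rw [hθ, mul_pow, show √κ ^ 4 = (√κ ^ 2) ^ 2 by ring, Real.sq_sqrt hκ.le]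
    ring
  rw [← hθ4]
  -- pointwise
  have pt : ∀ i ω, √(U i ω) * √(V i ω) ≤
      64 * K ^ 2 * (q (U i ω) * (if θ ^ 4 * U i ω ≤ ∑ j ∈ S, U j ω then 1 else 0)) +
      1 / (8 * K) * q34 (V i ω) + 1 / (48 * K) * q (U i ω) +
      8 / 3 * g * (if ¬ θ ^ 4 * U i ω ≤ ∑ j ∈ S, U j ω then q34 (V i ω) else 0) := by
    intro i ω
    have e1 : √(U i ω) * √(V i ω) = √(U i ω) * √(√(V i ω)) ^ 2 := by
      rw [Real.sq_sqrt (Real.sqrt_nonneg _)]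
    rw [q_eq_sqrt_cube (hU i ω), q34_eq (hV i ω), e1]
    have hu : 0 ≤ √(U i ω) := Real.sqrt_nonneg _
    have hv : 0 ≤ √(√(V i ω)) := Real.sqrt_nonneg _
    by_cases hC : θ ^ 4 * U i ω ≤ ∑ j ∈ S, U j ω
    · rw [if_pos hC, if_neg (not_not.mpr hC)]
      have h4 := pt_good hu hv hK
      have h5 : 0 ≤ 1 / (48 * K) * √(U i ω) ^ 3 := by positivity
      linarith
    · rw [if_neg hC, if_pos hC]
      have h4 := pt_young hu hv hg0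
      rw [hg] at h4
      have h5 : 0 ≤ 1 / (8 * K) * √(√(V i ω)) ^ 3 := by positivity
      have h6 : √(U i ω) ^ 3 / (48 * K) = 1 / (48 * K) * √(U i ω) ^ 3 := by ring
      rw [h6] at h4
      linarith
  -- sums
  have hsum : ∑ i ∈ S, ∑ ω, √(U i ω) * √(V i ω) ≤
      64 * K ^ 2 * (∑ i ∈ S, ∑ ω, q (U i ω) *
        (if θ ^ 4 * U i ω ≤ ∑ j ∈ S, U j ω then 1 else 0)) +
      1 / (8 * K) * (∑ i ∈ S, ∑ ω, q34 (V i ω)) + 1 / (48 * K) * (∑ i ∈ S, ∑ ω, q (U i ω)) +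
      8 / 3 * g * (∑ i ∈ S, ∑ ω,
        if ¬ θ ^ 4 * U i ω ≤ ∑ j ∈ S, U j ω then q34 (V i ω) else 0) := by
    simp only [Finset.mul_sum, ← Finset.sum_add_distrib]
    exact Finset.sum_le_sum fun i _ => Finset.sum_le_sum fun ω _ => pt i ω
  have b0 : s / 2 ≤ ∑ i ∈ S, ∑ ω, √(U i ω) * √(V i ω) := by
    calc s / 2 = ∑ i ∈ S, (1 / 2 : ℝ) := by
          rw [← hs, Finset.sum_const, Finset.sum_const]; simp; ring
      _ ≤ _ := Finset.sum_le_sum h3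
  have b1 : ∑ i ∈ S, ∑ ω, q34 (V i ω) ≤ K * s := by
    calc _ ≤ ∑ i ∈ S, K := Finset.sum_le_sum h2'
      _ = K * s := by rw [← hs, Finset.sum_const, Finset.sum_const]; simp; ring
  have b2 : ∑ i ∈ S, ∑ ω, q (U i ω) ≤ 3 * K * s := by
    calc _ ≤ ∑ i ∈ S, 3 * K := Finset.sum_le_sum h1
      _ = 3 * K * s := by rw [← hs, Finset.sum_const, Finset.sum_const]; simp; ring
  have b3 : ∑ i ∈ S, ∑ ω, (if ¬ θ ^ 4 * U i ω ≤ ∑ j ∈ S, U j ω then q34 (V i ω) else 0) ≤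
      b * K * s := by
    rw [Finset.sum_comm]
    calc _ ≤ ∑ ω, θ * q34 (∑ j ∈ S, V j ω) := by
          apply Finset.sum_le_sum
          intro ω _
          rw [← Finset.sum_filter]
          exact bad_sum S (fun i => U i ω) (fun i => V i ω) (fun i => hU i ω) (fun i => hV i ω) hθ0
      _ = θ * ∑ ω, q34 (∑ j ∈ S, V j ω) := by rw [Finset.mul_sum]
      _ ≤ θ * (K * (s / √κ)) := mul_le_mul_of_nonneg_left h2 hθ0.le
      _ = b * K * s := by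
          rw [hθ]
          have : √κ ≠ 0 := (Real.sqrt_pos.mpr hκ).ne'
          field_simp
  have hs0 : 0 ≤ s := by rw [← hs]; positivity
  have c1 : 1 / (8 * K) * (∑ i ∈ S, ∑ ω, q34 (V i ω)) ≤ s / 8 := by
    calc _ ≤ 1 / (8 * K) * (K * s) := mul_le_mul_of_nonneg_left b1 (by positivity)
      _ = s / 8 := by field_simp
  have c2 : 1 / (48 * K) * (∑ i ∈ S, ∑ ω, q (U i ω)) ≤ s / 16 := by
    calc _ ≤ 1 / (48 * K) * (3 * K * s) := mul_le_mul_of_nonneg_left b2 (by positivity)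
      _ = s / 16 := by field_simp; ring
  have c3 : 8 / 3 * g * (∑ i ∈ S, ∑ ω,
        if ¬ θ ^ 4 * U i ω ≤ ∑ j ∈ S, U j ω then q34 (V i ω) else 0) ≤ s / 24 := by
    calc _ ≤ 8 / 3 * g * (b * K * s) := mul_le_mul_of_nonneg_left b3 (by positivity)
      _ = s / 24 := by rw [hb]; field_simp; ring
  linarith

end Pool.Agent.H47.SQ
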