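import Pool.Agent.H47.SQ.B3

/-!
# Part B, file 4: averaging over the random sets (helper71)
-/

set_option autoImplicit false

namespace Pool.Agent.H47.SQ

open Finset

lemma mem_nd_self : ∀ (H k : ℕ) (i : L H), i ∈ nd H k i
  | 0, _, _ => Finset.mem_univ _
  | (H+1), k, p => by
    obtain ⟨t, i, rfl⟩ := exists_mk p
    rcases Nat.lt_or_ge H k with h | h
    · have : nd (H+1) k (mk t i) = Finset.univ := by
        show (if k ≤ H then _ else _) = _
        rw [if_neg (by omega)]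
      rw [this]
      exact Finset.mem_univ _
    · rw [mem_nd_succ h]
      exact ⟨rfl, mem_nd_self H k i⟩

lemma q_le_N : ∀ (H : ℕ) (c : L H → ℝ), (∀ i, 0 ≤ c i) → ∀ i, q (c i) ≤ N H c
  | 0, c, _, i => by
    have h : N 0 c = q (c i) := rfl
    rw [h]
  | (H+1), c, hc, p => by
    obtain ⟨t, i, rfl⟩ := exists_mk p
    rw [N_succ']
    have h1 := q_le_N H (fun i => c (mk t i)) (fun i => hc _) i
    have h2 : N H (fun i => c (mk t i)) ≤ ∑ t : Fin 16, N H (fun i => c (mk t i)) :=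
      Finset.single_le_sum (f := fun t => N H (fun i => c (mk t i)))
        (fun t _ => N_nonneg H _ (fun i => hc _)) (Finset.mem_univ t)
    have h3 : 0 ≤ (1/2 : ℝ)^(H+1) * q (∑ i, c i) :=
      mul_nonneg (by positivity) (q_nonneg (Finset.sum_nonneg fun i _ => hc i))
    linarith

/-- `min(1, z^2)`. -/
noncomputable def G (z : ℝ) : ℝ := min 1 (z ^ 2)

lemma G_nonneg (z : ℝ) : 0 ≤ G z := le_min zero_le_one (sq_nonneg _)

lemma G_le {z : ℝ} (hz : 0 ≤ z) : G z ≤ z := by
  unfold G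
  rcases le_total z 1 with h | h
  · exact (min_le_right _ _).trans (by nlinarith)
  · exact (min_le_left _ _).trans h

lemma G_mono {y z : ℝ} (hy : 0 ≤ y) (hyz : y ≤ z) : G y ≤ G z :=
  min_le_min_left _ (by gcongr)

lemma min_one_sum {ι : Type} [DecidableEq ι] (s : Finset ι) (A : ι → ℝ) (hA : ∀ i, 0 ≤ A i) :
    min 1 (∑ i ∈ s, A i) ≤ ∑ i ∈ s, min 1 (A i) := by
  induction s using Finset.induction_on with
  | empty => simp
  | insert a s ha ih =>
    rw [Finset.sum_insert ha, Finset.sum_insert ha]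
    have h0 : 0 ≤ ∑ i ∈ s, A i := Finset.sum_nonneg fun i _ => hA i
    have h1 : min 1 (A a + ∑ i ∈ s, A i) ≤ min 1 (A a) + min 1 (∑ i ∈ s, A i) := by
      have ha := hA a
      rcases le_total 1 (A a) with h | h <;> rcases le_total 1 (∑ i ∈ s, A i) with h' | h'
      · rw [min_eq_left h, min_eq_left h']
        exact (min_le_left _ _).trans (by norm_num)
      · rw [min_eq_left h, min_eq_right h']
        exact (min_le_left _ _).trans (by linarith)
      · rw [min_eq_right h, min_eq_left h']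
        exact (min_le_left _ _).trans (by linarith)
      · rw [min_eq_right h, min_eq_right h']
        exact min_le_right _ _
    linarith

lemma dyadic {z : ℝ} (hz : 0 ≤ z) (n : ℕ) :
    ∑ j ∈ Finset.range n, 2 ^ j * G (z / 2 ^ j) ≤ 6 * z * 2 ^ n / (2 ^ n + z) := by
  induction n with
  | zero =>
    simp only [Finset.range_zero, Finset.sum_empty, pow_zero]
    positivity
  | succ n ih =>
    rw [Finset.sum_range_succ, pow_succ]
    set x : ℝ := 2 ^ n with hx
    have hx0 : 0 < x := by positivity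
    have h1 : x * G (z / x) ≤ 6 * z * (x * 2) / (x * 2 + z) - 6 * z * x / (x + z) := by
      have e : 6 * z * (x * 2) / (x * 2 + z) - 6 * z * x / (x + z) =
          6 * z ^ 2 * x / ((x * 2 + z) * (x + z)) := by
        field_simp
        ring
      rw [e, le_div_iff₀ (by positivity)]
      unfold G
      rcases le_total x z with h | h
      · calc x * min 1 ((z / x) ^ 2) * ((x * 2 + z) * (x + z))
            ≤ x * 1 * ((z * 2 + z) * (z + z)) := by
              gcongr
              exact min_le_left _ _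
          _ = 6 * z ^ 2 * x := by ring
      · calc x * min 1 ((z / x) ^ 2) * ((x * 2 + z) * (x + z))
            ≤ x * (z / x) ^ 2 * ((x * 2 + x) * (x + x)) := by
              gcongr
              exact min_le_right _ _
          _ = 6 * z ^ 2 * x := by field_simp; ring
    linarith

lemma dyadic' {z : ℝ} (hz : 0 ≤ z) (j0 n : ℕ) :
    ∑ j ∈ Finset.Ico j0 n, 2 ^ j * G (z / 2 ^ j) ≤ 6 * z := by
  have h1 : ∑ j ∈ Finset.Ico j0 n, 2 ^ j * G (z / 2 ^ j) ≤
      ∑ j ∈ Finset.range n, 2 ^ j * G (z / 2 ^ j) := by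
    apply Finset.sum_le_sum_of_subset_of_nonneg
    · intro j hj
      rw [Finset.mem_Ico] at hj
      exact Finset.mem_range.mpr hj.2
    · intro j _ _
      have := G_nonneg (z / 2 ^ j)
      positivity
  refine (h1.trans (dyadic hz n)).trans ?_
  rw [div_le_iff₀ (by positivity)]
  nlinarith [pow_pos (show (0:ℝ) < 2 by norm_num) n, mul_nonneg hz hz]

/-- `Y_k`. -/
noncomputable def Y {H : ℕ} (U : L H → ℝ) (k : ℕ) (i : L H) : ℝ :=
  √((∑ j ∈ nd H k i, U j) / U i) / 2 ^ k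

lemma Y_nonneg {H : ℕ} (U : L H → ℝ) (k : ℕ) (i : L H) : 0 ≤ Y U k i := by
  unfold Y; positivity

lemma q_mul_Y {H : ℕ} {U : L H → ℝ} (hU : ∀ i, 0 ≤ U i) (k : ℕ) (i : L H) :
    q (U i) * Y U k i = U i * √(∑ j ∈ nd H k i, U j) / 2 ^ k := by
  unfold Y q
  rcases (hU i).eq_or_lt with h | h
  · rw [← h]; simp
  · have hs : 0 < √(U i) := Real.sqrt_pos.mpr h
    rw [Real.sqrt_div' _ h.le]
    field_simp

/-- `ρ_k`. -/
noncomputable def rho (e : ℕ → ℕ) (k : ℕ) : ℝ := 2 ^ (e k) / 2 ^ k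

lemma kap_pos {e : ℕ → ℕ} (H : ℕ) : 0 < kap e H := by
  unfold kap
  apply Finset.sum_pos
  · intro i _; positivity
  · exact ⟨0, by simp⟩

lemma WW_le {e : ℕ → ℕ} (he : Prof e) {H : ℕ} {U : L H → ℝ} (hU : ∀ i, 0 ≤ U i) (i : L H)
    (hi : 0 < U i) {c κ : ℝ} (hc : 0 < c) (hκ : 0 < κ) :
    WW e H U i / ((c * κ) ^ 2 * U i) ≤
      ∑ k ∈ Finset.range (H+1), (4 * rho e k * Y U k i / (c * κ)) ^ 2 := by
  have hY : ∀ k, (4 * rho e k * Y U k i / (c * κ)) ^ 2 =
      (16 * (4 ^ (e k) / 16 ^ k) * ∑ j ∈ nd H k i, U j) / ((c * κ) ^ 2 * U i) := by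
    intro k
    have h0 : 0 ≤ ∑ j ∈ nd H k i, U j := Finset.sum_nonneg fun j _ => hU j
    unfold rho Y
    rw [div_pow, mul_pow, div_pow _ _ 2, Real.sq_sqrt (div_nonneg h0 hi.le), mul_pow, div_pow,
      show (4 : ℝ) ^ (e k) = (2 ^ (e k)) ^ 2 by rw [← pow_mul, mul_comm, pow_mul]; norm_num,
      show (16 : ℝ) ^ k = (2 ^ k) ^ 4 by rw [← pow_mul, mul_comm, pow_mul]; norm_num]
    field_simp
    ring
  simp only [hY]
  rw [← Finset.sum_div]
  apply div_le_div_of_nonneg_right _ (by positivity)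
  rw [Finset.sum_range_succ', WW, add_comm]
  apply add_le_add
  · apply Finset.sum_le_sum
    intro k _
    have h0 : 0 ≤ ∑ j ∈ nd H (k+1) i, U j := Finset.sum_nonneg fun j _ => hU j
    apply mul_le_mul_of_nonneg_right _ h0
    have h1 : (4 : ℝ) ^ (e k) ≤ 4 ^ (e (k+1)) := pow_le_pow_right₀ (by norm_num) (he.2 k).1
    calc (4 : ℝ) ^ (e k) / 16 ^ k ≤ 4 ^ (e (k+1)) / 16 ^ k := by gcongr
      _ = 16 * (4 ^ (e (k+1)) / 16 ^ (k+1)) := by rw [pow_succ (16:ℝ) k]; field_simp
  · have h1 : U i ≤ ∑ j ∈ nd H 0 i, U j :=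
      Finset.single_le_sum (fun j _ => hU j) (mem_nd_self H 0 i)
    rw [he.1]
    simp only [pow_zero, div_one, mul_one]
    linarith

section ctx

variable {H : ℕ} {Ω : Type} [Fintype Ω] (U V : L H → Ω → ℝ) {K : ℝ}

/-- Bound for the sum of `w Y_k`. -/
lemma T_bound (hU : ∀ i ω, 0 ≤ U i ω) (hK : 0 ≤ K)
    (h1 : ∀ S : Finset (L H), ∑ ω, q (∑ i ∈ S, U i ω) ≤ K * N H (fun i => if i ∈ S then 1 else 0))
    {k : ℕ} (hk : k ≤ H) :
    ∑ i, ∑ ω, q (U i ω) * Y (fun i => U i ω) k i ≤ 3 * K * 16 ^ H := by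
  have e1 : ∀ i ω, q (U i ω) * Y (fun i => U i ω) k i =
      U i ω * √(∑ j ∈ nd H k i, U j ω) / 2 ^ k := fun i ω => q_mul_Y (fun i => hU i ω) k i
  simp only [e1]
  rw [Finset.sum_comm]
  have e2 : ∀ ω, ∑ i, U i ω * √(∑ j ∈ nd H k i, U j ω) / 2 ^ k =
      ∑ i, q (∑ j ∈ nd H k i, U j ω) / 32 ^ k := by
    intro ω
    rw [← Finset.sum_div, ← Finset.sum_div, ← sum_sqrt_nd H k hk (fun i => U i ω),
      show (32 : ℝ) ^ k = 16 ^ k * 2 ^ k by rw [← mul_pow]; norm_num]
    field_simp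
  rw [Finset.sum_congr rfl (fun ω _ => e2 ω), Finset.sum_comm]
  have e3 : ∀ i : L H, ∑ ω, q (∑ j ∈ nd H k i, U j ω) / 32 ^ k ≤ 3 * K := by
    intro i
    rw [← Finset.sum_div, div_le_iff₀ (by positivity)]
    calc ∑ ω, q (∑ j ∈ nd H k i, U j ω) ≤ K * N H (fun j => if j ∈ nd H k i then 1 else 0) :=
          h1 _
      _ ≤ K * (3 * 32 ^ k) := mul_le_mul_of_nonneg_left (N_nd_le hk i) hK
      _ = 3 * K * 32 ^ k := by ring
  calc _ ≤ ∑ _i : L H, 3 * K := Finset.sum_le_sum fun i _ => e3 i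
    _ = 3 * K * 16 ^ H := by
      rw [Finset.sum_const, Finset.card_univ, card_L, nsmul_eq_mul]
      push_cast; ring

lemma sum_swap {e : ℕ → ℕ} (F : Fam H → L H → ℝ) :
    ∑ x, ∑ i ∈ fam e H x, F x i = ∑ i, ∑ x, (if i ∈ fam e H x then (1:ℝ) else 0) * F x i := by
  rw [Finset.sum_comm]
  apply Finset.sum_congr rfl
  intro x _
  rw [sum_mem]
  apply Finset.sum_congr rfl
  intro i _
  split_ifs <;> simp

lemma pt_avg {e : ℕ → ℕ} (he : Prof e) {u : L H → ℝ} (hu : ∀ i, 0 ≤ u i) {τ : ℝ} (hτ : 0 < τ)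
    (i : L H) :
    ∑ x, (if i ∈ fam e H x then (1:ℝ) else 0) *
      (q (u i) * (if τ * u i ≤ ∑ j ∈ fam e H x, u j then 1 else 0)) ≤
    4 ^ (e H) / 16 ^ H * Fintype.card (Fam H) * (q (u i) * min 1 (WW e H u i / (τ * u i))) := by
  have hq : 0 ≤ q (u i) := q_nonneg (hu i)
  rcases (hu i).eq_or_lt with h | h
  · rw [← h, q_zero]
    simp
  have hS : ∀ x, 0 ≤ ∑ j ∈ fam e H x, u j := fun x => Finset.sum_nonneg fun j _ => hu j
  rcases le_total 1 (WW e H u i / (τ * u i)) with h1 | h1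
  · rw [min_eq_left h1, mul_one, ← prob_fam he H i, Finset.sum_mul]
    apply Finset.sum_le_sum
    intro x _
    apply mul_le_mul_of_nonneg_left _ (by split_ifs <;> norm_num)
    calc _ ≤ q (u i) * 1 := mul_le_mul_of_nonneg_left (by split_ifs <;> norm_num) hq
      _ = q (u i) := mul_one _
  · rw [min_eq_right h1]
    have hp := pair_fam he H u hu i
    have hp2 := mul_le_mul_of_nonneg_left hp (show 0 ≤ q (u i) / (τ * u i) by positivity)
    calc _ ≤ q (u i) / (τ * u i) * ∑ x : Fam H, (if i ∈ fam e H x then (1 : ℝ) else 0) *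
            ∑ j ∈ fam e H x, u j := by
          rw [Finset.mul_sum]
          apply Finset.sum_le_sum
          intro x _
          rw [mul_left_comm (q (u i) / (τ * u i))]
          apply mul_le_mul_of_nonneg_left _ (by split_ifs <;> norm_num)
          rw [div_mul_eq_mul_div, mul_div_assoc]
          apply mul_le_mul_of_nonneg_left _ hq
          split_ifs with h2
          · rw [le_div_iff₀ (by positivity)]; linarith
          · exact div_nonneg (hS x) (by positivity)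
      _ ≤ _ := hp2
      _ = _ := by ring

lemma avg (hU : ∀ i ω, 0 ≤ U i ω) (hV : ∀ i ω, 0 ≤ V i ω) (hK : 1 ≤ K)
    (h1 : ∀ S : Finset (L H), ∑ ω, q (∑ i ∈ S, U i ω) ≤ K * N H (fun i => if i ∈ S then 1 else 0))
    (h2 : ∀ (S : Finset (L H)) (M : ℝ), 0 ≤ M →
        (∀ a : L H → ℝ, (∀ i, 0 ≤ a i) → (∑ i ∈ S, a i) ^ 3 ≤ M * N H (fun i => (a i) ^ 2)) →
        ∑ ω, q34 (∑ i ∈ S, V i ω) ≤ K * √M)
    (h3 : ∀ i, 1 / 2 ≤ ∑ ω, √(U i ω) * √(V i ω)) {e : ℕ → ℕ} (he : Prof e)
    {c : ℝ} (hc : c = 1 / (4096 * K ^ 3)) :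
    16 ^ H / (256 * K ^ 2) ≤ ∑ i, ∑ ω, q (U i ω) *
      min 1 (WW e H (fun i => U i ω) i / ((c * kap e H) ^ 2 * U i ω)) := by
  have hK0 : 0 < K := by linarith
  set κ := kap e H with hκ
  have hκ0 : 0 < κ := kap_pos H
  set g := √K with hg
  have hg0 : 0 < g := Real.sqrt_pos.mpr hK0
  have hg2 : g ^ 2 = K := Real.sq_sqrt hK0.le
  set b : ℝ := 1 / (64 * g * K) with hb
  have hbc : b ^ 2 = c := by
    rw [hb, hc, div_pow, mul_pow, mul_pow, hg2]
    ring
  have hc0 : 0 < c := by rw [hc]; positivity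
  set s : ℝ := 4 ^ (e H) with hs
  have hs0 : 0 < s := by positivity
  -- the unit sets
  have hone : ∀ i : L H, ∑ ω, q34 (V i ω) ≤ K := by
    intro i
    have h := h2 {i} 1 zero_le_one ?_
    · simpa using h
    · intro a ha
      rw [Finset.sum_singleton, one_mul, ← q_sq (ha i)]
      exact q_le_N H (fun i => (a i) ^ 2) (fun i => by positivity) i
  have step : ∀ x : Fam H, s / 4 ≤ 64 * K ^ 2 * ∑ i ∈ fam e H x, ∑ ω, q (U i ω) *
      (if (c * κ) ^ 2 * U i ω ≤ ∑ j ∈ fam e H x, U j ω then 1 else 0) := by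
    intro x
    have := step1 (fam e H x) U V hU hV (κ := κ) (s := s) (g := g) (b := b) hK hκ0 hg2 hg0 rfl
      (card_fam he H x) ?_ ?_ (fun i _ => hone i) (fun i _ => h3 i)
    · rwa [hbc] at this
    · intro i _
      have h := h1 (nd H 0 i)
      have h5 : N H (fun j => if j ∈ nd H 0 i then 1 else 0) ≤ 3 := by
        have := N_nd_le (Nat.zero_le H) i
        simpa using this
      calc ∑ ω, q (U i ω) ≤ ∑ ω, q (∑ j ∈ nd H 0 i, U j ω) := by
            apply Finset.sum_le_sum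
            intro ω _
            exact q_mono (hU i ω)
              (Finset.single_le_sum (fun j _ => hU j ω) (mem_nd_self H 0 i))
        _ ≤ K * N H (fun j => if j ∈ nd H 0 i then 1 else 0) := h
        _ ≤ K * 3 := mul_le_mul_of_nonneg_left h5 hK0.le
        _ = 3 * K := by ring
    · have h := h2 (fam e H x) (s ^ 2 / κ) (by positivity) ?_
      · rwa [Real.sqrt_div (by positivity), Real.sqrt_sq hs0.le] at h
      · intro a ha
        have := dual_fam he H x a ha
        rw [div_mul_eq_mul_div, le_div_iff₀ hκ0]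
        linarith
  -- sum over the family
  set M : ℝ := (Fintype.card (Fam H) : ℝ) with hM
  have hM0 : 0 < M := by rw [hM]; exact_mod_cast Fintype.card_pos
  have hsum : M * (s / 4) ≤ 64 * K ^ 2 * (s / 16 ^ H * M * ∑ i, ∑ ω, q (U i ω) *
      min 1 (WW e H (fun i => U i ω) i / ((c * κ) ^ 2 * U i ω))) := by
    calc M * (s / 4) = ∑ x : Fam H, s / 4 := by
          rw [Finset.sum_const, Finset.card_univ, nsmul_eq_mul]
      _ ≤ ∑ x : Fam H, 64 * K ^ 2 * ∑ i ∈ fam e H x, ∑ ω, q (U i ω) *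
            (if (c * κ) ^ 2 * U i ω ≤ ∑ j ∈ fam e H x, U j ω then 1 else 0) :=
          Finset.sum_le_sum fun x _ => step x
      _ = 64 * K ^ 2 * ∑ i, ∑ ω, ∑ x, (if i ∈ fam e H x then (1:ℝ) else 0) * (q (U i ω) *
            (if (c * κ) ^ 2 * U i ω ≤ ∑ j ∈ fam e H x, U j ω then 1 else 0)) := by
          rw [← Finset.mul_sum, sum_swap]
          congr 1
          apply Finset.sum_congr rfl
          intro i _
          simp only [Finset.mul_sum]
          rw [Finset.sum_comm]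
      _ ≤ 64 * K ^ 2 * ∑ i, ∑ ω, s / 16 ^ H * M * (q (U i ω) *
            min 1 (WW e H (fun i => U i ω) i / ((c * κ) ^ 2 * U i ω))) := by
          apply mul_le_mul_of_nonneg_left _ (by positivity)
          apply Finset.sum_le_sum
          intro i _
          apply Finset.sum_le_sum
          intro ω _
          exact pt_avg he (u := fun i => U i ω) (fun i => hU i ω) (by positivity) i
      _ = _ := by simp only [Finset.mul_sum]
  set Q := ∑ i, ∑ ω, q (U i ω) *
      min 1 (WW e H (fun i => U i ω) i / ((c * κ) ^ 2 * U i ω)) with hQ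
  have e1 : 64 * K ^ 2 * (s / 16 ^ H * M * Q) = M * s * (64 * K ^ 2 * Q / 16 ^ H) := by ring
  have e2 : M * (s / 4) = M * s * (1 / 4) := by ring
  rw [e1, e2] at hsum
  have h4 := le_of_mul_le_mul_left hsum (by positivity)
  rw [le_div_iff₀ (by positivity)] at h4
  rw [div_le_iff₀ (by positivity)]
  linarith

end ctx

end Pool.Agent.H47.SQ
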