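import Pool.Agent.H47.SQ.B4

/-!
# Part B, file 5: the dyadic argument and the proof of `PartB` (helper71)
-/

set_option autoImplicit false

namespace Pool.Agent.H47.SQ

open Finset

/-- The profile with the flat interval `(k0, k0 + D]`. -/
def prof (k0 D l : ℕ) : ℕ := min (2 * l - k0) (min l (k0 + D))

lemma prof_ok (k0 D : ℕ) : Prof (prof k0 D) := by
  refine ⟨by simp [prof], fun l => ⟨?_, ?_⟩⟩ <;> unfold prof <;> omega

lemma rho_mid {k0 D k : ℕ} (h1 : k0 ≤ k) (h2 : k ≤ k0 + D) : rho (prof k0 D) k = 1 := by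
  have : prof k0 D k = k := by unfold prof; omega
  unfold rho
  rw [this]
  exact div_self (by positivity)

lemma rho_low {k0 D k : ℕ} (h1 : k ≤ k0) :
    rho (prof k0 D) k ≤ (1/2) ^ k + (1/2) ^ (k0 - k) := by
  have h2k : (0:ℝ) < 2 ^ k := by positivity
  rcases le_total (2 * k) k0 with h | h
  · have : prof k0 D k = 0 := by unfold prof; omega
    unfold rho
    rw [this, pow_zero]
    have : (1:ℝ) / 2 ^ k = (1/2) ^ k := by rw [one_div, one_div, inv_pow]
    rw [this]
    have : (0:ℝ) ≤ (1/2) ^ (k0 - k) := by positivity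
    linarith
  · have : prof k0 D k = 2 * k - k0 := by unfold prof; omega
    unfold rho
    rw [this]
    have e : (2:ℝ) ^ (2 * k - k0) / 2 ^ k = (1/2) ^ (k0 - k) := by
      rw [div_eq_iff (by positivity), one_div, inv_pow, inv_mul_eq_div, eq_div_iff (by positivity),
        ← pow_add]
      congr 1
      omega
    rw [e]
    have : (0:ℝ) ≤ (1/2) ^ k := by positivity
    linarith

lemma rho_high {k0 D k : ℕ} (h1 : k0 + D ≤ k) :
    rho (prof k0 D) k = (1/2) ^ (k - (k0 + D)) := by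
  have : prof k0 D k = k0 + D := by unfold prof; omega
  unfold rho
  rw [this, div_eq_iff (by positivity), one_div, inv_pow, inv_mul_eq_div,
    eq_div_iff (by positivity), ← pow_add]
  congr 1
  omega

lemma geom_half (n : ℕ) : ∑ k ∈ Finset.range n, ((1:ℝ)/2) ^ k ≤ 2 := by
  have : ∑ k ∈ Finset.range n, ((1:ℝ)/2) ^ k = 2 - 2 * (1/2) ^ n := by
    induction n with
    | zero => simp
    | succ n ih => rw [Finset.sum_range_succ, ih, pow_succ]; ring
  rw [this]
  have : (0:ℝ) < (1/2) ^ n := by positivity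
  linarith

lemma rho_low_sum (k0 D : ℕ) : ∑ k ∈ Finset.Ico 0 (k0+1), rho (prof k0 D) k ≤ 4 := by
  rw [← Finset.range_eq_Ico]
  calc _ ≤ ∑ k ∈ Finset.range (k0+1), (((1:ℝ)/2) ^ k + (1/2) ^ (k0 - k)) :=
        Finset.sum_le_sum fun k hk => rho_low (by rw [Finset.mem_range] at hk; omega)
    _ = ∑ k ∈ Finset.range (k0+1), ((1:ℝ)/2) ^ k + ∑ k ∈ Finset.range (k0+1), ((1:ℝ)/2) ^ k := by
        rw [Finset.sum_add_distrib]
        congr 1
        have := Finset.sum_range_reflect (fun k => ((1:ℝ)/2) ^ k) (k0+1)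
        rw [← this]
        apply Finset.sum_congr rfl
        intro k _
        congr 1
    _ ≤ 2 + 2 := add_le_add (geom_half _) (geom_half _)
    _ = 4 := by norm_num

lemma rho_high_sum (k0 D H : ℕ) :
    ∑ k ∈ Finset.Ico (k0+D+1) (H+1), rho (prof k0 D) k ≤ 1 := by
  rw [Finset.sum_Ico_eq_sum_range]
  calc _ = ∑ j ∈ Finset.range (H + 1 - (k0+D+1)), ((1:ℝ)/2) ^ j * (1/2) := by
        apply Finset.sum_congr rfl
        intro j _
        rw [rho_high (by omega), ← pow_succ]
        congr 1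
        omega
    _ = (∑ j ∈ Finset.range (H + 1 - (k0+D+1)), ((1:ℝ)/2) ^ j) * (1/2) := by rw [Finset.sum_mul]
    _ ≤ 2 * (1/2) := by
        apply mul_le_mul_of_nonneg_right (geom_half _) (by norm_num)
    _ = 1 := by norm_num

lemma kap_ge {k0 D H : ℕ} (h : k0 + D ≤ H) : (D : ℝ) ≤ kap (prof k0 D) H := by
  have h1 : kap (prof k0 D) H = ∑ l ∈ Finset.range (H+1), rho (prof k0 D) l := rfl
  rw [h1]
  calc (D : ℝ) = ∑ l ∈ Finset.Ico (k0+1) (k0+D+1), (1:ℝ) := by
        rw [Finset.sum_const, Nat.card_Ico, nsmul_eq_mul, mul_one]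
        congr 1
        omega
    _ = ∑ l ∈ Finset.Ico (k0+1) (k0+D+1), rho (prof k0 D) l := by
        apply Finset.sum_congr rfl
        intro l hl
        rw [Finset.mem_Ico] at hl
        rw [rho_mid (by omega) (by omega)]
    _ ≤ _ := by
        apply Finset.sum_le_sum_of_subset_of_nonneg
        · intro l hl
          rw [Finset.mem_Ico] at hl
          rw [Finset.mem_range]
          omega
        · intro l _ _
          unfold rho; positivity

section ctx

variable {H : ℕ} {Ω : Type} [Fintype Ω] (U V : L H → Ω → ℝ) {K : ℝ}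

lemma block (hU : ∀ i ω, 0 ≤ U i ω) (hV : ∀ i ω, 0 ≤ V i ω) (hK : 1 ≤ K)
    (h1 : ∀ S : Finset (L H), ∑ ω, q (∑ i ∈ S, U i ω) ≤ K * N H (fun i => if i ∈ S then 1 else 0))
    (h2 : ∀ (S : Finset (L H)) (M : ℝ), 0 ≤ M →
        (∀ a : L H → ℝ, (∀ i, 0 ≤ a i) → (∑ i ∈ S, a i) ^ 3 ≤ M * N H (fun i => (a i) ^ 2)) →
        ∑ ω, q34 (∑ i ∈ S, V i ω) ≤ K * √M)
    (h3 : ∀ i, 1 / 2 ≤ ∑ ω, √(U i ω) * √(V i ω))
    {c : ℝ} (hc : c = 1 / (4096 * K ^ 3)) {k0 D : ℕ} (hD : k0 + D ≤ H) (hD0 : 0 < D)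
    (hDc : 30720 * K ^ 3 / c ≤ D) :
    16 ^ H / (512 * K ^ 2) ≤ ∑ k ∈ Finset.Ico (k0+1) (k0+D+1), ∑ i, ∑ ω,
      q (U i ω) * G (4 * Y (fun i => U i ω) k i / (c * D)) := by
  have hK0 : 0 < K := by linarith
  have hc0 : 0 < c := by rw [hc]; positivity
  have he := prof_ok k0 D
  set e := prof k0 D with hee
  set κ := kap e H with hκ
  have hκ0 : 0 < κ := kap_pos H
  have hκD : (D : ℝ) ≤ κ := kap_ge hD
  have hD' : (0:ℝ) < D := by exact_mod_cast hD0
  have h4 := avg U V hU hV hK h1 h2 h3 he hc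
  rw [← hκ] at h4
  -- pointwise bound by the sum over levels
  set f : ℕ → ℝ := fun k => ∑ i, ∑ ω, q (U i ω) *
      G (4 * rho e k * Y (fun i => U i ω) k i / (c * κ)) with hf
  have h5 : ∑ i, ∑ ω, q (U i ω) *
      min 1 (WW e H (fun i => U i ω) i / ((c * κ) ^ 2 * U i ω)) ≤
      ∑ k ∈ Finset.range (H+1), f k := by
    have e5 : ∑ k ∈ Finset.range (H+1), f k = ∑ i, ∑ ω, ∑ k ∈ Finset.range (H+1), q (U i ω) *
        G (4 * rho e k * Y (fun i => U i ω) k i / (c * κ)) := by
      rw [hf]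
      dsimp only
      rw [Finset.sum_comm]
      apply Finset.sum_congr rfl
      intro i _
      rw [Finset.sum_comm]
    rw [e5]
    apply Finset.sum_le_sum
    intro i _
    apply Finset.sum_le_sum
    intro ω _
    rw [← Finset.mul_sum]
    rcases (hU i ω).eq_or_lt with h | h
    · rw [← h, q_zero, zero_mul, zero_mul]
    · apply mul_le_mul_of_nonneg_left _ (q_nonneg (hU i ω))
      refine le_trans (min_le_min_left 1 (WW_le he (U := fun i => U i ω) (fun i => hU i ω) i h
        hc0 hκ0)) ?_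
      exact min_one_sum _ _ (fun k => sq_nonneg _)
  -- off the interval
  have hoff : ∀ k, k ≤ H → f k ≤ 12 * K * 16 ^ H / (c * D) * rho e k := by
    intro k hk
    have hr : 0 ≤ rho e k := by unfold rho; positivity
    calc f k ≤ ∑ i, ∑ ω, 4 * rho e k / (c * κ) * (q (U i ω) * Y (fun i => U i ω) k i) := by
          apply Finset.sum_le_sum
          intro i _
          apply Finset.sum_le_sum
          intro ω _
          have hY := Y_nonneg (fun i => U i ω) k i
          have := G_le (show 0 ≤ 4 * rho e k * Y (fun i => U i ω) k i / (c * κ) by positivity)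
          calc _ ≤ q (U i ω) * (4 * rho e k * Y (fun i => U i ω) k i / (c * κ)) :=
                mul_le_mul_of_nonneg_left this (q_nonneg (hU i ω))
            _ = _ := by ring
      _ = 4 * rho e k / (c * κ) * ∑ i, ∑ ω, (q (U i ω) * Y (fun i => U i ω) k i) := by
          simp only [Finset.mul_sum]
      _ ≤ 4 * rho e k / (c * κ) * (3 * K * 16 ^ H) :=
          mul_le_mul_of_nonneg_left (T_bound U hU hK0.le h1 hk) (by positivity)
      _ ≤ 4 * rho e k / (c * D) * (3 * K * 16 ^ H) := by gcongr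
      _ = _ := by ring
  -- on the interval
  have hon : ∀ k, k0 ≤ k → k ≤ k0 + D → f k ≤
      ∑ i, ∑ ω, q (U i ω) * G (4 * Y (fun i => U i ω) k i / (c * D)) := by
    intro k hk1 hk2
    apply Finset.sum_le_sum
    intro i _
    apply Finset.sum_le_sum
    intro ω _
    apply mul_le_mul_of_nonneg_left _ (q_nonneg (hU i ω))
    have hY := Y_nonneg (fun i => U i ω) k i
    rw [hee, rho_mid hk1 hk2, mul_one]
    apply G_mono (by positivity)
    gcongr
  -- split
  have hsplit : ∑ k ∈ Finset.range (H+1), f k =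
      ∑ k ∈ Finset.Ico 0 (k0+1), f k + ∑ k ∈ Finset.Ico (k0+1) (k0+D+1), f k +
        ∑ k ∈ Finset.Ico (k0+D+1) (H+1), f k := by
    rw [Finset.sum_Ico_consecutive f (by omega) (by omega),
      Finset.sum_Ico_consecutive f (by omega) (by omega), Finset.range_eq_Ico]
  have s1 : ∑ k ∈ Finset.Ico 0 (k0+1), f k ≤ 12 * K * 16 ^ H / (c * D) * 4 := by
    calc _ ≤ ∑ k ∈ Finset.Ico 0 (k0+1), 12 * K * 16 ^ H / (c * D) * rho e k := by
          apply Finset.sum_le_sum
          intro k hk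
          rw [Finset.mem_Ico] at hk
          exact hoff k (by omega)
      _ = 12 * K * 16 ^ H / (c * D) * ∑ k ∈ Finset.Ico 0 (k0+1), rho e k := by
          rw [Finset.mul_sum]
      _ ≤ _ := mul_le_mul_of_nonneg_left (rho_low_sum k0 D) (by positivity)
  have s3 : ∑ k ∈ Finset.Ico (k0+D+1) (H+1), f k ≤ 12 * K * 16 ^ H / (c * D) * 1 := by
    calc _ ≤ ∑ k ∈ Finset.Ico (k0+D+1) (H+1), 12 * K * 16 ^ H / (c * D) * rho e k := by
          apply Finset.sum_le_sum
          intro k hk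
          rw [Finset.mem_Ico] at hk
          exact hoff k (by omega)
      _ = 12 * K * 16 ^ H / (c * D) * ∑ k ∈ Finset.Ico (k0+D+1) (H+1), rho e k := by
          rw [Finset.mul_sum]
      _ ≤ _ := mul_le_mul_of_nonneg_left (rho_high_sum k0 D H) (by positivity)
  have s2 : ∑ k ∈ Finset.Ico (k0+1) (k0+D+1), f k ≤
      ∑ k ∈ Finset.Ico (k0+1) (k0+D+1), ∑ i, ∑ ω,
        q (U i ω) * G (4 * Y (fun i => U i ω) k i / (c * D)) := by
    apply Finset.sum_le_sum
    intro k hk
    rw [Finset.mem_Ico] at hk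
    exact hon k (by omega) (by omega)
  have hsmall : 12 * K * 16 ^ H / (c * D) * 5 ≤ 16 ^ H / (512 * K ^ 2) := by
    rw [div_le_iff₀ hc0] at hDc
    rw [div_mul_eq_mul_div, div_le_div_iff₀ (by positivity) (by positivity)]
    have h16 : (0:ℝ) < 16 ^ H := by positivity
    calc 12 * K * 16 ^ H * 5 * (512 * K ^ 2) = 16 ^ H * (30720 * K ^ 3) := by ring
      _ ≤ 16 ^ H * (D * c) := mul_le_mul_of_nonneg_left hDc h16.le
      _ = 16 ^ H * (c * D) := by ring
  have e256 : (16:ℝ) ^ H / (256 * K ^ 2) = 2 * (16 ^ H / (512 * K ^ 2)) := by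
    field_simp; norm_num
  rw [hsplit] at h5
  rw [e256] at h4
  linarith

end ctx

lemma sum_blocks (f : ℕ → ℝ) (D : ℕ) (M : ℕ) :
    ∑ t ∈ Finset.range M, ∑ k ∈ Finset.Ico (t * D + 1) (t * D + D + 1), f k =
      ∑ k ∈ Finset.Ico 1 (M * D + 1), f k := by
  induction M with
  | zero => simp
  | succ M ih =>
    rw [Finset.sum_range_succ, ih, Finset.sum_Ico_consecutive f (by omega) (by omega)]
    congr 2
    ring

theorem partB : PartB := by
  intro K hK
  have hK0 : 0 < K := by linarith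
  set c : ℝ := 1 / (4096 * K ^ 3) with hc
  have hc0 : 0 < c := by rw [hc]; positivity
  obtain ⟨j0, hj0⟩ := pow_unbounded_of_one_lt (30720 * K ^ 3 / c) (show (1:ℝ) < 2 by norm_num)
  obtain ⟨N0, hN0⟩ := exists_nat_gt (36864 * K ^ 3 / c)
  set n := j0 + N0 with hn
  refine ⟨2 ^ n, ?_⟩
  intro Ω _ U V hU hV h1 h2 h3
  set F : ℕ → ℕ → ℝ := fun j k => ∑ i, ∑ ω,
    q (U i ω) * G (4 * Y (fun i => U i ω) k i / (c * (2 ^ j : ℕ))) with hF
  -- lower bound for every scale
  have low : ∀ j ∈ Finset.Ico j0 n,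
      2 ^ (n - j) * (16 ^ (2 ^ n) / (512 * K ^ 2)) ≤ ∑ k ∈ Finset.Ico 1 (2 ^ n + 1), F j k := by
    intro j hj
    rw [Finset.mem_Ico] at hj
    have e1 : 2 ^ (n - j) * 2 ^ j = 2 ^ n := by
      rw [← pow_add, Nat.sub_add_cancel hj.2.le]
    have h4 := sum_blocks (F j) (2 ^ j) (2 ^ (n - j))
    rw [e1] at h4
    rw [← h4]
    calc (2:ℝ) ^ (n - j) * (16 ^ (2 ^ n) / (512 * K ^ 2))
        = ∑ t ∈ Finset.range (2 ^ (n - j)), (16:ℝ) ^ (2 ^ n) / (512 * K ^ 2) := by
          rw [Finset.sum_const, Finset.card_range, nsmul_eq_mul]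
          push_cast; ring
      _ ≤ _ := by
          apply Finset.sum_le_sum
          intro t ht
          rw [Finset.mem_range] at ht
          apply block U V hU hV hK h1 h2 h3 hc
          · calc t * 2 ^ j + 2 ^ j = (t + 1) * 2 ^ j := by ring
              _ ≤ 2 ^ (n - j) * 2 ^ j := Nat.mul_le_mul_right _ ht
              _ = 2 ^ n := e1
          · positivity
          · push_cast
            exact hj0.le.trans (pow_le_pow_right₀ (by norm_num) hj.1)
  -- upper bound
  have up : ∀ k ∈ Finset.Ico 1 (2 ^ n + 1),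
      ∑ j ∈ Finset.Ico j0 n, 2 ^ j * F j k ≤ 24 / c * (3 * K * 16 ^ (2 ^ n)) := by
    intro k hk
    rw [Finset.mem_Ico] at hk
    have hk' : k ≤ 2 ^ n := by omega
    calc ∑ j ∈ Finset.Ico j0 n, 2 ^ j * F j k
        = ∑ i, ∑ ω, q (U i ω) * ∑ j ∈ Finset.Ico j0 n,
            2 ^ j * G (4 * Y (fun i => U i ω) k i / c / 2 ^ j) := by
          rw [hF]
          dsimp only
          simp only [Finset.mul_sum]
          rw [Finset.sum_comm]
          apply Finset.sum_congr rfl
          intro i _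
          rw [Finset.sum_comm]
          apply Finset.sum_congr rfl
          intro ω _
          apply Finset.sum_congr rfl
          intro j _
          push_cast
          rw [div_div]
          ring
      _ ≤ ∑ i, ∑ ω, q (U i ω) * (6 * (4 * Y (fun i => U i ω) k i / c)) := by
          apply Finset.sum_le_sum
          intro i _
          apply Finset.sum_le_sum
          intro ω _
          apply mul_le_mul_of_nonneg_left _ (q_nonneg (hU i ω))
          have hY := Y_nonneg (fun i => U i ω) k i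
          exact dyadic' (by positivity) j0 n
      _ = 24 / c * ∑ i, ∑ ω, q (U i ω) * Y (fun i => U i ω) k i := by
          simp only [Finset.mul_sum]
          apply Finset.sum_congr rfl
          intro i _
          apply Finset.sum_congr rfl
          intro ω _
          ring
      _ ≤ _ := mul_le_mul_of_nonneg_left (T_bound U hU hK0.le h1 hk') (by positivity)
  -- combine
  have hA : (N0 : ℝ) * (2 ^ n * (16 ^ (2 ^ n) / (512 * K ^ 2))) ≤
      2 ^ n * (24 / c * (3 * K * 16 ^ (2 ^ n))) := by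
    calc (N0 : ℝ) * (2 ^ n * (16 ^ (2 ^ n) / (512 * K ^ 2)))
        = ∑ j ∈ Finset.Ico j0 n, 2 ^ j * (2 ^ (n - j) * (16 ^ (2 ^ n) / (512 * K ^ 2))) := by
          have : ∀ j ∈ Finset.Ico j0 n, (2:ℝ) ^ j * (2 ^ (n - j) * (16 ^ (2 ^ n) / (512 * K ^ 2))) =
              2 ^ n * (16 ^ (2 ^ n) / (512 * K ^ 2)) := by
            intro j hj
            rw [Finset.mem_Ico] at hj
            rw [← mul_assoc, ← pow_add, Nat.add_sub_cancel' hj.2.le]
          rw [Finset.sum_congr rfl this, Finset.sum_const, Nat.card_Ico, nsmul_eq_mul]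
          congr 2
          omega
      _ ≤ ∑ j ∈ Finset.Ico j0 n, 2 ^ j * ∑ k ∈ Finset.Ico 1 (2 ^ n + 1), F j k :=
          Finset.sum_le_sum fun j hj => mul_le_mul_of_nonneg_left (low j hj) (by positivity)
      _ = ∑ k ∈ Finset.Ico 1 (2 ^ n + 1), ∑ j ∈ Finset.Ico j0 n, 2 ^ j * F j k := by
          simp only [Finset.mul_sum]
          rw [Finset.sum_comm]
      _ ≤ ∑ k ∈ Finset.Ico 1 (2 ^ n + 1), 24 / c * (3 * K * 16 ^ (2 ^ n)) :=
          Finset.sum_le_sum up
      _ = _ := by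
          rw [Finset.sum_const, Nat.card_Ico, nsmul_eq_mul]
          push_cast
          simp
  have h16 : (0:ℝ) < 16 ^ (2 ^ n) := by positivity
  have h2n : (0:ℝ) < 2 ^ n := by positivity
  have e1 : (N0 : ℝ) * (2 ^ n * (16 ^ (2 ^ n) / (512 * K ^ 2))) =
      (2 ^ n * 16 ^ (2 ^ n)) * (N0 / (512 * K ^ 2)) := by ring
  have e2 : (2:ℝ) ^ n * (24 / c * (3 * K * 16 ^ (2 ^ n))) =
      (2 ^ n * 16 ^ (2 ^ n)) * (72 * K / c) := by ring
  rw [e1, e2] at hA
  have hB := le_of_mul_le_mul_left hA (by positivity)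
  rw [div_le_iff₀ (by positivity)] at hB
  have e3 : 72 * K / c * (512 * K ^ 2) = 36864 * K ^ 3 / c := by ring
  linarith

end Pool.Agent.H47.SQ
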