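import Mathlib

set_option autoImplicit false
open scoped ENNReal

namespace Pool.Agent.H47.SQ

instance fact13 : Fact ((1:ℝ≥0∞) ≤ 3) := ⟨by norm_num⟩

end Pool.Agent.H47.SQ
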