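import Pool.Agent.H47.SQ.Base3

/-! MP_dfb345_an, part C, module C1: embedding of the `ℓ_3` sum of the spaces `E H` in `ℓ_3`. -/

set_option autoImplicit false
open scoped ENNReal

namespace Pool.Agent.H47.SQ

theorem toReal_three : (3 : ℝ≥0∞).toReal = (3 : ℝ) := by simp

/-- C1. -/
theorem emb (E : ℕ → Type) [∀ n, NormedAddCommGroup (E n)] [∀ n, NormedSpace ℝ (E n)]
    (φ : ∀ H, ℕ → (E H →ₗ[ℝ] ℝ)) (h : ∀ H x, HasSum (fun n => |φ H n x| ^ 3) (‖x‖ ^ 3)) :
    ∃ S : Submodule ℝ (lp (fun _ : ℕ => ℝ) 3), Nonempty (lp E 3 ≃L[ℝ] S) := by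
  have hp : 0 < (3 : ℝ≥0∞).toReal := by simp
  -- the main sum
  have key : ∀ x : lp E 3, HasSum (fun k : ℕ => |φ k.unpair.1 k.unpair.2 (x k.unpair.1)| ^ 3)
      (‖x‖ ^ 3) := by
    intro x
    have h1 : HasSum (fun H => ‖x H‖ ^ 3) (‖x‖ ^ 3) := by
      have := lp.hasSum_norm hp x
      simp only [toReal_three] at this
      exact_mod_cast this
    have h2 : HasSum (fun q : ℕ × ℕ => |φ q.1 q.2 (x q.1)| ^ 3) (‖x‖ ^ 3) := by
      have hs : Summable (fun q : ℕ × ℕ => |φ q.1 q.2 (x q.1)| ^ 3) := by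
        rw [summable_prod_of_nonneg (fun q => by positivity)]
        refine ⟨fun H => (h H (x H)).summable, ?_⟩
        have : (fun H => ∑' n, |φ H n (x H)| ^ 3) = fun H => ‖x H‖ ^ 3 := by
          funext H
          exact (h H (x H)).tsum_eq
        simp only [this]
        exact h1.summable
      have h3 := hs.hasSum
      have h4 : ∑' q : ℕ × ℕ, |φ q.1 q.2 (x q.1)| ^ 3 = ‖x‖ ^ 3 := by
        rw [hs.tsum_prod]
        rw [← h1.tsum_eq]
        exact tsum_congr fun H => (h H (x H)).tsum_eq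
      rwa [h4] at h3
    have h5 := (Equiv.hasSum_iff Nat.pairEquiv.symm
      (f := fun q : ℕ × ℕ => |φ q.1 q.2 (x q.1)| ^ 3) (a := ‖x‖ ^ 3)).mpr h2
    exact h5
  have mem : ∀ x : lp E 3, Memℓp (fun k : ℕ => φ k.unpair.1 k.unpair.2 (x k.unpair.1)) 3 := by
    intro x
    rw [memℓp_gen_iff hp]
    have := (key x).summable
    simp only [toReal_three, Real.norm_eq_abs]
    exact_mod_cast this
  let Φ : lp E 3 →ₗ[ℝ] lp (fun _ : ℕ => ℝ) 3 :=
    { toFun := fun x => ⟨fun k : ℕ => φ k.unpair.1 k.unpair.2 (x k.unpair.1), mem x⟩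
      map_add' := by
        intro x y
        ext k
        simp
      map_smul' := by
        intro c x
        ext k
        simp }
  have hnorm : ∀ x, ‖Φ x‖ = ‖x‖ := by
    intro x
    have h1 : HasSum (fun k : ℕ => ‖Φ x k‖ ^ 3) (‖Φ x‖ ^ 3) := by
      have := lp.hasSum_norm hp (Φ x)
      simp only [toReal_three] at this
      exact_mod_cast this
    have h2 := h1.unique (key x)
    exact (pow_left_inj₀ (norm_nonneg _) (norm_nonneg _) (by norm_num)).mp h2
  let Ψ : lp E 3 →ₗᵢ[ℝ] lp (fun _ : ℕ => ℝ) 3 := ⟨Φ, hnorm⟩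
  exact ⟨LinearMap.range Ψ.toLinearMap, ⟨Ψ.equivRange.toContinuousLinearEquiv⟩⟩

end Pool.Agent.H47.SQ
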