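import Pool.Agent.H47.SQ.Base3

/-! MP_dfb345_an, part C, module C2: quotient map onto an `ℓ_3` sum. -/

set_option autoImplicit false
open scoped ENNReal

namespace Pool.Agent.H47.SQ

lemma rpow_three (x : ℝ) : x ^ (3:ℝ) = x ^ 3 := by exact_mod_cast Real.rpow_natCast x 3

lemma toReal3 : (3 : ℝ≥0∞).toReal = 3 := by norm_num

lemma lpE_hasSum {E : ℕ → Type} [∀ n, NormedAddCommGroup (E n)] (x : lp E 3) :
    HasSum (fun k => ‖x k‖ ^ 3) (‖x‖ ^ 3) := by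
  have h := lp.hasSum_norm (p := 3) (by rw [toReal3]; norm_num) x
  rw [toReal3] at h
  simp only [rpow_three] at h
  exact h

lemma mem3_of_summable {E : ℕ → Type} [∀ n, NormedAddCommGroup (E n)] {f : ∀ n, E n}
    (h : Summable (fun k => ‖f k‖ ^ 3)) : Memℓp f 3 := by
  refine memℓp_gen ?_
  rw [toReal3]
  simp only [rpow_three]
  exact h

lemma hasSum_pair {f : ℕ → ℝ} {a : ℝ} (hf : HasSum f a) :
    HasSum (fun x : ℕ × ℕ => f (Nat.pair x.1 x.2)) a := by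
  have := (Nat.pairEquiv.hasSum_iff (f := f) (a := a)).2 hf
  exact this

theorem quot (E : ℕ → Type) [∀ n, NormedAddCommGroup (E n)] [∀ n, NormedSpace ℝ (E n)]
    (C : ℝ) (T : ∀ H, lp (fun _ : ℕ => ℝ) 3 →L[ℝ] E H) (hT : ∀ H, ‖T H‖ ≤ C)
    (hl : ∀ H (x : E H), ∃ φ, T H φ = x ∧ ‖φ‖ ≤ C * ‖x‖) :
    ∃ T : lp (fun _ : ℕ => ℝ) 3 →L[ℝ] lp E 3, Function.Surjective T := by
  have hC : 0 ≤ C := (norm_nonneg _).trans (hT 0)
  -- rows
  have hrow : ∀ (φ : lp (fun _ : ℕ => ℝ) 3) (H : ℕ), Summable (fun n => ‖φ (Nat.pair H n)‖ ^ 3) := by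
    intro φ H
    have h1 := (lpE_hasSum φ).summable
    have hinj : Function.Injective (fun n => Nat.pair H n) := fun a b h => by
      have := (Nat.pair_eq_pair.1 h).2; exact this
    exact h1.comp_injective hinj
  obtain ⟨R, hR⟩ : ∃ R : ∀ H : ℕ, lp (fun _ : ℕ => ℝ) 3 →ₗ[ℝ] lp (fun _ : ℕ => ℝ) 3,
      ∀ H φ n, R H φ n = φ (Nat.pair H n) := by
    refine ⟨fun H => { toFun := fun φ => ⟨fun n => φ (Nat.pair H n), mem3_of_summable (hrow φ H)⟩, map_add' := fun φ ψ => ?_, map_smul' := fun c φ => ?_ }, fun H φ n => rfl⟩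
    · ext n; rfl
    · ext n; rfl
  have hRsum : ∀ φ : lp (fun _ : ℕ => ℝ) 3, HasSum (fun H => ‖R H φ‖ ^ 3) (‖φ‖ ^ 3) := by
    intro φ
    refine HasSum.prod_fiberwise (hasSum_pair (lpE_hasSum φ)) (fun H => ?_)
    have := lpE_hasSum (R H φ)
    simp only [hR] at this
    exact this
  have hTR : ∀ (φ : lp (fun _ : ℕ => ℝ) 3) (H : ℕ), ‖T H (R H φ)‖ ^ 3 ≤ C ^ 3 * ‖R H φ‖ ^ 3 := by
    intro φ H
    rw [← mul_pow]
    refine pow_le_pow_left₀ (norm_nonneg _) ?_ 3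
    exact ((T H).le_opNorm _).trans (mul_le_mul_of_nonneg_right (hT H) (norm_nonneg _))
  have hmem : ∀ φ : lp (fun _ : ℕ => ℝ) 3, Memℓp (fun H => T H (R H φ)) 3 := fun φ =>
    mem3_of_summable (Summable.of_nonneg_of_le (fun H => by positivity) (hTR φ)
      ((hRsum φ).summable.mul_left _))
  obtain ⟨S, hS⟩ : ∃ S : lp (fun _ : ℕ => ℝ) 3 →ₗ[ℝ] lp E 3, ∀ φ H, S φ H = T H (R H φ) := by
    refine ⟨{ toFun := fun φ => ⟨fun H => T H (R H φ), hmem φ⟩, map_add' := fun φ ψ => ?_, map_smul' := fun c φ => ?_ }, fun φ H => rfl⟩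
    · ext H
      show T H (R H (φ + ψ)) = T H (R H φ) + T H (R H ψ)
      rw [map_add, map_add]
    · ext H
      show T H (R H (c • φ)) = c • T H (R H φ)
      rw [map_smul, map_smul]
  have hbd : ∀ φ, ‖S φ‖ ≤ C * ‖φ‖ := by
    intro φ
    have h1 := lpE_hasSum (S φ)
    simp only [hS] at h1
    have h2 := hasSum_le (hTR φ) h1 ((hRsum φ).mul_left (C ^ 3))
    rw [← mul_pow] at h2
    exact le_of_pow_le_pow_left₀ (by norm_num) (mul_nonneg hC (norm_nonneg _)) h2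
  refine ⟨S.mkContinuous C hbd, fun x => ?_⟩
  choose ψ hψ1 hψ2 using fun H => hl H (x H)
  -- glue
  have hglue : Summable (fun k : ℕ => ‖ψ k.unpair.1 k.unpair.2‖ ^ 3) := by
    have h1 : Summable (fun y : ℕ × ℕ => ‖ψ y.1 y.2‖ ^ 3) := by
      rw [summable_prod_of_nonneg (fun y => by positivity)]
      refine ⟨fun H => (lpE_hasSum (ψ H)).summable, ?_⟩
      have e : (fun H => ∑' n, ‖ψ H n‖ ^ 3) = fun H => ‖ψ H‖ ^ 3 := by
        funext H; exact (lpE_hasSum (ψ H)).tsum_eq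
      rw [e]
      refine Summable.of_nonneg_of_le (fun H => by positivity) (fun H => ?_)
        ((lpE_hasSum x).summable.mul_left (C ^ 3))
      rw [← mul_pow]
      exact pow_le_pow_left₀ (norm_nonneg _) (hψ2 H) 3
    have := (Nat.pairEquiv.symm.summable_iff (f := fun y : ℕ × ℕ => ‖ψ y.1 y.2‖ ^ 3)).2 h1
    exact this
  obtain ⟨φ, hφ⟩ : ∃ φ : lp (fun _ : ℕ => ℝ) 3, ∀ k, φ k = ψ k.unpair.1 k.unpair.2 :=
    ⟨⟨fun k => ψ k.unpair.1 k.unpair.2, mem3_of_summable hglue⟩, fun k => rfl⟩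
  refine ⟨φ, ?_⟩
  show S φ = x
  ext H
  rw [hS]
  have : R H φ = ψ H := by
    ext n
    rw [hR, hφ, Nat.unpair_pair]
  rw [this, hψ1]

end Pool.Agent.H47.SQ
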