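import Pool.Agent.H47.SQ.Base3

/-! MP_dfb345_an, part C, module C3a: quantitative lifting through a bounded map onto a
finite-dimensional space. -/

set_option autoImplicit false

namespace Pool.Agent.H47.SQ

/-- C3a, first half: under the lower bound for the adjoint the map is onto. -/
theorem lifting_surjective {E F : Type} [NormedAddCommGroup E] [NormedSpace ℝ E]
    [FiniteDimensional ℝ E] [NormedAddCommGroup F] [NormedSpace ℝ F] (T : F →L[ℝ] E) (K : ℝ)
    (h : ∀ b : E →L[ℝ] ℝ, ‖b‖ ≤ K * ‖b.comp T‖) : Function.Surjective T := by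
  by_contra hs
  have hlt : T.range < ⊤ := by
    rw [lt_top_iff_ne_top]
    intro htop
    exact hs (LinearMap.range_eq_top.mp htop)
  obtain ⟨f, hf0, hf⟩ := Submodule.exists_le_ker_of_lt_top _ hlt
  apply hf0
  have hcomp : (LinearMap.toContinuousLinearMap f).comp T = 0 := by
    ext x
    have hx : T x ∈ LinearMap.ker f := hf (LinearMap.mem_range_self _ x)
    simpa using hx
  have hz := h (LinearMap.toContinuousLinearMap f)
  rw [hcomp, norm_zero, mul_zero] at hz
  have hz' : LinearMap.toContinuousLinearMap f = 0 := norm_le_zero_iff.mp hz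
  simpa using hz'

/-- C3a.  Quantitative lifting through a map onto a finite-dimensional space.
(Surjective: otherwise a nonzero functional vanishes on the range.  If `a` is not in the image of the open
ball of radius `(K+1)‖a‖`, which is open and convex, separate with `geometric_hahn_banach_open_point`.) -/
theorem lifting {E F : Type} [NormedAddCommGroup E] [NormedSpace ℝ E] [FiniteDimensional ℝ E]
    [NormedAddCommGroup F] [NormedSpace ℝ F] [CompleteSpace F] (T : F →L[ℝ] E) (K : ℝ) (hK : 0 ≤ K)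
    (h : ∀ b : E →L[ℝ] ℝ, ‖b‖ ≤ K * ‖b.comp T‖) (a : E) :
    ∃ φ : F, T φ = a ∧ ‖φ‖ ≤ (K + 1) * ‖a‖ := by
  by_cases ha : a = 0
  · exact ⟨0, by simp [ha], by simp [ha]⟩
  have hna : 0 < ‖a‖ := norm_pos_iff.mpr ha
  have hr : 0 < (K + 1) * ‖a‖ := by positivity
  have hsurj : Function.Surjective T := lifting_surjective T K h
  have : CompleteSpace E := FiniteDimensional.complete ℝ E
  have hopen : IsOpenMap T := T.isOpenMap hsurj
  by_cases hmem : a ∈ T '' Metric.ball (0 : F) ((K + 1) * ‖a‖)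
  · obtain ⟨φ, hφ, hTφ⟩ := hmem
    refine ⟨φ, hTφ, ?_⟩
    rw [mem_ball_zero_iff] at hφ
    exact hφ.le
  exfalso
  have hconv : Convex ℝ (T '' Metric.ball (0 : F) ((K + 1) * ‖a‖)) :=
    (convex_ball (0 : F) ((K + 1) * ‖a‖)).linear_image (T : F →ₗ[ℝ] E)
  obtain ⟨f, hf⟩ := geometric_hahn_banach_open_point hconv (hopen _ Metric.isOpen_ball) hmem
  have hfa : 0 < f a := by
    have := hf 0 ⟨0, by simpa using hr, by simp⟩
    simpa using this
  have hnf : 0 < ‖f‖ := by
    rw [norm_pos_iff]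
    rintro rfl
    simp at hfa
  have hg : 0 < ‖f.comp T‖ := by
    by_contra hneg
    have h0 : ‖f.comp T‖ = 0 := le_antisymm (not_lt.mp hneg) (norm_nonneg _)
    have := h f
    rw [h0, mul_zero] at this
    linarith
  have hle : ((K + 1) * ‖a‖) * ‖f.comp T‖ ≤ f a := by
    by_contra hlt
    rw [not_le] at hlt
    have h1 : f a / ((K + 1) * ‖a‖) < ‖f.comp T‖ := by
      rw [div_lt_iff₀ hr]
      linarith
    obtain ⟨x, hx1, hx2⟩ := (f.comp T).exists_lt_apply_of_lt_opNorm h1
    rw [div_lt_iff₀ hr] at hx2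
    have hball : ∀ s : ℝ, |s| = 1 →
        (s * ((K + 1) * ‖a‖)) • x ∈ Metric.ball (0 : F) ((K + 1) * ‖a‖) := by
      intro s hs
      rw [mem_ball_zero_iff, norm_smul, Real.norm_eq_abs, abs_mul, hs, one_mul, abs_of_pos hr]
      exact mul_lt_of_lt_one_right hr hx1
    have h2 := hf _ ⟨_, hball 1 (by simp), rfl⟩
    have h3 := hf _ ⟨_, hball (-1) (by simp), rfl⟩
    simp only [map_smul, smul_eq_mul] at h2 h3
    rw [Real.norm_eq_abs] at hx2
    rcases abs_cases ((f.comp T) x) with ⟨he, -⟩ | ⟨he, -⟩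
    · rw [he] at hx2
      have : (f.comp T) x = f (T x) := rfl
      rw [this] at hx2
      nlinarith
    · rw [he] at hx2
      have : (f.comp T) x = f (T x) := rfl
      rw [this] at hx2
      nlinarith
  have h4 : f a ≤ ‖f‖ * ‖a‖ := by
    have := f.le_opNorm a
    rw [Real.norm_eq_abs] at this
    exact (le_abs_self _).trans this
  have h5 : ‖f‖ * ‖a‖ ≤ K * ‖f.comp T‖ * ‖a‖ := mul_le_mul_of_nonneg_right (h f) hna.le
  have h6 : 0 < ‖f.comp T‖ * ‖a‖ := mul_pos hg hna
  nlinarith

end Pool.Agent.H47.SQ
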