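import Pool.Agent.H47.SQ.Khin
import Pool.Agent.H47.SQ.Base3

/-! The tree spaces `EH H`: the vector space `L H → ℝ` with a norm such that
`N H (a²) ≤ ‖a‖³ ≤ 2 N H (a²)`. -/

set_option autoImplicit false
open scoped ENNReal

namespace Pool.Agent.H47.SQ

/-- index set of the functionals defining the norm -/
def Idx : ℕ → Type
  | 0 => Unit
  | (n+1) => (Fin 16 × Idx n) ⊕ (L (n+1) → Bool)

instance instFintypeIdx : (n : ℕ) → Fintype (Idx n)
  | 0 => inferInstanceAs (Fintype Unit)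
  | (n+1) => letI := instFintypeIdx n; inferInstanceAs (Fintype ((Fin 16 × Idx n) ⊕ (L (n+1) → Bool)))

/-- weight of the sign average at level `n` -/
noncomputable def wt (n : ℕ) : ℝ := ((1/2 : ℝ) ^ n / 2 ^ Fintype.card (L n)) ^ (1/3 : ℝ)

lemma wt_nonneg (n : ℕ) : 0 ≤ wt n := by unfold wt; positivity

lemma wt_cube (n : ℕ) : wt n ^ 3 = (1/2 : ℝ) ^ n / 2 ^ Fintype.card (L n) := by
  unfold wt
  rw [← Real.rpow_natCast, ← Real.rpow_mul (by positivity)]
  norm_num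

/-- the functionals -/
noncomputable def Phi : (H : ℕ) → Idx H → (L H → ℝ) → ℝ
  | 0 => fun _ a => a ()
  | (H+1) => fun x a => Sum.elim (fun tx : Fin 16 × Idx H => Phi H tx.2 (sub a tx.1))
      (fun θ : L (H+1) → Bool => wt (H+1) * RX Finset.univ a θ)
      (x : (Fin 16 × Idx H) ⊕ (L (H+1) → Bool))

lemma RX_add {ι : Type*} [Fintype ι] [DecidableEq ι] (S : Finset ι) (a b : ι → ℝ) (θ : ι → Bool) :
    RX S (fun i => a i + b i) θ = RX S a θ + RX S b θ := by
  unfold RX; rw [← Finset.sum_add_distrib]; exact Finset.sum_congr rfl fun i _ => by ring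

lemma Phi_add : (H : ℕ) → (x : Idx H) → (a b : L H → ℝ) →
    Phi H x (fun i => a i + b i) = Phi H x a + Phi H x b
  | 0, _, _, _ => rfl
  | (H+1), x, a, b => by
    rcases (x : (Fin 16 × Idx H) ⊕ (L (H+1) → Bool)) with ⟨t, x⟩ | θ
    · exact Phi_add H x (sub a t) (sub b t)
    · show wt (H+1) * RX Finset.univ (fun i => a i + b i) θ =
        wt (H+1) * RX Finset.univ a θ + wt (H+1) * RX Finset.univ b θ
      rw [RX_add, mul_add]

lemma Phi_smul : (H : ℕ) → (x : Idx H) → (r : ℝ) → (a : L H → ℝ) →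
    Phi H x (fun i => r * a i) = r * Phi H x a
  | 0, _, _, _ => rfl
  | (H+1), x, r, a => by
    rcases (x : (Fin 16 × Idx H) ⊕ (L (H+1) → Bool)) with ⟨t, x⟩ | θ
    · exact Phi_smul H x r (sub a t)
    · show wt (H+1) * RX Finset.univ (fun i => r * a i) θ = r * (wt (H+1) * RX Finset.univ a θ)
      rw [RX_smul]; ring

/-- the cube of the norm -/
noncomputable def P (H : ℕ) (a : L H → ℝ) : ℝ := ∑ x, |Phi H x a| ^ 3

lemma P_zero (a : L 0 → ℝ) : P 0 a = |a ()| ^ 3 := by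
  show ∑ x : Unit, |Phi 0 x a| ^ 3 = _
  simp [Phi]

lemma P_succ (H : ℕ) (a : L (H+1) → ℝ) :
    P (H+1) a = ∑ t : Fin 16, P H (sub a t) + (1/2 : ℝ) ^ (H+1) * Ea (fun θ => |RX Finset.univ a θ| ^ 3) := by
  show ∑ x : (Fin 16 × Idx H) ⊕ (L (H+1) → Bool), |Phi (H+1) x a| ^ 3 = _
  rw [Fintype.sum_sum_type, Fintype.sum_prod_type]
  congr 1
  have h : ∀ θ : L (H+1) → Bool, |Phi (H+1) (Sum.inr θ : (Fin 16 × Idx H) ⊕ (L (H+1) → Bool)) a| ^ 3 =
      wt (H+1) ^ 3 * |RX Finset.univ a θ| ^ 3 := by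
    intro θ
    show |wt (H+1) * RX Finset.univ a θ| ^ 3 = _
    rw [abs_mul, abs_of_nonneg (wt_nonneg _), mul_pow]
  rw [Finset.sum_congr rfl fun θ _ => h θ, ← Finset.mul_sum, wt_cube]
  unfold Ea; ring

lemma P_bounds (H : ℕ) (a : L H → ℝ) :
    N H (fun i => a i ^ 2) ≤ P H a ∧ P H a ≤ 2 * N H (fun i => a i ^ 2) := by
  induction H with
  | zero =>
    rw [P_zero, N_zero, ← sq_abs, q_sq _ (abs_nonneg _)]
    have : 0 ≤ |a ()| ^ 3 := by positivity
    constructor <;> linarith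
  | succ n ih =>
    rw [P_succ, N_succ]
    obtain ⟨σ, hσ0, hσ⟩ : ∃ σ : ℝ, 0 ≤ σ ∧ ∑ i, a i ^ 2 = σ ^ 2 :=
      ⟨√(∑ i, a i ^ 2), Real.sqrt_nonneg _, (Real.sq_sqrt (Finset.sum_nonneg fun i _ => sq_nonneg _)).symm⟩
    have h1 := Kh3_lower Finset.univ a σ hσ0 hσ
    have h2 := Kh3_upper Finset.univ a σ hσ0 hσ
    have e : q (∑ i, a i ^ 2) = σ ^ 3 := by rw [hσ, q_sq σ hσ0]
    rw [e]
    have h3 : ∀ t : Fin 16, N n (sub (fun i => a i ^ 2) t) ≤ P n (sub a t) := fun t => (ih (sub a t)).1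
    have h4 : ∀ t : Fin 16, P n (sub a t) ≤ 2 * N n (sub (fun i => a i ^ 2) t) := fun t => (ih (sub a t)).2
    have h5 := Finset.sum_le_sum fun t (_ : t ∈ (Finset.univ : Finset (Fin 16))) => h3 t
    have h6 := Finset.sum_le_sum fun t (_ : t ∈ (Finset.univ : Finset (Fin 16))) => h4 t
    rw [← Finset.mul_sum] at h6
    have h7 : (0:ℝ) < (1/2) ^ (n+1) := by positivity
    have h8 := mul_le_mul_of_nonneg_left h1 h7.le
    have h9 := mul_le_mul_of_nonneg_left h2 h7.le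
    constructor
    · linarith
    · linarith

lemma P_eq_zero (H : ℕ) (a : L H → ℝ) (h : P H a = 0) : a = fun _ => 0 := by
  induction H with
  | zero =>
    rw [P_zero] at h
    funext i
    have h1 : |a ()| = 0 := pow_eq_zero_iff (three_ne_zero) |>.1 h
    exact abs_eq_zero.1 h1
  | succ n ih =>
    rw [P_succ] at h
    have h0 : ∀ t : Fin 16, 0 ≤ P n (sub a t) := fun t => Finset.sum_nonneg fun x _ => by positivity
    have h1 : 0 ≤ (1/2 : ℝ) ^ (n+1) * Ea (fun θ => |RX Finset.univ a θ| ^ 3) :=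
      mul_nonneg (by positivity) (Ea_nonneg fun θ => by positivity)
    have h2 := Finset.sum_nonneg fun t (_ : t ∈ (Finset.univ : Finset (Fin 16))) => h0 t
    have h3 : ∑ t : Fin 16, P n (sub a t) = 0 := by linarith
    have h4 := (Finset.sum_eq_zero_iff_of_nonneg (fun t _ => h0 t)).1 h3
    funext i
    have h5 := ih (sub a (i : Fin 16 × L n).1) (h4 _ (Finset.mem_univ _))
    exact congrFun h5 (i : Fin 16 × L n).2

/-- The tree space. -/
def EH (H : ℕ) : Type := L H → ℝ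

instance instACG (H : ℕ) : AddCommGroup (EH H) := inferInstanceAs (AddCommGroup (L H → ℝ))

instance instMod (H : ℕ) : Module ℝ (EH H) := inferInstanceAs (Module ℝ (L H → ℝ))

/-- the underlying function -/
def toF (H : ℕ) : EH H ≃ₗ[ℝ] (L H → ℝ) := LinearEquiv.refl ℝ (L H → ℝ)

/-- the functional `Phi` as a linear map -/
noncomputable def PhiL (H : ℕ) (x : Idx H) : EH H →ₗ[ℝ] ℝ where
  toFun a := Phi H x (toF H a)
  map_add' a b := Phi_add H x (toF H a) (toF H b)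
  map_smul' r a := Phi_smul H x r (toF H a)

/-- the embedding in `ℓ_3` -/
noncomputable def embL (H : ℕ) : EH H →ₗ[ℝ] PiLp 3 (fun _ : Idx H => ℝ) :=
  (WithLp.linearEquiv 3 ℝ (Idx H → ℝ)).symm.toLinearMap.comp (LinearMap.pi fun x => PhiL H x)

lemma embL_apply (H : ℕ) (a : EH H) (x : Idx H) : embL H a x = Phi H x (toF H a) := rfl

lemma norm_embL (H : ℕ) (a : EH H) : ‖embL H a‖ ^ 3 = P H (toF H a) := by
  have h3 : (3 : ℝ≥0∞).toReal = 3 := by norm_num
  rw [PiLp.norm_eq_sum (by rw [h3]; norm_num), h3]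
  have h : ∀ x, ‖embL H a x‖ ^ (3:ℝ) = |Phi H x (toF H a)| ^ 3 := by
    intro x
    rw [embL_apply, Real.norm_eq_abs]
    exact_mod_cast Real.rpow_natCast _ 3
  rw [Finset.sum_congr rfl fun x _ => h x]
  have hP : 0 ≤ ∑ x, |Phi H x (toF H a)| ^ 3 := Finset.sum_nonneg fun x _ => by positivity
  rw [← Real.rpow_natCast, ← Real.rpow_mul hP]
  norm_num
  rfl

lemma embL_inj (H : ℕ) : Function.Injective (embL H) := by
  rw [injective_iff_map_eq_zero]
  intro a ha
  have h1 := norm_embL H a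
  rw [ha, norm_zero] at h1
  have h2 := P_eq_zero H (toF H a) (by rw [← h1]; norm_num)
  exact (toF H).map_eq_zero_iff.1 h2

noncomputable instance instNACG (H : ℕ) : NormedAddCommGroup (EH H) :=
  NormedAddCommGroup.induced (EH H) (PiLp 3 (fun _ : Idx H => ℝ)) (embL H) (embL_inj H)

noncomputable instance instNS (H : ℕ) : NormedSpace ℝ (EH H) :=
  NormedSpace.induced ℝ (EH H) (PiLp 3 (fun _ : Idx H => ℝ)) (embL H)

instance instFD (H : ℕ) : FiniteDimensional ℝ (EH H) :=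
  inferInstanceAs (FiniteDimensional ℝ (L H → ℝ))

noncomputable instance instComplete (H : ℕ) : CompleteSpace (EH H) := FiniteDimensional.complete ℝ (EH H)

lemma norm_cube (H : ℕ) (a : EH H) : ‖a‖ ^ 3 = P H (toF H a) := norm_embL H a

lemma norm_cube_lower (H : ℕ) (a : EH H) : N H (fun i => toF H a i ^ 2) ≤ ‖a‖ ^ 3 := by
  rw [norm_cube]; exact (P_bounds H _).1

lemma norm_cube_upper (H : ℕ) (a : EH H) : ‖a‖ ^ 3 ≤ 2 * N H (fun i => toF H a i ^ 2) := by
  rw [norm_cube]; exact (P_bounds H _).2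

end Pool.Agent.H47.SQ
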