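import Pool.Agent.H47.SQ.PartA
import Pool.Agent.H47.SQ.EH
import Pool.Agent.H47.SQ.C3a

/-! The operators `T_H : ℓ_3 → EH H`. -/

set_option autoImplicit false
set_option linter.unusedVariables false
open scoped ENNReal

namespace Pool.Agent.H47.SQ

abbrev l3 : Type := lp (fun _ : ℕ => ℝ) 3

lemma l3_hasSum (φ : l3) : HasSum (fun k => |φ k| ^ 3) (‖φ‖ ^ 3) := by
  have h3 : (3 : ℝ≥0∞).toReal = 3 := by norm_num
  have h := lp.hasSum_norm (p := 3) (by rw [h3]; norm_num) φ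
  rw [h3] at h
  have e : ∀ x : ℝ, x ^ (3:ℝ) = x ^ 3 := fun x => by exact_mod_cast Real.rpow_natCast x 3
  simp only [e, Real.norm_eq_abs] at h
  exact h

lemma young (x y : ℝ) (hx : 0 ≤ x) (hy : 0 ≤ y) : x * y ≤ x ^ 3 / 3 + 2/3 * q y := by
  obtain ⟨z, hz, hyz⟩ : ∃ z : ℝ, 0 ≤ z ∧ y = z ^ 2 := ⟨√y, Real.sqrt_nonneg _, (Real.sq_sqrt hy).symm⟩
  rw [hyz, q_sq z hz]
  nlinarith [mul_nonneg hx (sq_nonneg (x - z)), mul_nonneg hz (sq_nonneg (x - z))]

lemma q_div_sq {y r : ℝ} (hr : 0 < r) (hy : 0 ≤ y) : q (y / r ^ 2) = q y / r ^ 3 := by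
  unfold q
  rw [Real.sqrt_div hy, Real.sqrt_sq hr.le]
  field_simp

lemma term_bound (x y r : ℝ) (hr : 0 < r) :
    |x * y| ≤ r ^ 6 / 3 * |x| ^ 3 + 2 / (3 * r ^ 3) * q |y| := by
  have h := young (r ^ 2 * |x|) (|y| / r ^ 2) (by positivity) (by positivity)
  rw [q_div_sq hr (abs_nonneg _)] at h
  have e : r ^ 2 * |x| * (|y| / r ^ 2) = |x * y| := by rw [abs_mul]; field_simp
  rw [e] at h
  refine h.trans (le_of_eq ?_)
  field_simp

lemma F1 (φ : l3) (s : ℕ → ℝ) (hs : Summable (fun k => q |s k|)) : Summable (fun k => φ k * s k) := by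
  have h1 : Summable (fun k => 1 ^ 6 / 3 * |φ k| ^ 3 + 2 / (3 * 1 ^ 3) * q |s k|) :=
    ((l3_hasSum φ).summable.mul_left _).add (hs.mul_left _)
  exact Summable.of_norm_bounded h1 (fun k => by
    rw [Real.norm_eq_abs]; exact term_bound _ _ 1 one_pos)

lemma F2 (φ : l3) (s : ℕ → ℝ) (hs : Summable (fun k => q |s k|)) {r : ℝ} (hr : 0 < r) :
    |∑' k, φ k * s k| ≤ r ^ 6 / 3 * ‖φ‖ ^ 3 + 2 / (3 * r ^ 3) * ∑' k, q |s k| := by
  have h1 : HasSum (fun k => r ^ 6 / 3 * |φ k| ^ 3 + 2 / (3 * r ^ 3) * q |s k|)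
      (r ^ 6 / 3 * ‖φ‖ ^ 3 + 2 / (3 * r ^ 3) * ∑' k, q |s k|) :=
    ((l3_hasSum φ).mul_left _).add (hs.hasSum.mul_left _)
  have h2 := tsum_of_norm_bounded h1 (f := fun k => φ k * s k) (fun k => by
    rw [Real.norm_eq_abs]; exact term_bound _ _ r hr)
  rwa [Real.norm_eq_abs] at h2

lemma F3 (s : ℕ → ℝ) (hs : Summable (fun k => q |s k|)) {D : ℝ} (hD : 0 ≤ D)
    (h : ∀ φ : l3, |∑' k, φ k * s k| ≤ D * ‖φ‖) : (∑' k, q |s k|) ^ 2 ≤ D ^ 3 := by
  -- finite version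
  have key : ∀ F : Finset ℕ, (∑ k ∈ F, q |s k|) ^ 2 ≤ D ^ 3 := by
    intro F
    obtain ⟨c, hc⟩ : ∃ c : ℕ → ℝ, c = fun k => (SignType.sign (s k) : ℝ) * √|s k| := ⟨_, rfl⟩
    obtain ⟨φ, hφ⟩ : ∃ φ : l3, φ = ∑ k ∈ F, lp.single 3 k (c k) := ⟨_, rfl⟩
    have hφk : ∀ k, φ k = if k ∈ F then c k else 0 := by
      intro k
      rw [hφ]
      simp only [lp.coeFn_sum, Finset.sum_apply, lp.coeFn_single, Finset.sum_pi_single]
    have h1 : ‖φ‖ ^ 3 = ∑ k ∈ F, q |s k| := by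
      have h2 := (l3_hasSum φ)
      have h3 : HasSum (fun k => |φ k| ^ 3) (∑ k ∈ F, q |s k|) := by
        have h4 : HasSum (fun k => |φ k| ^ 3) (∑ k ∈ F, |φ k| ^ 3) := by
          refine hasSum_sum_of_ne_finset_zero (fun k hk => ?_)
          rw [hφk, if_neg hk]; simp
        have h5 : ∑ k ∈ F, |φ k| ^ 3 = ∑ k ∈ F, q |s k| := by
          refine Finset.sum_congr rfl fun k hk => ?_
          rw [hφk, if_pos hk, hc]
          show |((SignType.sign (s k) : ℝ) * √(|s k|))| ^ 3 = q |s k|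
          rcases eq_or_ne (s k) 0 with h0 | h0
          · rw [h0]; simp [q]
          · have : |(SignType.sign (s k) : ℝ)| = 1 := by
              rcases lt_or_gt_of_ne h0 with h6 | h6
              · rw [sign_neg h6]; simp
              · rw [sign_pos h6]; simp
            rw [abs_mul, this, one_mul, abs_of_nonneg (Real.sqrt_nonneg _)]
            unfold q
            calc (√|s k|) ^ 3 = (√|s k|) ^ 2 * √|s k| := by ring
              _ = _ := by rw [Real.sq_sqrt (abs_nonneg _)]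
        rwa [h5] at h4
      exact h2.unique h3
    have h2 : ∑' k, φ k * s k = ∑ k ∈ F, q |s k| := by
      rw [tsum_eq_sum (s := F) (fun k hk => by rw [hφk, if_neg hk, zero_mul])]
      refine Finset.sum_congr rfl fun k hk => ?_
      rw [hφk, if_pos hk, hc]
      show (SignType.sign (s k) : ℝ) * √|s k| * s k = q |s k|
      have h6 : (SignType.sign (s k) : ℝ) * s k = |s k| := by
        rcases lt_trichotomy (s k) 0 with h7 | h7 | h7
        · rw [sign_neg h7, abs_of_neg h7]; simp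
        · rw [h7]; simp
        · rw [sign_pos h7, abs_of_pos h7]; simp
      unfold q
      calc _ = ((SignType.sign (s k) : ℝ) * s k) * √|s k| := by ring
        _ = _ := by rw [h6]
    obtain ⟨S, hS⟩ : ∃ S, S = ∑ k ∈ F, q |s k| := ⟨_, rfl⟩
    have hS0 : 0 ≤ S := by rw [hS]; exact Finset.sum_nonneg fun k _ => q_nonneg (abs_nonneg _)
    have h3 := h φ
    rw [h2, ← hS, abs_of_nonneg hS0] at h3
    rw [← hS] at h1 ⊢
    -- S ≤ D ‖φ‖, ‖φ‖^3 = S
    have h4 : S ^ 3 ≤ D ^ 3 * S := by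
      calc S ^ 3 ≤ (D * ‖φ‖) ^ 3 := pow_le_pow_left₀ hS0 h3 3
        _ = D ^ 3 * ‖φ‖ ^ 3 := by ring
        _ = _ := by rw [h1]
    rcases hS0.eq_or_lt with h5 | h5
    · rw [← h5]; simp; positivity
    · have h6 : S * S ^ 2 ≤ S * D ^ 3 := by nlinarith
      exact le_of_mul_le_mul_left h6 h5
  have h1 : ∑' k, q |s k| ≤ √(D ^ 3) := by
    refine hasSum_le_of_sum_le hs.hasSum fun F => ?_
    have h2 := key F
    have h3 : 0 ≤ ∑ k ∈ F, q |s k| := Finset.sum_nonneg fun k _ => q_nonneg (abs_nonneg _)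
    exact Real.le_sqrt_of_sq_le h2
  have h0 : 0 ≤ ∑' k, q |s k| := tsum_nonneg fun k => q_nonneg (abs_nonneg _)
  have h2 : (∑' k, q |s k|) ^ 2 ≤ √(D ^ 3) ^ 2 := pow_le_pow_left₀ h0 h1 2
  rwa [Real.sq_sqrt (by positivity)] at h2

/-- the operators -/
theorem ops : ∃ C : ℝ, ∀ H : ℕ, ∃ T : l3 →L[ℝ] EH H, ‖T‖ ≤ C ∧
    ∀ x : EH H, ∃ φ, T φ = x ∧ ‖φ‖ ≤ C * ‖x‖ := by
  obtain ⟨C, hC, hA⟩ := partA
  obtain ⟨r, hr0, hr⟩ := exists_cbrt (G := 4 * C / 3) (by positivity)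
  have hrpos : 0 < r := by
    rcases hr0.eq_or_lt with h | h
    · rw [← h] at hr; norm_num at hr; linarith
    · exact h
  obtain ⟨C1, hC1⟩ : ∃ C1, C1 = 64 * C ^ 2 / 27 + 1 := ⟨_, rfl⟩
  have hC10 : 1 ≤ C1 := by rw [hC1]; have := sq_nonneg C; linarith
  refine ⟨C1 + (2 * C + 1), fun H => ?_⟩
  obtain ⟨w, hW1, hW2, hW3⟩ := hA H
  -- coordinates
  have hsw : ∀ i : L H, Summable (fun k => q |w k i|) := by
    intro i
    have h := hW1 (fun j => if i = j then 1 else 0)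
    simpa using h
  obtain ⟨T1, hT1⟩ : ∃ T1 : l3 →ₗ[ℝ] (L H → ℝ), ∀ φ i, T1 φ i = ∑' k, φ k * w k i := by
    refine ⟨{ toFun := fun (φ : l3) (i : L H) => ∑' k, φ k * w k i, map_add' := fun φ ψ => ?_, map_smul' := fun c φ => ?_ }, fun φ i => rfl⟩
    · funext i
      show ∑' k, (φ + ψ) k * w k i = ∑' k, φ k * w k i + ∑' k, ψ k * w k i
      rw [← (F1 φ _ (hsw i)).tsum_add (F1 ψ _ (hsw i))]
      refine tsum_congr fun k => ?_
      rw [lp.coeFn_add, Pi.add_apply, add_mul]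
    · funext i
      show ∑' k, (c • φ) k * w k i = c * ∑' k, φ k * w k i
      rw [← tsum_mul_left]
      refine tsum_congr fun k => ?_
      rw [lp.coeFn_smul, Pi.smul_apply, smul_eq_mul, mul_assoc]
  obtain ⟨T0, hT0⟩ : ∃ T0 : l3 →ₗ[ℝ] EH H, ∀ φ i, toF H (T0 φ) i = ∑' k, φ k * w k i :=
    ⟨(toF H).symm.toLinearMap ∘ₗ T1, fun φ i => by
      show toF H ((toF H).symm (T1 φ)) i = _
      rw [LinearEquiv.apply_symm_apply, hT1]⟩
  -- the pairing
  have hpair : ∀ (φ : l3) (β : L H → ℝ), ∑ i, toF H (T0 φ) i * β i = ∑' k, φ k * ∑ i, β i * w k i := by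
    intro φ β
    have h1 : ∀ i, toF H (T0 φ) i * β i = ∑' k, φ k * w k i * β i := by
      intro i; rw [hT0, tsum_mul_right]
    rw [Finset.sum_congr rfl fun i _ => h1 i,
      ← Summable.tsum_finsetSum (fun i _ => (F1 φ _ (hsw i)).mul_right (β i))]
    refine tsum_congr fun k => ?_
    rw [Finset.mul_sum]
    exact Finset.sum_congr rfl fun i _ => by ring
  -- boundedness
  have hbd : ∀ φ : l3, ‖φ‖ ≤ 1 → ‖T0 φ‖ ≤ C1 := by
    intro φ hφ
    obtain ⟨b, hb1, hb2⟩ := hW2 (toF H (T0 φ))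
    obtain ⟨n, hn⟩ : ∃ n, n = N H (fun i => toF H (T0 φ) i ^ 2) := ⟨_, rfl⟩
    have hn0 : 0 ≤ n := by rw [hn]; exact N_nonneg fun i => sq_nonneg _
    rw [← hn] at hb1 hb2
    rw [hpair] at hb1
    have h1 := F2 φ (fun k => ∑ i, b i * w k i) (hW1 b) hrpos
    rw [hb1, abs_of_nonneg hn0] at h1
    have h2 : r ^ 6 = (4 * C / 3) ^ 2 := by rw [← hr]; ring
    rw [h2, hr] at h1
    have h3 : ‖φ‖ ^ 3 ≤ 1 := pow_le_one₀ (norm_nonneg _) hφ
    have h4 : 2 / (3 * (4 * C / 3)) * ∑' k, q |∑ i, b i * w k i| ≤ n / 2 := by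
      calc _ ≤ 2 / (3 * (4 * C / 3)) * (C * n) := mul_le_mul_of_nonneg_left hb2 (by positivity)
        _ = n / 2 := by field_simp; norm_num
    have h5 : (4 * C / 3) ^ 2 / 3 * ‖φ‖ ^ 3 ≤ (4 * C / 3) ^ 2 / 3 :=
      mul_le_of_le_one_right (by positivity) h3
    have h6 : n ≤ 32 * C ^ 2 / 27 := by nlinarith
    have h7 := norm_cube_upper H (T0 φ)
    rw [← hn] at h7
    have h8 : ‖T0 φ‖ ^ 3 ≤ C1 ^ 3 := by
      have : C1 ≤ C1 ^ 3 := le_self_pow₀ hC10 (by norm_num)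
      rw [hC1] at this ⊢
      linarith
    exact le_of_pow_le_pow_left₀ (by norm_num) (by linarith) h8
  have hbd' : ∀ φ : l3, ‖T0 φ‖ ≤ C1 * ‖φ‖ := by
    intro φ
    rcases (norm_nonneg φ).eq_or_lt with h | h
    · have : φ = 0 := norm_eq_zero.1 h.symm
      rw [this]; simp
    · have h1 := hbd (‖φ‖⁻¹ • φ) (by
        rw [norm_smul, norm_inv, norm_norm, inv_mul_cancel₀ h.ne'])
      rw [map_smul, norm_smul, norm_inv, norm_norm, inv_mul_le_iff₀ h] at h1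
      linarith
  obtain ⟨T, hT⟩ : ∃ T : l3 →L[ℝ] EH H, T = T0.mkContinuous C1 hbd' := ⟨_, rfl⟩
  have hTa : ∀ φ, T φ = T0 φ := fun φ => by rw [hT]; rfl
  have hTn : ‖T‖ ≤ C1 := by
    rw [hT]; exact LinearMap.mkContinuous_norm_le _ (by linarith) _
  -- lower bound for the adjoint
  have hadj : ∀ b : EH H →L[ℝ] ℝ, ‖b‖ ≤ 2 * C * ‖b.comp T‖ := by
    intro b
    obtain ⟨β, hβ⟩ : ∃ β : L H → ℝ, β = fun i => b ((toF H).symm (fun j => if i = j then 1 else 0)) :=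
      ⟨_, rfl⟩
    have hbx : ∀ x : EH H, b x = ∑ i, toF H x i * β i := by
      intro x
      have h1 := LinearMap.pi_apply_eq_sum_univ ((b : EH H →ₗ[ℝ] ℝ) ∘ₗ (toF H).symm.toLinearMap) (toF H x)
      have h2 : ((b : EH H →ₗ[ℝ] ℝ) ∘ₗ (toF H).symm.toLinearMap) (toF H x) = b x := by simp
      rw [h2] at h1
      rw [h1, hβ]
      rfl
    obtain ⟨D, hD⟩ : ∃ D, D = ‖b.comp T‖ := ⟨_, rfl⟩
    have hD0 : 0 ≤ D := by rw [hD]; exact norm_nonneg _
    have hF : ∀ φ : l3, |∑' k, φ k * ∑ i, β i * w k i| ≤ D * ‖φ‖ := by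
      intro φ
      have h1 := (b.comp T).le_opNorm φ
      rw [← hD] at h1
      have h2 : (b.comp T) φ = ∑' k, φ k * ∑ i, β i * w k i := by
        rw [← hpair]
        show b (T φ) = _
        rw [hTa, hbx]
      rw [h2, Real.norm_eq_abs] at h1
      exact h1
    have h3 := F3 _ (hW1 β) hD0 hF
    rw [← hD]
    -- for every D' > D
    have h4 : ∀ D' : ℝ, D < D' → ‖b‖ ≤ 2 * C * D' := by
      intro D' hD'
      have hD'0 : 0 < D' := hD0.trans_lt hD'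
      refine b.opNorm_le_of_unit_norm (by positivity) (fun x hx => ?_)
      have hx3 : N H (fun i => toF H x i ^ 2) ≤ 1 := by
        have := norm_cube_lower H x
        rw [hx] at this; simpa using this
      -- scale
      have h5 := hW3 (toF H x) (fun i => D'⁻¹ * β i)
      have h6 : ∑ i, toF H x i * (D'⁻¹ * β i) = D'⁻¹ * b x := by
        rw [hbx, Finset.mul_sum]; exact Finset.sum_congr rfl fun i _ => by ring
      have h7 : ∑' k, q |∑ i, (D'⁻¹ * β i) * w k i| ≤ 1 := by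
        have h8 : ∀ k, q |∑ i, (D'⁻¹ * β i) * w k i| = q (D'⁻¹) * q |∑ i, β i * w k i| := by
          intro k
          have : ∑ i, (D'⁻¹ * β i) * w k i = D'⁻¹ * ∑ i, β i * w k i := by
            rw [Finset.mul_sum]; exact Finset.sum_congr rfl fun i _ => by ring
          rw [this, abs_mul, abs_of_pos (inv_pos.2 hD'0), q_mul (inv_pos.2 hD'0).le]
        rw [tsum_congr h8, tsum_mul_left]
        obtain ⟨Wn, hWn⟩ : ∃ Wn, Wn = ∑' k, q |∑ i, β i * w k i| := ⟨_, rfl⟩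
        rw [← hWn] at h3 ⊢
        have hWn0 : 0 ≤ Wn := by rw [hWn]; exact tsum_nonneg fun k => q_nonneg (abs_nonneg _)
        -- (q(D'⁻¹) Wn)^2 ≤ 1
        have h9 : q (D'⁻¹) ^ 2 = (D'⁻¹) ^ 3 := by
          unfold q
          rw [mul_pow, Real.sq_sqrt (inv_pos.2 hD'0).le]; ring
        have h10 : (q (D'⁻¹) * Wn) ^ 2 ≤ 1 := by
          rw [mul_pow, h9]
          calc (D'⁻¹) ^ 3 * Wn ^ 2 ≤ (D'⁻¹) ^ 3 * D ^ 3 := mul_le_mul_of_nonneg_left h3 (by positivity)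
            _ ≤ (D'⁻¹) ^ 3 * D' ^ 3 := mul_le_mul_of_nonneg_left (pow_le_pow_left₀ hD0 hD'.le 3) (by positivity)
            _ = 1 := by rw [← mul_pow, inv_mul_cancel₀ hD'0.ne', one_pow]
        have h11 : 0 ≤ q (D'⁻¹) * Wn := mul_nonneg (q_nonneg (inv_pos.2 hD'0).le) hWn0
        nlinarith
      rw [h6, abs_mul, abs_of_pos (inv_pos.2 hD'0), inv_mul_le_iff₀ hD'0] at h5
      rw [Real.norm_eq_abs]
      have h8 : C * N H (fun i => toF H x i ^ 2) ≤ C * 1 := mul_le_mul_of_nonneg_left hx3 hC.le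
      have h9 : C * ∑' k, q |∑ i, (D'⁻¹ * β i) * w k i| ≤ C * 1 := mul_le_mul_of_nonneg_left h7 hC.le
      calc |b x| ≤ D' * (C * N H (fun i => toF H x i ^ 2) + C * ∑' k, q |∑ i, (D'⁻¹ * β i) * w k i|) := h5
        _ ≤ D' * (C * 1 + C * 1) := mul_le_mul_of_nonneg_left (add_le_add h8 h9) hD'0.le
        _ = 2 * C * D' := by ring
    refine le_of_forall_pos_le_add fun ε hε => ?_
    have h5 := h4 (D + ε / (2 * C)) (by have : 0 < ε / (2 * C) := by positivity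
                                        linarith)
    refine h5.trans (le_of_eq ?_)
    field_simp
  refine ⟨T, by linarith, fun x => ?_⟩
  obtain ⟨φ, h1, h2⟩ := lifting T (2 * C) (by positivity) hadj x
  refine ⟨φ, h1, h2.trans ?_⟩
  exact mul_le_mul_of_nonneg_right (by linarith) (norm_nonneg _)

end Pool.Agent.H47.SQ
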