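import Pool.Agent.H47.SQ.Defs

/-! Specification of part B (finite combinatorial statement). -/

set_option autoImplicit false

namespace Pool.Agent.H47.SQ

/-- `x ^ (3/4)`. -/
noncomputable def q34 (x : ℝ) : ℝ := √x * √(√x)

/-- Part B: for every `K` there is a depth `H` such that no finite system `U, V` satisfies the
upper estimates (1), (2) with constant `K` and the pairing estimate (3). -/
def PartB : Prop :=
  ∀ K : ℝ, 1 ≤ K → ∃ H : ℕ, ∀ (Ω : Type) [Fintype Ω] (U V : L H → Ω → ℝ),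
    (∀ i ω, 0 ≤ U i ω) → (∀ i ω, 0 ≤ V i ω) →
    (∀ S : Finset (L H), ∑ ω, q (∑ i ∈ S, U i ω) ≤ K * N H (fun i => if i ∈ S then 1 else 0)) →
    (∀ (S : Finset (L H)) (M : ℝ), 0 ≤ M →
        (∀ a : L H → ℝ, (∀ i, 0 ≤ a i) → (∑ i ∈ S, a i) ^ 3 ≤ M * N H (fun i => (a i) ^ 2)) →
        ∑ ω, q34 (∑ i ∈ S, V i ω) ≤ K * √M) →
    (∀ i, 1 / 2 ≤ ∑ ω, √(U i ω) * √(V i ω)) → False

end Pool.Agent.H47.SQ
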