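import Pool.Agent.H47.SQ.EH
import Pool.Agent.H47.SQ.SpecB

/-! MP_dfb345_an, part C, module C4: the `ℓ_3` sum of the tree spaces is infinite-dimensional and
not isomorphic to `ℓ_3` (from `PartB`). -/

set_option autoImplicit false
open scoped ENNReal

namespace Pool.Agent.H47.SQ

lemma toReal3 : (3 : ℝ≥0∞).toReal = (3 : ℝ) := by simp

lemma sum_cube_le (f : lp (fun _ : ℕ => ℝ) 3) (m : ℕ) :
    ∑ n : Fin m, |f n| ^ 3 ≤ ‖f‖ ^ 3 := by
  have h := lp.sum_rpow_le_norm_rpow (p := 3) (by simp) f (Finset.range m)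
  simp only [toReal3] at h
  rw [Fin.sum_univ_eq_sum_range (fun n => |f n| ^ 3) m]
  exact_mod_cast h

/-- the basis vector of the leaf `i` in `X` -/
noncomputable def psi (H : ℕ) (i : L H) : lp EH 3 :=
  lp.single 3 H ((toF H).symm (Pi.single i 1))

/-- the leaf functional -/
noncomputable def leaf (H : ℕ) (i : L H) : lp EH 3 →L[ℝ] ℝ :=
  (LinearMap.toContinuousLinearMap ((LinearMap.proj i).comp (toF H).toLinearMap)).comp
    (lp.evalCLM ℝ EH 3 H)

lemma leaf_apply (H : ℕ) (i : L H) (x : lp EH 3) : leaf H i x = toF H (x H) i := rfl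

lemma leaf_psi (H : ℕ) (i : L H) : leaf H i (psi H i) = 1 := by
  rw [leaf_apply]
  unfold psi
  rw [lp.single_apply_self, LinearEquiv.apply_symm_apply, Pi.single_eq_same]

lemma sum_psi (H : ℕ) (S : Finset (L H)) (c : L H → ℝ) :
    ∑ i ∈ S, c i • psi H i =
      lp.single 3 H ((toF H).symm (fun i => if i ∈ S then c i else 0)) := by
  have h1 : ∀ i, c i • psi H i = lp.lsingle (𝕜 := ℝ) 3 H ((toF H).symm (c i • Pi.single i 1)) := by
    intro i
    rw [map_smul, map_smul]; rfl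
  rw [Finset.sum_congr rfl fun i _ => h1 i, ← map_sum, ← map_sum]
  show lp.single 3 H _ = _
  congr 2
  funext j
  rw [Finset.sum_apply]
  simp [Pi.single_apply]

lemma norm_sum_psi (H : ℕ) (S : Finset (L H)) (θ : L H → Bool) :
    ‖∑ i ∈ S, sg (θ i) • psi H i‖ ^ 3 ≤ 2 * N H (fun i => if i ∈ S then 1 else 0) := by
  rw [sum_psi, lp.norm_single (by norm_num)]
  have h := norm_cube_upper H ((toF H).symm (fun i => if i ∈ S then sg (θ i) else 0))
  rw [LinearEquiv.apply_symm_apply] at h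
  have e : (fun i => (if i ∈ S then sg (θ i) else 0) ^ 2) = fun i => if i ∈ S then (1:ℝ) else 0 := by
    funext i
    split_ifs
    · exact sg_sq _
    · norm_num
  rw [e] at h
  exact h

lemma Ea_sum {ι κ : Type*} [Fintype ι] [DecidableEq ι] (s : Finset κ) (F : κ → (ι → Bool) → ℝ) :
    Ea (fun θ => ∑ k ∈ s, F k θ) = ∑ k ∈ s, Ea (F k) := by
  unfold Ea
  rw [Finset.sum_comm, Finset.sum_div]

lemma q_sum_sq {ι : Type*} (S : Finset ι) (c : ι → ℝ) :
    q (∑ i ∈ S, c i ^ 2) = √(∑ i ∈ S, c i ^ 2) ^ 3 := by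
  have h0 : 0 ≤ ∑ i ∈ S, c i ^ 2 := Finset.sum_nonneg fun i _ => sq_nonneg _
  have := q_sq (√(∑ i ∈ S, c i ^ 2)) (Real.sqrt_nonneg _)
  rwa [Real.sq_sqrt h0] at this

lemma est1 (e : lp EH 3 →L[ℝ] lp (fun _ : ℕ => ℝ) 3) (H m : ℕ) (S : Finset (L H)) :
    ∑ n : Fin m, q (∑ i ∈ S, (e (psi H i) n) ^ 2) ≤
      ‖e‖ ^ 3 * (2 * N H (fun i => if i ∈ S then 1 else 0)) := by
  have h1 : ∀ n : Fin m, q (∑ i ∈ S, (e (psi H i) n) ^ 2) ≤
      Ea (fun θ => |RX S (fun i => e (psi H i) n) θ| ^ 3) := by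
    intro n
    rw [q_sum_sq]
    exact Kh3_lower S _ _ (Real.sqrt_nonneg _)
      (Real.sq_sqrt (Finset.sum_nonneg fun i _ => sq_nonneg _)).symm
  refine (Finset.sum_le_sum fun n _ => h1 n).trans ?_
  rw [← Ea_sum]
  refine (Ea_mono (G := fun _ => ‖e‖ ^ 3 * (2 * N H (fun i => if i ∈ S then 1 else 0))) ?_).trans
    (Ea_const _).le
  intro θ
  have h2 : ∀ n : Fin m, RX S (fun i => e (psi H i) n) θ =
      (e (∑ i ∈ S, sg (θ i) • psi H i)) n := by
    intro n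
    rw [map_sum, lp.coeFn_sum, Finset.sum_apply]
    unfold RX
    refine Finset.sum_congr rfl fun i _ => ?_
    rw [map_smul]; rfl
  simp only [h2]
  refine (sum_cube_le _ m).trans ?_
  calc ‖e (∑ i ∈ S, sg (θ i) • psi H i)‖ ^ 3
      ≤ (‖e‖ * ‖∑ i ∈ S, sg (θ i) • psi H i‖) ^ 3 :=
        pow_le_pow_left₀ (norm_nonneg _) (e.le_opNorm _) 3
    _ = ‖e‖ ^ 3 * ‖∑ i ∈ S, sg (θ i) • psi H i‖ ^ 3 := by ring
    _ ≤ _ := mul_le_mul_of_nonneg_left (norm_sum_psi H S θ) (by positivity)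

lemma norm_sum_single3 (m : ℕ) (w : ℕ → ℝ) :
    ‖∑ n ∈ Finset.range m, (lp.single 3 n (w n) : lp (fun _ : ℕ => ℝ) 3)‖ ^ 3 =
      ∑ n ∈ Finset.range m, |w n| ^ 3 := by
  have h := lp.norm_sum_single (E := fun _ : ℕ => ℝ) (p := 3) (by simp) w (Finset.range m)
  simp only [toReal3] at h
  exact_mod_cast h

lemma est2 (g : lp (fun _ : ℕ => ℝ) 3 →L[ℝ] lp EH 3) (H m : ℕ) (S : Finset (L H)) (M : ℝ)
    (hM : 0 ≤ M)
    (h : ∀ a : L H → ℝ, (∀ i, 0 ≤ a i) → (∑ i ∈ S, a i) ^ 3 ≤ M * N H (fun i => (a i) ^ 2)) :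
    ∑ n : Fin m, q34 (∑ i ∈ S, (leaf H i (g (lp.single 3 (n : ℕ) 1))) ^ 2) ≤
      10 / 7 * √(M * ‖g‖ ^ 3) := by
  obtain ⟨v, hv⟩ : ∃ v : L H → ℕ → ℝ, ∀ i n, v i n = leaf H i (g (lp.single 3 n 1)) :=
    ⟨_, fun _ _ => rfl⟩
  simp only [← hv]
  rw [Fin.sum_univ_eq_sum_range (fun n => q34 (∑ i ∈ S, v i n ^ 2)) m]
  have h1 : ∀ n, q34 (∑ i ∈ S, v i n ^ 2) ≤
      10 / 7 * Ea (fun θ => q |RX S (fun i => v i n) θ|) := by
    intro n
    have h2 := Kh_lower S (fun i => v i n) (√(∑ i ∈ S, v i n ^ 2)) (Real.sqrt_nonneg _)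
      (Real.sq_sqrt (Finset.sum_nonneg fun i _ => sq_nonneg _)).symm
    have h3 : q34 (∑ i ∈ S, v i n ^ 2) = q √(∑ i ∈ S, v i n ^ 2) := rfl
    rw [h3]
    linarith
  refine (Finset.sum_le_sum fun n _ => h1 n).trans ?_
  rw [← Finset.mul_sum, ← Ea_sum]
  refine mul_le_mul_of_nonneg_left ?_ (by norm_num)
  refine (Ea_mono (G := fun _ => √(M * ‖g‖ ^ 3)) ?_).trans (Ea_const _).le
  intro θ
  obtain ⟨w, hw⟩ : ∃ w : ℕ → ℝ, ∀ n, w n = RX S (fun i => v i n) θ := ⟨_, fun _ => rfl⟩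
  simp only [← hw]
  obtain ⟨s, hs⟩ : ∃ s, s = ∑ n ∈ Finset.range m, q |w n| := ⟨_, rfl⟩
  rw [← hs]
  have hs0 : 0 ≤ s := hs ▸ Finset.sum_nonneg fun n _ => q_nonneg (abs_nonneg _)
  -- the test vector
  obtain ⟨c, hc⟩ : ∃ c : ℕ → ℝ, ∀ n, c n = SignType.sign (w n) * √|w n| := ⟨_, fun _ => rfl⟩
  obtain ⟨x, hx⟩ : ∃ x : lp (fun _ : ℕ => ℝ) 3, x = ∑ n ∈ Finset.range m, lp.single 3 n (c n) :=
    ⟨_, rfl⟩
  have hcw : ∀ n, c n * w n = q |w n| := by
    intro n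
    rw [hc]
    unfold q
    calc (SignType.sign (w n) : ℝ) * √|w n| * w n = (SignType.sign (w n) * w n) * √|w n| := by ring
      _ = _ := by rw [sign_mul_self]
  have hc3 : ∀ n, |c n| ^ 3 = q |w n| := by
    intro n
    by_cases h0 : w n = 0
    · rw [hc, h0]; simp [q]
    · have h4 : |c n| = √|w n| := by
        rw [hc, abs_mul, abs_of_nonneg (Real.sqrt_nonneg _)]
        have : |((SignType.sign (w n) : SignType) : ℝ)| = 1 := by
          rcases lt_or_gt_of_ne h0 with h5 | h5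
          · rw [sign_neg h5]; simp
          · rw [sign_pos h5]; simp
        rw [this, one_mul]
      rw [h4]
      unfold q
      calc √|w n| ^ 3 = √|w n| ^ 2 * √|w n| := by ring
        _ = _ := by rw [Real.sq_sqrt (abs_nonneg _)]
  have hxn : ‖x‖ ^ 3 = s := by
    rw [hx, norm_sum_single3, hs]
    exact Finset.sum_congr rfl fun n _ => hc3 n
  -- the functional
  have hVx : ∑ i ∈ S, sg (θ i) * leaf H i (g x) = s := by
    have h4 : ∀ i, leaf H i (g x) = ∑ n ∈ Finset.range m, c n * v i n := by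
      intro i
      rw [hx, map_sum, map_sum]
      refine Finset.sum_congr rfl fun n _ => ?_
      have h5 : (lp.single 3 n (c n) : lp (fun _ : ℕ => ℝ) 3) = c n • lp.single 3 n 1 := by
        rw [← lp.single_smul, smul_eq_mul, mul_one]
      rw [h5, map_smul, map_smul, hv, smul_eq_mul]
    simp only [h4, Finset.mul_sum]
    rw [Finset.sum_comm, hs]
    refine Finset.sum_congr rfl fun n _ => ?_
    rw [← hcw, hw]
    unfold RX
    rw [Finset.mul_sum]
    exact Finset.sum_congr rfl fun i _ => by ring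
  have h6 : s ≤ ∑ i ∈ S, |leaf H i (g x)| := by
    rw [← hVx]
    refine Finset.sum_le_sum fun i _ => ?_
    calc sg (θ i) * leaf H i (g x) ≤ |sg (θ i) * leaf H i (g x)| := le_abs_self _
      _ = _ := by rw [abs_mul, abs_sg, one_mul]
  have h7 : s ^ 3 ≤ M * ‖g‖ ^ 3 * s := by
    calc s ^ 3 ≤ (∑ i ∈ S, |leaf H i (g x)|) ^ 3 := pow_le_pow_left₀ hs0 h6 3
      _ ≤ M * N H (fun i => |leaf H i (g x)| ^ 2) := h _ fun i => abs_nonneg _
      _ = M * N H (fun i => toF H ((g x) H) i ^ 2) := by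
          simp only [sq_abs, leaf_apply]
      _ ≤ M * ‖(g x) H‖ ^ 3 := mul_le_mul_of_nonneg_left (norm_cube_lower H _) hM
      _ ≤ M * ‖g x‖ ^ 3 := mul_le_mul_of_nonneg_left
          (pow_le_pow_left₀ (norm_nonneg _) (lp.norm_apply_le_norm (by norm_num) _ _) 3) hM
      _ ≤ M * (‖g‖ * ‖x‖) ^ 3 := mul_le_mul_of_nonneg_left
          (pow_le_pow_left₀ (norm_nonneg _) (g.le_opNorm _) 3) hM
      _ = M * ‖g‖ ^ 3 * ‖x‖ ^ 3 := by ring
      _ = _ := by rw [hxn]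
  apply Real.le_sqrt_of_sq_le
  rcases hs0.eq_or_lt with h8 | h8
  · rw [← h8]
    have : 0 ≤ M * ‖g‖ ^ 3 := by positivity
    simpa using this
  · have h9 : s * s ^ 2 ≤ s * (M * ‖g‖ ^ 3) := by nlinarith
    exact le_of_mul_le_mul_left h9 h8

theorem nonIso (hB : PartB) : IsEmpty (lp EH 3 ≃L[ℝ] lp (fun _ : ℕ => ℝ) 3) := by
  refine ⟨fun E => ?_⟩
  obtain ⟨e, he⟩ : ∃ e : lp EH 3 →L[ℝ] lp (fun _ : ℕ => ℝ) 3, ∀ x, e x = E x :=
    ⟨E.toContinuousLinearMap, fun _ => rfl⟩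
  obtain ⟨g, hg⟩ : ∃ g : lp (fun _ : ℕ => ℝ) 3 →L[ℝ] lp EH 3, ∀ x, g x = E.symm x :=
    ⟨E.symm.toContinuousLinearMap, fun _ => rfl⟩
  have hge : ∀ x, g (e x) = x := fun x => by rw [hg, he, E.symm_apply_apply]
  obtain ⟨K, hK⟩ : ∃ K : ℝ, K = 1 + ‖e‖ ^ 3 * 2 + 10 / 7 * √(‖g‖ ^ 3) := ⟨_, rfl⟩
  have hK1 : 1 ≤ K := by
    rw [hK]
    have h1 : 0 ≤ ‖e‖ ^ 3 * 2 := by positivity
    have h2 : 0 ≤ 10 / 7 * √(‖g‖ ^ 3) := by positivity
    linarith
  obtain ⟨H, hH⟩ := hB K hK1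
  -- choice of the truncation
  have hpair : ∀ i : L H, ∀ᶠ m in Filter.atTop,
      (1:ℝ) / 2 ≤ ∑ n ∈ Finset.range m, e (psi H i) n * leaf H i (g (lp.single 3 n 1)) := by
    intro i
    have h1 := lp.hasSum_single (p := 3) (by norm_num) (e (psi H i))
    have h2 := ((leaf H i).comp g).hasSum h1
    have h3 : ((leaf H i).comp g) (e (psi H i)) = 1 := by
      rw [ContinuousLinearMap.comp_apply, hge, leaf_psi]
    rw [h3] at h2
    have h4 : (fun n : ℕ => ((leaf H i).comp g) (lp.single 3 n (e (psi H i) n))) =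
        fun n : ℕ => e (psi H i) n * leaf H i (g (lp.single 3 n 1)) := by
      funext n
      have h5 : (lp.single 3 n (e (psi H i) n) : lp (fun _ : ℕ => ℝ) 3) =
          (e (psi H i) n) • lp.single 3 n 1 := by
        rw [← lp.single_smul, smul_eq_mul, mul_one]
      rw [ContinuousLinearMap.comp_apply, h5, map_smul, map_smul, smul_eq_mul]
    rw [h4] at h2
    exact (h2.tendsto_sum_nat).eventually (eventually_ge_nhds (by norm_num))
  obtain ⟨m, hm⟩ := (Filter.eventually_all.2 hpair).exists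
  refine hH (Fin m) (fun i n => (e (psi H i) n) ^ 2)
    (fun i n => (leaf H i (g (lp.single 3 (n : ℕ) 1))) ^ 2)
    (fun i n => sq_nonneg _) (fun i n => sq_nonneg _) ?_ ?_ ?_
  · intro S
    refine (est1 e H m S).trans ?_
    have h0 : 0 ≤ N H (fun i => if i ∈ S then 1 else 0) := N_nonneg fun i => by
      show (0:ℝ) ≤ if i ∈ S then 1 else 0
      split_ifs <;> norm_num
    have h1 : ‖e‖ ^ 3 * 2 ≤ K := by
      rw [hK]
      have h2 : 0 ≤ 10 / 7 * √(‖g‖ ^ 3) := by positivity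
      linarith
    rw [← mul_assoc]
    exact mul_le_mul_of_nonneg_right h1 h0
  · intro S M hM h
    refine (est2 g H m S M hM h).trans ?_
    rw [Real.sqrt_mul hM]
    have h1 : 10 / 7 * √(‖g‖ ^ 3) ≤ K := by
      rw [hK]
      have h2 : 0 ≤ ‖e‖ ^ 3 * 2 := by positivity
      linarith
    have h3 := mul_le_mul_of_nonneg_right h1 (Real.sqrt_nonneg M)
    linarith
  · intro i
    simp only [Real.sqrt_sq_eq_abs]
    rw [Fin.sum_univ_eq_sum_range
      (fun n => |e (psi H i) n| * |leaf H i (g (lp.single 3 n 1))|) m]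
    refine (hm i).trans (Finset.sum_le_sum fun n _ => ?_)
    rw [← abs_mul]
    exact le_abs_self _

/-- (the map `EH H → X`, `a ↦ lp.single 3 H a` is linear and injective, and `finrank (EH H) = 16^H`) -/
theorem infdim : ¬ FiniteDimensional ℝ (lp EH 3) := by
  intro hfd
  have h : ∀ H : ℕ, 16 ^ H ≤ Module.finrank ℝ (lp EH 3) := by
    intro H
    have h1 : Function.Injective (lp.lsingle (𝕜 := ℝ) (E := EH) 3 H) := by
      intro a b hab
      have h2 := congrArg (fun x : lp EH 3 => x H) hab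
      simp only [lp.lsingle_apply, lp.single_apply_self] at h2
      exact h2
    have h2 := LinearMap.finrank_le_finrank_of_injective h1
    have h3 : Module.finrank ℝ (EH H) = 16 ^ H := by
      rw [(toF H).finrank_eq, Module.finrank_fintype_fun_eq_card, card_L]
    rwa [h3] at h2
  have h4 := h (Module.finrank ℝ (lp EH 3))
  have h5 : Module.finrank ℝ (lp EH 3) < 16 ^ (Module.finrank ℝ (lp EH 3)) :=
    Nat.lt_pow_self (by norm_num)
  omega

end Pool.Agent.H47.SQ
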