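import Mathlib

/-!
# Tree spaces (MP_dfb345_an)

Leaves of the 16-ary tree of depth `H`, and the functional `N` whose cube root (at `a ^ 2`) is
the norm of the tree space `E_H`.
-/

set_option autoImplicit false

namespace Pool.Agent.H47.SQ

/-- Leaves of the 16-ary tree of depth `H`. -/
def L : ℕ → Type
  | 0 => Unit
  | (n+1) => Fin 16 × L n

instance instFintypeL : (n : ℕ) → Fintype (L n)
  | 0 => inferInstanceAs (Fintype Unit)
  | (n+1) => letI := instFintypeL n; inferInstanceAs (Fintype (Fin 16 × L n))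

instance instDecidableEqL : (n : ℕ) → DecidableEq (L n)
  | 0 => inferInstanceAs (DecidableEq Unit)
  | (n+1) => letI := instDecidableEqL n; inferInstanceAs (DecidableEq (Fin 16 × L n))

instance instNonemptyL : (n : ℕ) → Nonempty (L n)
  | 0 => inferInstanceAs (Nonempty Unit)
  | (n+1) => letI := instNonemptyL n; inferInstanceAs (Nonempty (Fin 16 × L n))

/-- `x ^ (3/2)`. -/
noncomputable def q (x : ℝ) : ℝ := x * √x

/-- Restriction of a function on leaves to the subtree of the `t`-th child of the root. -/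
def sub {H : ℕ} {β : Type*} (f : L (H+1) → β) (t : Fin 16) : L H → β := fun i => f (t, i)

@[simp] lemma sub_apply {H : ℕ} {β : Type*} (f : L (H+1) → β) (t : Fin 16) (i : L H) :
    sub f t i = f (t, i) := rfl

/-- The functional `N`: sum over all nodes `J` (of level `l`) of `2^{-l} (∑_{i ∈ J} c_i)^{3/2}`. -/
noncomputable def N : (H : ℕ) → (L H → ℝ) → ℝ
  | 0, c => q (c ())
  | (H+1), c => ∑ t : Fin 16, N H (sub c t) + (1/2 : ℝ)^(H+1) * q (∑ i, c i)

lemma N_zero (c : L 0 → ℝ) : N 0 c = q (c ()) := rfl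

lemma N_succ (H : ℕ) (c : L (H+1) → ℝ) :
    N (H+1) c = ∑ t : Fin 16, N H (sub c t) + (1/2 : ℝ)^(H+1) * q (∑ i, c i) := rfl

lemma sum_L_zero {β : Type*} [AddCommMonoid β] (f : L 0 → β) : ∑ i, f i = f () := by
  show ∑ i : Unit, f i = f ()
  simp

lemma sum_L_succ {H : ℕ} {β : Type*} [AddCommMonoid β] (f : L (H+1) → β) :
    ∑ i, f i = ∑ t : Fin 16, ∑ i, sub f t i := by
  show ∑ i : Fin 16 × L H, f i = _
  rw [Fintype.sum_prod_type]
  rfl

lemma card_L (H : ℕ) : Fintype.card (L H) = 16 ^ H := by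
  induction H with
  | zero => rfl
  | succ n ih =>
    show Fintype.card (Fin 16 × L n) = _
    rw [Fintype.card_prod, ih, Fintype.card_fin, pow_succ, mul_comm]

end Pool.Agent.H47.SQ
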