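import Pool.Agent.H47.SQ.EH

/-! The norming functionals indexed by `ℕ`. -/

set_option autoImplicit false
open scoped ENNReal

namespace Pool.Agent.H47.SQ

lemma phi_exists (H : ℕ) : ∃ φ : ℕ → (EH H →ₗ[ℝ] ℝ), ∀ x : EH H,
    HasSum (fun n => |φ n x| ^ 3) (‖x‖ ^ 3) := by
  obtain ⟨e, he⟩ := exists_injective_nat (Idx H)
  obtain ⟨φ, hφ⟩ : ∃ φ : ℕ → (EH H →ₗ[ℝ] ℝ), φ = Function.extend e (PhiL H) (fun _ => 0) := ⟨_, rfl⟩
  refine ⟨φ, fun x => ?_⟩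
  have h1 := he.hasSum_iff (f := fun n => |φ n x| ^ 3) (a := ‖x‖ ^ 3) (fun k hk => by
    have : φ k = 0 := by
      rw [hφ]
      exact Function.extend_apply' _ _ _ (fun ⟨x, hx⟩ => hk ⟨x, hx⟩)
    rw [this]; simp)
  rw [← h1]
  have h2 : ((fun n => |φ n x| ^ 3) ∘ e) = fun j => |Phi H j (toF H x)| ^ 3 := by
    funext j
    show |φ (e j) x| ^ 3 = _
    rw [hφ, he.extend_apply]; rfl
  rw [h2, norm_cube]
  exact hasSum_fintype _

end Pool.Agent.H47.SQ
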