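import Pool.Agent.H47.SQ.Zsum

/-! The critical offspring law and its bounds `T 4 ≤ g ≤ T (1/24)`. -/

set_option autoImplicit false

namespace Pool.Agent.H47.SQ

/-- weights of the offspring law -/
noncomputable def pw : ℕ → ℝ
  | 0 => 3/7
  | 1 => 1/2
  | (j+2) => 1/2 * (1/8) ^ (j+1)

/-- offspring numbers -/
def ex : ℕ → ℕ
  | 0 => 0
  | 1 => 1
  | (j+2) => 4 ^ (j+1)

lemma pw_nonneg (j : ℕ) : 0 ≤ pw j := by
  match j with
  | 0 => norm_num [pw]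
  | 1 => norm_num [pw]
  | (j+2) => unfold pw; positivity

lemma hasSum_pw : HasSum pw 1 := by
  have h : HasSum (fun j : ℕ => pw (j + 2)) (1/14) := by
    have h1 := (hasSum_geometric_of_lt_one (r := (1/8:ℝ)) (by norm_num) (by norm_num)).mul_left (1/16:ℝ)
    have e : (fun j : ℕ => pw (j+2)) = fun j => (1/16:ℝ) * (1/8) ^ j := by
      funext j; simp only [pw, pow_succ]; ring
    rw [e]
    have e2 : (1/16:ℝ) * (1 - 1/8)⁻¹ = 1/14 := by norm_num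
    rwa [e2] at h1
  have h2 := (hasSum_nat_add_iff (f := pw) (g := 1/14) 2).1 h
  have e : (1/14 : ℝ) + ∑ i ∈ Finset.range 2, pw i = 1 := by
    rw [Finset.sum_range_succ, Finset.sum_range_succ, Finset.sum_range_zero]
    simp only [pw]; norm_num
  rwa [e] at h2

lemma hasSum_pw_ex : HasSum (fun j => pw j * (ex j : ℝ)) 1 := by
  have h : HasSum (fun j : ℕ => pw (j + 2) * (ex (j+2) : ℝ)) (1/2) := by
    have h1 := (hasSum_geometric_two).mul_left (1/4:ℝ)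
    have e : (fun j : ℕ => pw (j+2) * (ex (j+2) : ℝ)) = fun j => (1/4:ℝ) * (1/2) ^ j := by
      funext j; simp only [pw, ex]; push_cast
      rw [mul_assoc, ← mul_pow, pow_succ]; norm_num; ring
    rw [e]
    have e2 : (1/4:ℝ) * 2 = 1/2 := by norm_num
    rwa [e2] at h1
  have h2 := (hasSum_nat_add_iff (f := fun j => pw j * (ex j : ℝ)) (g := 1/2) 2).1 h
  have e : (1/2 : ℝ) + ∑ i ∈ Finset.range 2, pw i * (ex i : ℝ) = 1 := by
    rw [Finset.sum_range_succ, Finset.sum_range_succ, Finset.sum_range_zero]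
    simp only [pw, ex]; norm_num
  rwa [e] at h2

/-- generating function -/
noncomputable def gen (z : ℝ) : ℝ := ∑' j, pw j * z ^ ex j

lemma summable_gen {z : ℝ} (h0 : 0 ≤ z) (h1 : z ≤ 1) : Summable (fun j => pw j * z ^ ex j) := by
  refine Summable.of_nonneg_of_le (fun j => mul_nonneg (pw_nonneg j) (pow_nonneg h0 _)) (fun j => ?_)
    hasSum_pw.summable
  exact mul_le_of_le_one_right (pw_nonneg j) (pow_le_one₀ h0 h1)

lemma hasSum_gen {z : ℝ} (h0 : 0 ≤ z) (h1 : z ≤ 1) : HasSum (fun j => pw j * z ^ ex j) (gen z) :=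
  (summable_gen h0 h1).hasSum

noncomputable def g (x : ℝ) : ℝ := 1 - gen (1 - x)

lemma gen_mono {z w : ℝ} (h0 : 0 ≤ z) (h1 : z ≤ w) (h2 : w ≤ 1) : gen z ≤ gen w :=
  hasSum_le (fun j => mul_le_mul_of_nonneg_left (pow_le_pow_left₀ h0 h1 _) (pw_nonneg j))
    (hasSum_gen h0 (h1.trans h2)) (hasSum_gen (h0.trans h1) h2)

lemma gen_nonneg {z : ℝ} (h0 : 0 ≤ z) (h1 : z ≤ 1) : 0 ≤ gen z :=
  (hasSum_gen h0 h1).nonneg fun j => mul_nonneg (pw_nonneg j) (pow_nonneg h0 _)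

lemma gen_le_one {z : ℝ} (h0 : 0 ≤ z) (h1 : z ≤ 1) : gen z ≤ 1 :=
  hasSum_le (fun j => mul_le_of_le_one_right (pw_nonneg j) (pow_le_one₀ h0 h1))
    (hasSum_gen h0 h1) hasSum_pw

lemma g_nonneg {x : ℝ} (h0 : 0 ≤ x) (h1 : x ≤ 1) : 0 ≤ g x := by
  have := gen_le_one (z := 1 - x) (by linarith) (by linarith)
  unfold g; linarith

lemma g_le_one {x : ℝ} (h0 : 0 ≤ x) (h1 : x ≤ 1) : g x ≤ 1 := by
  have := gen_nonneg (z := 1 - x) (by linarith) (by linarith)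
  unfold g; linarith

lemma g_mono {x y : ℝ} (h0 : 0 ≤ x) (h1 : x ≤ y) (h2 : y ≤ 1) : g x ≤ g y := by
  have := gen_mono (z := 1 - y) (w := 1 - x) (by linarith) (by linarith) (by linarith)
  unfold g; linarith

/-- the defect `x - g x` as a series -/
lemma hasSum_defect {x : ℝ} (h0 : 0 ≤ x) (h1 : x ≤ 1) :
    HasSum (fun j => pw j * ((ex j : ℝ) * x - 1 + (1 - x) ^ ex j)) (x - g x) := by
  have ha := hasSum_pw_ex.mul_right x
  have hb := hasSum_pw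
  have hc := hasSum_gen (z := 1 - x) (by linarith) (by linarith)
  have hd := (ha.sub hb).add hc
  have e : (fun j => pw j * ((ex j : ℝ) * x - 1 + (1 - x) ^ ex j)) =
      fun j => pw j * (ex j : ℝ) * x - pw j + pw j * (1 - x) ^ ex j := by
    funext j; ring
  have e2 : x - g x = 1 * x - 1 + gen (1 - x) := by unfold g; ring
  rw [e, e2]
  exact hd

lemma psi_nonneg {x : ℝ} (h0 : 0 ≤ x) (h1 : x ≤ 1) (n : ℕ) : 0 ≤ (n : ℝ) * x - 1 + (1 - x) ^ n := by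
  have := one_add_mul_le_pow (a := -x) (by linarith) n
  have e : 1 + -x = 1 - x := by ring
  rw [e] at this
  linarith

lemma psi_le_mul {x : ℝ} (h0 : 0 ≤ x) (h1 : x ≤ 1) (n : ℕ) :
    (n : ℝ) * x - 1 + (1 - x) ^ n ≤ n * x := by
  have := pow_le_one₀ (n := n) (a := 1 - x) (by linarith) (by linarith)
  linarith

lemma psi_le_sq {x : ℝ} (h0 : 0 ≤ x) (h1 : x ≤ 1) (n : ℕ) :
    (n : ℝ) * x - 1 + (1 - x) ^ n ≤ (n * x) ^ 2 := by
  induction n with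
  | zero => simp
  | succ n ih =>
    push_cast
    have h3 := psi_nonneg h0 h1 n
    have : (1 - x) ^ (n+1) = (1 - x) ^ n - x * (1 - x) ^ n := by ring
    rw [this]
    have hn : (0:ℝ) ≤ n := Nat.cast_nonneg n
    have h4 : x * ((n:ℝ) * x - 1 + (1 - x) ^ n) ≥ 0 := mul_nonneg h0 h3
    nlinarith [mul_nonneg hn (mul_nonneg h0 h0), mul_nonneg h0 h0]

lemma g_le_self {x : ℝ} (h0 : 0 ≤ x) (h1 : x ≤ 1) : g x ≤ x := by
  have := (hasSum_defect h0 h1).nonneg fun j => mul_nonneg (pw_nonneg j) (psi_nonneg h0 h1 _)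
  linarith

lemma half_le_g {x : ℝ} (h0 : 0 ≤ x) (h1 : x ≤ 1) : x / 2 ≤ g x := by
  have ha := hasSum_pw
  have hc := hasSum_gen (z := 1 - x) (by linarith) (by linarith)
  have hd := ha.sub hc
  have h2 := le_hasSum hd 1 (fun j _ => by
    have := pow_le_one₀ (n := ex j) (a := 1 - x) (by linarith) (by linarith)
    nlinarith [pw_nonneg j])
  have e : pw 1 - pw 1 * (1 - x) ^ ex 1 = x / 2 := by simp only [pw, ex]; ring
  rw [e] at h2
  exact h2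

lemma defect_ge {x : ℝ} (h0 : 0 ≤ x) (h1 : x ≤ 1) : x * √x / 12 ≤ x - g x := by
  rcases h0.eq_or_lt with h | hx
  · subst h
    have := g_le_self (x := 0) le_rfl (by norm_num)
    simpa using this
  obtain ⟨n, hn1, hn2⟩ := exists_nat_pow_near (x := 2 / x) (y := 4)
    (by rw [le_div_iff₀ hx]; linarith) (by norm_num)
  have h2 := le_hasSum (hasSum_defect h0 h1) (n+2) (fun j _ =>
    mul_nonneg (pw_nonneg j) (psi_nonneg h0 h1 _))
  refine le_trans ?_ h2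
  have e1 : pw (n+2) = 1/2 * (1/8) ^ (n+1) := rfl
  have e2 : ((ex (n+2) : ℕ) : ℝ) = 4 ^ (n+1) := by simp [ex]
  rw [e1, e2]
  have h3 : 2 ≤ 4 ^ (n+1) * x := by
    rw [div_lt_iff₀ hx] at hn2; linarith
  have h4 : 4 ^ (n+1) * x ≤ 8 := by
    rw [le_div_iff₀ hx] at hn1; rw [pow_succ]; linarith
  obtain ⟨s, hs, hxs⟩ : ∃ s : ℝ, 0 ≤ s ∧ x = s ^ 2 := ⟨√x, Real.sqrt_nonneg x, (Real.sq_sqrt h0).symm⟩
  have hsx : √x = s := by rw [hxs, Real.sqrt_sq hs]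
  rw [hsx]
  have h5 : (2:ℝ) ^ (n+1) * s ≤ 3 := by
    have e : (4:ℝ) ^ (n+1) * x = ((2:ℝ) ^ (n+1) * s) ^ 2 := by
      rw [hxs, mul_pow, ← pow_mul, mul_comm (n+1) 2, pow_mul]; norm_num
    rw [e] at h4
    nlinarith
  have h6 : 0 ≤ (1 - x) ^ ex (n+2) := pow_nonneg (by linarith) _
  have h7 : (1/8 : ℝ) ^ (n+1) * 4 ^ (n+1) = (1/2)^(n+1) := by
    rw [← mul_pow]; norm_num
  have h8 : s / 3 ≤ (1/2 : ℝ) ^ (n+1) := by
    have : (1/2 : ℝ) ^ (n+1) * 2 ^ (n+1) = 1 := by rw [← mul_pow]; norm_num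
    have h9 : (0:ℝ) < (1/2) ^ (n+1) := by positivity
    nlinarith [mul_le_mul_of_nonneg_left h5 h9.le]
  have h10 : (0:ℝ) < (1/8) ^ (n+1) := by positivity
  have h11 : x * s / 12 ≤ 1/4 * ((1/2:ℝ) ^ (n+1) * x) := by
    nlinarith [mul_le_mul_of_nonneg_right h8 h0]
  have h12 : 1/4 * ((1/2:ℝ) ^ (n+1) * x) = 1/2 * (1/8:ℝ)^(n+1) * (4 ^ (n+1) * x / 2) := by
    rw [← h7]; ring
  rw [h12] at h11
  refine h11.trans (mul_le_mul_of_nonneg_left ?_ (by positivity))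
  linarith

lemma defect_term_le {x : ℝ} (h0 : 0 < x) (h1 : x ≤ 1) (j : ℕ) :
    pw j * ((ex j : ℝ) * x - 1 + (1 - x) ^ ex j) ≤
      (x * √x / 2) * min ((2:ℝ) ^ ((j:ℤ) - 1) * √x) (1 / ((2:ℝ) ^ ((j:ℤ) - 1) * √x)) := by
  have hs : 0 < √x := Real.sqrt_pos.2 h0
  have hpos : 0 ≤ (x * √x / 2) * min ((2:ℝ) ^ ((j:ℤ) - 1) * √x) (1 / ((2:ℝ) ^ ((j:ℤ) - 1) * √x)) := by
    positivity
  match j with
  | 0 => simp only [pw, ex] at *; simpa using hpos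
  | 1 => simp only [pw, ex] at *; simpa using hpos
  | (j+2) =>
    have e0 : (((j+2 : ℕ) : ℤ) - 1) = ((j+1 : ℕ) : ℤ) := by push_cast; ring
    rw [e0, zpow_natCast]
    have e1 : pw (j+2) = 1/2 * (1/8) ^ (j+1) := rfl
    have e2 : ((ex (j+2) : ℕ) : ℝ) = 4 ^ (j+1) := by simp [ex]
    have hp1 := psi_le_mul h0.le h1 (ex (j+2))
    have hp2 := psi_le_sq h0.le h1 (ex (j+2))
    rw [e2] at hp1 hp2 ⊢
    rw [e1]
    obtain ⟨s, hs, hxs⟩ : ∃ s : ℝ, 0 < s ∧ x = s ^ 2 := ⟨√x, hs, (Real.sq_sqrt h0.le).symm⟩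
    have hsx : √x = s := by rw [hxs, Real.sqrt_sq hs.le]
    rw [hsx]
    obtain ⟨ψ, hψ⟩ : ∃ ψ, ψ = (4:ℝ) ^ (j+1) * x - 1 + (1 - x) ^ ex (j+2) := ⟨_, rfl⟩
    rw [← hψ] at hp1 hp2 ⊢
    have h8 : (0:ℝ) < (1/8) ^ (j+1) := by positivity
    have h2 : (0:ℝ) < 2 ^ (j+1) := by positivity
    have e4 : (4:ℝ) ^ (j+1) = (2 ^ (j+1)) ^ 2 := by
      rw [← pow_mul, mul_comm (j+1) 2, pow_mul]; norm_num
    have e8 : (1/8:ℝ) ^ (j+1) = 1 / (2 ^ (j+1)) ^ 3 := by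
      rw [← pow_mul, mul_comm (j+1) 3, pow_mul, div_pow, one_pow]; norm_num
    rw [e4] at hp1 hp2
    rw [e8]
    obtain ⟨P, hP⟩ : ∃ P : ℝ, P = 2 ^ (j+1) := ⟨_, rfl⟩
    rw [← hP] at h2 hp1 hp2 ⊢
    rw [mul_min_of_nonneg _ _ (by positivity)]
    refine le_min ?_ ?_
    · calc 1/2 * (1 / P ^ 3) * ψ ≤ 1/2 * (1/P^3) * (P ^ 2 * x) ^ 2 :=
            mul_le_mul_of_nonneg_left hp2 (by positivity)
        _ = x * s / 2 * (P * s) := by rw [hxs]; field_simp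
    · calc 1/2 * (1 / P ^ 3) * ψ ≤ 1/2 * (1/P^3) * (P ^ 2 * x) :=
            mul_le_mul_of_nonneg_left hp1 (by positivity)
        _ = x * s / 2 * (1 / (P * s)) := by field_simp

lemma defect_le {x : ℝ} (h0 : 0 ≤ x) (h1 : x ≤ 1) : x - g x ≤ 3 * (x * √x) := by
  rcases h0.eq_or_lt with h | hx
  · subst h
    have := half_le_g (x := 0) le_rfl (by norm_num)
    simp at this ⊢; exact this
  refine hasSum_le_of_sum_le (hasSum_defect h0 h1) fun S => ?_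
  have h2 := Finset.sum_le_sum fun j (_ : j ∈ S) => defect_term_le hx h1 j
  refine h2.trans ?_
  rw [← Finset.mul_sum]
  have hinj : Function.Injective (fun j : ℕ => (j : ℤ) - 1) := by
    intro a b hab
    have : (a:ℤ) - 1 = (b:ℤ) - 1 := hab
    omega
  have h3 := Zsum (S.map ⟨fun j : ℕ => (j : ℤ) - 1, hinj⟩) (b := √x) (Real.sqrt_pos.2 hx)
  rw [Finset.sum_map] at h3
  have h4 : 0 ≤ x * √x / 2 := by positivity
  have h5 := mul_le_mul_of_nonneg_left h3 h4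
  simp only [Function.Embedding.coeFn_mk] at h5
  linarith

lemma g_le_T {x : ℝ} (h0 : 0 ≤ x) (h1 : x ≤ 1) : g x ≤ T (1/24) x := by
  have h := defect_ge h0 h1
  obtain ⟨s, hs, hxs⟩ : ∃ s : ℝ, 0 ≤ s ∧ x = s ^ 2 := ⟨√x, Real.sqrt_nonneg x, (Real.sq_sqrt h0).symm⟩
  have hsx : √x = s := by rw [hxs, Real.sqrt_sq hs]
  unfold T
  rw [hsx] at h ⊢
  rw [le_div_iff₀ (by positivity)]
  have h2 : g x ≤ x * (1 - s / 12) := by linarith
  have h3 : (1 - s/12) * (1 + 1/24 * s) ^ 2 ≤ 1 := by nlinarith [mul_nonneg hs hs, mul_nonneg (mul_nonneg hs hs) hs]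
  calc g x * (1 + 1/24 * s) ^ 2 ≤ x * (1 - s/12) * (1 + 1/24 * s) ^ 2 :=
        mul_le_mul_of_nonneg_right h2 (by positivity)
    _ = x * ((1 - s/12) * (1 + 1/24 * s) ^ 2) := by ring
    _ ≤ x * 1 := mul_le_mul_of_nonneg_left h3 h0
    _ = x := mul_one x

lemma T_le_g {x : ℝ} (h0 : 0 ≤ x) (h1 : x ≤ 1) : T 4 x ≤ g x := by
  have h := defect_le h0 h1
  have h' := half_le_g h0 h1
  obtain ⟨s, hs, hxs⟩ : ∃ s : ℝ, 0 ≤ s ∧ x = s ^ 2 := ⟨√x, Real.sqrt_nonneg x, (Real.sq_sqrt h0).symm⟩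
  have hsx : √x = s := by rw [hxs, Real.sqrt_sq hs]
  unfold T
  rw [hsx] at h ⊢
  rw [div_le_iff₀ (by positivity)]
  rcases le_or_gt s (1/4) with h2 | h2
  · have h3 : 1 ≤ (1 - 3 * s) * (1 + 4 * s) ^ 2 := by nlinarith [mul_nonneg hs hs]
    have h4 : x * (1 - 3 * s) ≤ g x := by linarith
    calc x = x * 1 := (mul_one x).symm
      _ ≤ x * ((1 - 3 * s) * (1 + 4 * s) ^ 2) := mul_le_mul_of_nonneg_left h3 h0
      _ = x * (1 - 3 * s) * (1 + 4 * s) ^ 2 := by ring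
      _ ≤ g x * (1 + 4 * s) ^ 2 := mul_le_mul_of_nonneg_right h4 (by positivity)
  · calc x ≤ x / 2 * (1 + 4 * s) ^ 2 := by nlinarith [mul_nonneg h0 hs]
      _ ≤ g x * (1 + 4 * s) ^ 2 := mul_le_mul_of_nonneg_right h' (by positivity)

lemma g_iter_bounds {x : ℝ} (h0 : 0 ≤ x) (h1 : x ≤ 1) (n : ℕ) :
    0 ≤ g^[n] x ∧ g^[n] x ≤ 1 ∧ T (4 * n) x ≤ g^[n] x ∧ g^[n] x ≤ T (n / 24) x := by
  induction n with
  | zero => simp [T_zero_left, h0, h1]
  | succ n ih =>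
    obtain ⟨i0, i1, i2, i3⟩ := ih
    rw [Function.iterate_succ_apply']
    have hn : (0:ℝ) ≤ n := Nat.cast_nonneg n
    refine ⟨g_nonneg i0 i1, g_le_one i0 i1, ?_, ?_⟩
    · have a1 : T 4 (T (4 * n) x) ≤ T 4 (g^[n] x) := T_mono (by norm_num) (T_nonneg h0) i2
      rw [T_comp (by norm_num) (by positivity)] at a1
      have e : (4 * ((n + 1 : ℕ) : ℝ)) = 4 * n + 4 := by push_cast; ring
      rw [e]
      exact a1.trans (T_le_g i0 i1)
    · have a1 : T (1/24) (g^[n] x) ≤ T (1/24) (T (n/24) x) := T_mono (by norm_num) i0 i3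
      rw [T_comp (by norm_num) (by positivity)] at a1
      have e : (((n + 1 : ℕ) : ℝ) / 24) = n / 24 + 1/24 := by push_cast; ring
      rw [e]
      exact (g_le_T i0 i1).trans a1

lemma g_iter_mono {x y : ℝ} (h0 : 0 ≤ x) (h1 : x ≤ y) (h2 : y ≤ 1) (n : ℕ) : g^[n] x ≤ g^[n] y := by
  induction n with
  | zero => simpa
  | succ n ih =>
    rw [Function.iterate_succ_apply', Function.iterate_succ_apply']
    exact g_mono (g_iter_bounds h0 (h1.trans h2) n).1 ih (g_iter_bounds (h0.trans h1) h2 n).2.1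

end Pool.Agent.H47.SQ
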