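import Pool.Agent.H47.SQ.Tfun

/-! Sign averages and Khintchine's inequality (exponents `3/2` and `3`). -/

set_option autoImplicit false
set_option linter.unusedSectionVars false
set_option linter.unusedVariables false

namespace Pool.Agent.H47.SQ

section
variable {ι : Type*} [Fintype ι] [DecidableEq ι]

/-- sign of a Boolean -/
def sg (b : Bool) : ℝ := if b then 1 else -1

lemma sg_mul_self (b : Bool) : sg b * sg b = 1 := by
  cases b <;> norm_num [sg]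

lemma sg_sq (b : Bool) : sg b ^ 2 = 1 := by
  cases b <;> norm_num [sg]

lemma sg_not (b : Bool) : sg (!b) = - sg b := by
  cases b <;> norm_num [sg]

lemma abs_sg (b : Bool) : |sg b| = 1 := by
  cases b <;> norm_num [sg]

/-- average over signs -/
noncomputable def Ea (F : (ι → Bool) → ℝ) : ℝ := (∑ θ, F θ) / 2 ^ Fintype.card ι

lemma Ea_add (F G : (ι → Bool) → ℝ) : Ea (fun θ => F θ + G θ) = Ea F + Ea G := by
  unfold Ea; rw [Finset.sum_add_distrib, add_div]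

lemma Ea_sub (F G : (ι → Bool) → ℝ) : Ea (fun θ => F θ - G θ) = Ea F - Ea G := by
  unfold Ea; rw [Finset.sum_sub_distrib, sub_div]

lemma Ea_const_mul (c : ℝ) (F : (ι → Bool) → ℝ) : Ea (fun θ => c * F θ) = c * Ea F := by
  unfold Ea; rw [← Finset.mul_sum, mul_div_assoc]

lemma Ea_neg (F : (ι → Bool) → ℝ) : Ea (fun θ => - F θ) = - Ea F := by
  unfold Ea; rw [Finset.sum_neg_distrib, neg_div]

lemma Ea_const (c : ℝ) : Ea (fun _ : ι → Bool => c) = c := by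
  unfold Ea
  rw [Finset.sum_const, Finset.card_univ, Fintype.card_fun, Fintype.card_bool, nsmul_eq_mul]
  push_cast
  have : (2:ℝ) ^ Fintype.card ι ≠ 0 := by positivity
  field_simp

lemma Ea_mono {F G : (ι → Bool) → ℝ} (h : ∀ θ, F θ ≤ G θ) : Ea F ≤ Ea G := by
  unfold Ea
  have : (0:ℝ) < 2 ^ Fintype.card ι := by positivity
  exact div_le_div_of_nonneg_right (Finset.sum_le_sum fun θ _ => h θ) this.le

lemma Ea_nonneg {F : (ι → Bool) → ℝ} (h : ∀ θ, 0 ≤ F θ) : 0 ≤ Ea F := by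
  have := Ea_mono (F := fun _ => 0) h
  rwa [Ea_const] at this

/-- flip a sign -/
def flip (i : ι) (θ : ι → Bool) : ι → Bool := Function.update θ i (!θ i)

lemma flip_flip (i : ι) : Function.Involutive (flip (ι := ι) i) := by
  intro θ
  unfold flip
  simp

lemma Ea_flip (i : ι) (F : (ι → Bool) → ℝ) : Ea (fun θ => F (flip i θ)) = Ea F := by
  unfold Ea
  congr 1
  exact Equiv.sum_comp ((flip_flip i).toPerm) F

/-- Rademacher sum -/
noncomputable def RX (S : Finset ι) (c : ι → ℝ) (θ : ι → Bool) : ℝ := ∑ i ∈ S, sg (θ i) * c i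

lemma RX_flip {S : Finset ι} {i : ι} (hi : i ∉ S) (c : ι → ℝ) (θ : ι → Bool) :
    RX S c (flip i θ) = RX S c θ := by
  unfold RX flip
  refine Finset.sum_congr rfl fun j hj => ?_
  have : j ≠ i := fun h => hi (h ▸ hj)
  rw [Function.update_of_ne this]

lemma Ea_odd {S : Finset ι} {i : ι} (hi : i ∉ S) (c : ι → ℝ) (n : ℕ) :
    Ea (fun θ => sg (θ i) * RX S c θ ^ n) = 0 := by
  have h := Ea_flip i (fun θ => sg (θ i) * RX S c θ ^ n)
  have h2 : (fun θ : ι → Bool => sg ((flip i θ) i) * RX S c (flip i θ) ^ n) =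
      fun θ => -(sg (θ i) * RX S c θ ^ n) := by
    funext θ
    rw [RX_flip hi]
    have : (flip i θ) i = !θ i := by unfold flip; simp
    rw [this, sg_not]; ring
  have h3 : Ea (fun θ : ι → Bool => sg ((flip i θ) i) * RX S c (flip i θ) ^ n) =
    - Ea (fun θ => sg (θ i) * RX S c θ ^ n) := by rw [h2, Ea_neg]
  linarith [h.symm.trans h3]

lemma RX_insert {S : Finset ι} {i : ι} (hi : i ∉ S) (c : ι → ℝ) (θ : ι → Bool) :
    RX (insert i S) c θ = sg (θ i) * c i + RX S c θ := by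
  unfold RX; rw [Finset.sum_insert hi]

lemma Ea_sq (S : Finset ι) (c : ι → ℝ) : Ea (fun θ => RX S c θ ^ 2) = ∑ i ∈ S, c i ^ 2 := by
  induction S using Finset.induction_on with
  | empty =>
    have : (fun θ : ι → Bool => RX ∅ c θ ^ 2) = fun _ => 0 := by funext θ; simp [RX]
    rw [this, Ea_const]; simp
  | insert i S hi ih =>
    have h : (fun θ : ι → Bool => RX (insert i S) c θ ^ 2) =
        fun θ => (RX S c θ ^ 2 + c i ^ 2) + (2 * c i) * (sg (θ i) * RX S c θ ^ 1) := by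
      funext θ
      rw [RX_insert hi]
      have := sg_sq (θ i)
      linear_combination (c i ^ 2) * this
    rw [h, Ea_add, Ea_add, Ea_const, Ea_const_mul, Ea_odd hi, ih, Finset.sum_insert hi]
    ring

lemma Ea_four (S : Finset ι) (c : ι → ℝ) :
    Ea (fun θ => RX S c θ ^ 4) ≤ 3 * (∑ i ∈ S, c i ^ 2) ^ 2 := by
  induction S using Finset.induction_on with
  | empty =>
    have : (fun θ : ι → Bool => RX ∅ c θ ^ 4) = fun _ => 0 := by funext θ; simp [RX]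
    rw [this, Ea_const]; simp
  | insert i S hi ih =>
    have h : (fun θ : ι → Bool => RX (insert i S) c θ ^ 4) =
        fun θ => ((RX S c θ ^ 4 + (6 * c i ^ 2) * RX S c θ ^ 2) + c i ^ 4) +
          ((4 * c i) * (sg (θ i) * RX S c θ ^ 3) + (4 * c i ^ 3) * (sg (θ i) * RX S c θ ^ 1)) := by
      funext θ
      rw [RX_insert hi]
      have := sg_sq (θ i)
      obtain ⟨s, hs⟩ : ∃ s, s = sg (θ i) := ⟨_, rfl⟩
      rw [← hs] at this ⊢
      obtain ⟨x, hx⟩ : ∃ x, x = RX S c θ := ⟨_, rfl⟩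
      rw [← hx]
      linear_combination (6 * (c i)^2 * x^2 + 4 * s * (c i)^3 * x + (c i)^4 * (s^2 + 1)) * this
    rw [h, Ea_add, Ea_add, Ea_add, Ea_add, Ea_const, Ea_const_mul, Ea_const_mul, Ea_const_mul,
      Ea_odd hi, Ea_odd hi, Ea_sq, Finset.sum_insert hi]
    nlinarith [sq_nonneg (c i ^ 2)]

end

/-! scalar inequalities -/

lemma q_sq_le (s : ℝ) (hs : 0 ≤ s) : s ^ 3 ≤ 3/4 * s ^ 4 + 1/4 := by
  nlinarith [sq_nonneg (s - 1), sq_nonneg (s^2 - s), sq_nonneg (s * (s-1)), sq_nonneg (s^2 - 1),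
    mul_nonneg hs (sq_nonneg (s-1)), mul_nonneg hs (sq_nonneg (s))]

/-- `|x|^{3/2} ≤ (3/4) x² + 1/4`. -/
lemma q_abs_le (x : ℝ) : q |x| ≤ 3/4 * x ^ 2 + 1/4 := by
  have h := q_sq_le (√|x|) (Real.sqrt_nonneg _)
  have h1 : √|x| ^ 2 = |x| := Real.sq_sqrt (abs_nonneg x)
  have h2 : q |x| = √|x| ^ 3 := by
    unfold q
    calc |x| * √|x| = √|x| ^ 2 * √|x| := by rw [h1]
      _ = _ := by ring
  have h3 : √|x| ^ 4 = x ^ 2 := by
    calc √|x| ^ 4 = (√|x| ^ 2) ^ 2 := by ring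
      _ = |x| ^ 2 := by rw [h1]
      _ = x ^ 2 := sq_abs x
  rw [h2, ← h3]; exact h

/-- `x² - x⁴/10 ≤ |x|^{3/2}`. -/
lemma q_abs_ge (x : ℝ) : x ^ 2 - x ^ 4 / 10 ≤ q |x| := by
  obtain ⟨s, hs, hx⟩ : ∃ s : ℝ, 0 ≤ s ∧ |x| = s ^ 2 :=
    ⟨√|x|, Real.sqrt_nonneg _, (Real.sq_sqrt (abs_nonneg x)).symm⟩
  have h2 : x ^ 2 = s ^ 4 := by rw [← sq_abs x, hx]; ring
  have h4 : x ^ 4 = s ^ 8 := by
    calc x ^ 4 = (x ^ 2) ^ 2 := by ring
      _ = _ := by rw [h2]; ring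
  rw [hx, q_sq s hs, h2, h4]
  -- s^4 - s^8/10 ≤ s^3  ⟸ s - s^5/10 ≤ 1
  have key : s - s ^ 5 / 10 ≤ 1 := by
    have h0 : 0 ≤ (s - 6/5) ^ 2 * (s ^ 3 + 2 * (6/5) * s ^ 2 + 3 * (6/5) ^ 2 * s + 4 * (6/5) ^ 3) := by
      positivity
    have h1 : (s - 6/5) ^ 2 * (s ^ 3 + 2 * (6/5) * s ^ 2 + 3 * (6/5) ^ 2 * s + 4 * (6/5) ^ 3) =
        s ^ 5 + 4 * (6/5) ^ 5 - 5 * (6/5) ^ 4 * s := by ring
    rw [h1] at h0
    nlinarith
  nlinarith [mul_le_mul_of_nonneg_left key (pow_nonneg hs 3)]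

/-! Khintchine -/

section
variable {ι : Type*} [Fintype ι] [DecidableEq ι]

lemma RX_smul (S : Finset ι) (c : ι → ℝ) (r : ℝ) (θ : ι → Bool) :
    RX S (fun i => r * c i) θ = r * RX S c θ := by
  unfold RX; rw [Finset.mul_sum]; refine Finset.sum_congr rfl fun i _ => by ring

lemma q_mul {x y : ℝ} (hx : 0 ≤ x) : q (x * y) = q x * q y := by
  unfold q; rw [Real.sqrt_mul hx]; ring

/-- normalised Khintchine, exponent `3/2`, upper bound -/
lemma Kh_upper_one (S : Finset ι) (c : ι → ℝ) (h : ∑ i ∈ S, c i ^ 2 = 1) :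
    Ea (fun θ => q |RX S c θ|) ≤ 1 := by
  have h1 : Ea (fun θ => q |RX S c θ|) ≤ Ea (fun θ => 3/4 * RX S c θ ^ 2 + 1/4) :=
    Ea_mono fun θ => q_abs_le _
  rw [Ea_add, Ea_const_mul, Ea_const, Ea_sq, h] at h1
  linarith

lemma Kh_lower_one (S : Finset ι) (c : ι → ℝ) (h : ∑ i ∈ S, c i ^ 2 = 1) :
    7/10 ≤ Ea (fun θ => q |RX S c θ|) := by
  have h1 : Ea (fun θ => RX S c θ ^ 2 + (-1/10) * RX S c θ ^ 4) ≤ Ea (fun θ => q |RX S c θ|) :=
    Ea_mono fun θ => by have := q_abs_ge (RX S c θ); linarith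
  rw [Ea_add, Ea_const_mul, Ea_sq, h] at h1
  have h4 := Ea_four S c
  rw [h] at h4
  linarith

/-- Khintchine, exponent `3/2`: for `σ ≥ 0` with `∑ c² = σ²`. -/
lemma Kh_upper (S : Finset ι) (c : ι → ℝ) (σ : ℝ) (hσ : 0 ≤ σ) (h : ∑ i ∈ S, c i ^ 2 = σ ^ 2) :
    Ea (fun θ => q |RX S c θ|) ≤ q σ := by
  rcases hσ.eq_or_lt with h0 | h0
  · subst h0
    have hc : ∀ i ∈ S, c i = 0 := by
      have : ∑ i ∈ S, c i ^ 2 = 0 := by rw [h]; ring
      intro i hi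
      have := (Finset.sum_eq_zero_iff_of_nonneg (fun i _ => sq_nonneg (c i))).1 this i hi
      exact pow_eq_zero_iff (two_ne_zero) |>.1 this
    have h2 : (fun θ : ι → Bool => q |RX S c θ|) = fun _ => 0 := by
      funext θ
      have : RX S c θ = 0 := by
        unfold RX; exact Finset.sum_eq_zero fun i hi => by rw [hc i hi]; ring
      rw [this]; simp [q]
    rw [h2, Ea_const]; simp [q]
  · have h1 := Kh_upper_one S (fun i => σ⁻¹ * c i) (by
      have : ∑ i ∈ S, (σ⁻¹ * c i) ^ 2 = σ⁻¹ ^ 2 * ∑ i ∈ S, c i ^ 2 := by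
        rw [Finset.mul_sum]; exact Finset.sum_congr rfl fun i _ => by ring
      rw [this, h]; field_simp)
    have h2 : (fun θ : ι → Bool => q |RX S c θ|) =
        fun θ => q σ * q |RX S (fun i => σ⁻¹ * c i) θ| := by
      funext θ
      rw [RX_smul, abs_mul, abs_of_pos (inv_pos.2 h0), ← q_mul h0.le]
      congr 1
      field_simp
    rw [h2, Ea_const_mul]
    exact mul_le_of_le_one_right (q_nonneg h0.le) h1

lemma Kh_lower (S : Finset ι) (c : ι → ℝ) (σ : ℝ) (hσ : 0 ≤ σ) (h : ∑ i ∈ S, c i ^ 2 = σ ^ 2) :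
    7/10 * q σ ≤ Ea (fun θ => q |RX S c θ|) := by
  rcases hσ.eq_or_lt with h0 | h0
  · subst h0
    have : q 0 = 0 := by simp [q]
    rw [this, mul_zero]
    exact Ea_nonneg fun θ => q_nonneg (abs_nonneg _)
  · have h1 := Kh_lower_one S (fun i => σ⁻¹ * c i) (by
      have : ∑ i ∈ S, (σ⁻¹ * c i) ^ 2 = σ⁻¹ ^ 2 * ∑ i ∈ S, c i ^ 2 := by
        rw [Finset.mul_sum]; exact Finset.sum_congr rfl fun i _ => by ring
      rw [this, h]; field_simp)
    have h2 : (fun θ : ι → Bool => q |RX S c θ|) =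
        fun θ => q σ * q |RX S (fun i => σ⁻¹ * c i) θ| := by
      funext θ
      rw [RX_smul, abs_mul, abs_of_pos (inv_pos.2 h0), ← q_mul h0.le]
      congr 1
      field_simp
    rw [h2, Ea_const_mul, mul_comm]
    exact mul_le_mul_of_nonneg_left h1 (q_nonneg h0.le)

/-- exponent `3`: `E|X|³ ≥ σ³`. -/
lemma Kh3_lower (S : Finset ι) (c : ι → ℝ) (σ : ℝ) (hσ : 0 ≤ σ) (h : ∑ i ∈ S, c i ^ 2 = σ ^ 2) :
    σ ^ 3 ≤ Ea (fun θ => |RX S c θ| ^ 3) := by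
  have h1 : Ea (fun θ => (3/2 * σ) * RX S c θ ^ 2 + (-(σ ^ 3) / 2)) ≤ Ea (fun θ => |RX S c θ| ^ 3) := by
    refine Ea_mono fun θ => ?_
    obtain ⟨x, hx⟩ : ∃ x, x = |RX S c θ| := ⟨_, rfl⟩
    have hx0 : 0 ≤ x := hx ▸ abs_nonneg _
    rw [← sq_abs (RX S c θ), ← hx]
    nlinarith [mul_nonneg hx0 (sq_nonneg (x - σ)), mul_nonneg hσ (sq_nonneg (x - σ))]
  rw [Ea_add, Ea_const_mul, Ea_const, Ea_sq, h] at h1
  nlinarith

/-- exponent `3`: `E|X|³ ≤ 2σ³`. -/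
lemma Kh3_upper (S : Finset ι) (c : ι → ℝ) (σ : ℝ) (hσ : 0 ≤ σ) (h : ∑ i ∈ S, c i ^ 2 = σ ^ 2) :
    Ea (fun θ => |RX S c θ| ^ 3) ≤ 2 * σ ^ 3 := by
  have h1 : ∀ t : ℝ, 0 < t → Ea (fun θ => |RX S c θ| ^ 3) ≤ t / 2 * σ ^ 2 + 3 / (2 * t) * σ ^ 4 := by
    intro t ht
    have h2 : Ea (fun θ => |RX S c θ| ^ 3) ≤ Ea (fun θ => (t/2) * RX S c θ ^ 2 + (1/(2*t)) * RX S c θ ^ 4) := by
      refine Ea_mono fun θ => ?_
      obtain ⟨x, hx⟩ : ∃ x, x = |RX S c θ| := ⟨_, rfl⟩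
      have hx0 : 0 ≤ x := hx ▸ abs_nonneg _
      have e4 : RX S c θ ^ 4 = x ^ 4 := by rw [hx]; exact (Even.pow_abs (by decide) _).symm
      rw [e4, ← sq_abs (RX S c θ), ← hx]
      have : t / 2 * x ^ 2 + 1 / (2 * t) * x ^ 4 - x ^ 3 = x ^ 2 * (t - x) ^ 2 / (2 * t) := by
        field_simp; ring
      have h3 : 0 ≤ x ^ 2 * (t - x) ^ 2 / (2 * t) := by positivity
      linarith
    rw [Ea_add, Ea_const_mul, Ea_const_mul, Ea_sq, h] at h2
    have h4 := Ea_four S c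
    rw [h] at h4
    have h5 : 1 / (2 * t) * Ea (fun θ => RX S c θ ^ 4) ≤ 1 / (2 * t) * (3 * (σ ^ 2) ^ 2) :=
      mul_le_mul_of_nonneg_left h4 (by positivity)
    have h6 : 1 / (2 * t) * (3 * (σ ^ 2) ^ 2) = 3 / (2 * t) * σ ^ 4 := by ring
    linarith
  rcases hσ.eq_or_lt with h0 | h0
  · subst h0
    have := h1 1 one_pos
    simpa using this
  · have h2 := h1 (2 * σ) (by positivity)
    have h3 : 2 * σ / 2 * σ ^ 2 + 3 / (2 * (2 * σ)) * σ ^ 4 = (7/4) * σ ^ 3 := by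
      field_simp; ring
    rw [h3] at h2
    have := pow_pos h0 3
    linarith

end

end Pool.Agent.H47.SQ
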