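import Pool.Agent.H47.SQ.Gfun

/-! Tree averages, the functional `Lam`, and its Laplace representation. -/

set_option autoImplicit false
set_option linter.unusedVariables false

namespace Pool.Agent.H47.SQ

/-- average over the leaves -/
noncomputable def av : (H : ℕ) → (L H → ℝ) → ℝ
  | 0, f => f ()
  | (H+1), f => (∑ t : Fin 16, av H (sub f t)) / 16

lemma av_zero (f : L 0 → ℝ) : av 0 f = f () := rfl

lemma av_succ (H : ℕ) (f : L (H+1) → ℝ) : av (H+1) f = (∑ t : Fin 16, av H (sub f t)) / 16 := rfl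

lemma av_eq (H : ℕ) (f : L H → ℝ) : av H f = (∑ i, f i) / 16 ^ H := by
  induction H with
  | zero => rw [sum_L_zero]; simp [av]
  | succ n ih =>
    rw [sum_L_succ, av_succ, Finset.sum_congr rfl fun t _ => ih (sub f t), ← Finset.sum_div, div_div,
      pow_succ]

lemma av_nonneg {H : ℕ} {f : L H → ℝ} (h : ∀ i, 0 ≤ f i) : 0 ≤ av H f := by
  rw [av_eq]
  have := Finset.sum_nonneg fun i (_ : i ∈ Finset.univ) => h i
  positivity

lemma av_mono {H : ℕ} {f f' : L H → ℝ} (h : ∀ i, f i ≤ f' i) : av H f ≤ av H f' := by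
  rw [av_eq, av_eq]
  exact div_le_div_of_nonneg_right (Finset.sum_le_sum fun i _ => h i) (by positivity)

lemma av_const (H : ℕ) (c : ℝ) : av H (fun _ => c) = c := by
  rw [av_eq, Finset.sum_const, Finset.card_univ, card_L, nsmul_eq_mul]
  push_cast
  field_simp

lemma av_le_of_le {H : ℕ} {f : L H → ℝ} {c : ℝ} (h : ∀ i, f i ≤ c) : av H f ≤ c := by
  have := av_mono (f' := fun _ => c) h
  rwa [av_const] at this

lemma av_add (H : ℕ) (f f' : L H → ℝ) : av H (fun i => f i + f' i) = av H f + av H f' := by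
  rw [av_eq, av_eq, av_eq, Finset.sum_add_distrib, add_div]

lemma av_const_mul (H : ℕ) (c : ℝ) (f : L H → ℝ) : av H (fun i => c * f i) = c * av H f := by
  rw [av_eq, av_eq, ← Finset.mul_sum, mul_div_assoc]

/-- normalised version of `N` -/
noncomputable def NN : (H : ℕ) → (L H → ℝ) → ℝ
  | 0, c => q (c ())
  | (H+1), c => (∑ t : Fin 16, NN H (sub c t)) / 16 + 2 ^ (H+1) * q (av (H+1) c)

lemma NN_succ (H : ℕ) (c : L (H+1) → ℝ) :
    NN (H+1) c = (∑ t : Fin 16, NN H (sub c t)) / 16 + 2 ^ (H+1) * q (av (H+1) c) := rfl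

lemma NN_nonneg {H : ℕ} {c : L H → ℝ} (hc : ∀ i, 0 ≤ c i) : 0 ≤ NN H c := by
  induction H with
  | zero => exact q_nonneg (hc _)
  | succ n ih =>
    rw [NN_succ]
    have h1 : 0 ≤ q (av (n+1) c) := q_nonneg (av_nonneg hc)
    have h2 : 0 ≤ ∑ t : Fin 16, NN n (sub c t) := Finset.sum_nonneg fun t _ => ih fun i => hc _
    positivity

lemma q_pow4 (n : ℕ) : q ((16:ℝ) ^ n) = 64 ^ n := by
  have : (16:ℝ) ^ n = (4 ^ n) ^ 2 := by rw [← pow_mul, mul_comm n 2, pow_mul]; norm_num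
  rw [this, q_sq _ (by positivity), ← pow_mul, mul_comm n 3, pow_mul]; norm_num

lemma q_mul' {x y : ℝ} (hx : 0 ≤ x) : q (x * y) = q x * q y := by
  unfold q; rw [Real.sqrt_mul hx]; ring

lemma N_eq (H : ℕ) (c : L H → ℝ) : N H c = 16 ^ H * NN H c := by
  induction H with
  | zero => simp [N, NN]
  | succ n ih =>
    rw [N_succ, NN_succ, Finset.sum_congr rfl fun t _ => ih (sub c t), ← Finset.mul_sum]
    have h1 : ∑ i, c i = 16 ^ (n+1) * av (n+1) c := by
      rw [av_eq]; field_simp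
    rw [h1, q_mul' (by positivity), q_pow4]
    have h2 : (1/2:ℝ) ^ (n+1) * (64 ^ (n+1)) = 16 ^ (n+1) * 2 ^ (n+1) := by
      rw [← mul_pow, ← mul_pow]; norm_num
    calc _ = 16 ^ n * ∑ t : Fin 16, NN n (sub c t) + ((1/2:ℝ) ^ (n+1) * (64 ^ (n+1))) * q (av (n+1) c) := by ring
      _ = _ := by rw [h2, pow_succ]; ring

/-- The functional `Lam`. -/
noncomputable def Lam : (H : ℕ) → (L H → ℝ) → ℝ
  | 0, f => 1 - Real.exp (-(f ()))
  | (H+1), f => g^[2 ^ (H+1)] ((∑ t : Fin 16, Lam H (sub f t)) / 16)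

lemma Lam_zero (f : L 0 → ℝ) : Lam 0 f = 1 - Real.exp (-(f ())) := rfl

lemma Lam_succ (H : ℕ) (f : L (H+1) → ℝ) :
    Lam (H+1) f = g^[2 ^ (H+1)] ((∑ t : Fin 16, Lam H (sub f t)) / 16) := rfl

lemma sum16_le {F : Fin 16 → ℝ} {c : ℝ} (h : ∀ t, F t ≤ c) : (∑ t, F t) / 16 ≤ c := by
  have := Finset.sum_le_sum fun t (_ : t ∈ Finset.univ) => h t
  rw [Finset.sum_const, Finset.card_univ, Fintype.card_fin, nsmul_eq_mul] at this
  push_cast at this
  linarith

lemma sum16_nonneg {F : Fin 16 → ℝ} (h : ∀ t, 0 ≤ F t) : 0 ≤ (∑ t, F t) / 16 := by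
  have := Finset.sum_nonneg fun t (_ : t ∈ Finset.univ) => h t
  positivity

lemma Lam_bounds {H : ℕ} {f : L H → ℝ} (hf : ∀ i, 0 ≤ f i) : 0 ≤ Lam H f ∧ Lam H f ≤ 1 := by
  induction H with
  | zero =>
    rw [Lam_zero]
    have h1 : Real.exp (-(f ())) ≤ 1 := Real.exp_le_one_iff.2 (by have := hf (); linarith)
    have h2 := Real.exp_pos (-(f ()))
    constructor <;> linarith
  | succ n ih =>
    rw [Lam_succ]
    have h := fun t => ih (f := sub f t) fun i => hf _
    have := g_iter_bounds (sum16_nonneg fun t => (h t).1) (sum16_le fun t => (h t).2) (2 ^ (n+1))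
    exact ⟨this.1, this.2.1⟩

lemma Lam_nonneg {H : ℕ} {f : L H → ℝ} (hf : ∀ i, 0 ≤ f i) : 0 ≤ Lam H f := (Lam_bounds hf).1

lemma Lam_le_one {H : ℕ} {f : L H → ℝ} (hf : ∀ i, 0 ≤ f i) : Lam H f ≤ 1 := (Lam_bounds hf).2

/-- the two-sided bounds for one step -/
lemma Lam_step {H : ℕ} {f : L (H+1) → ℝ} (hf : ∀ i, 0 ≤ f i) :
    T (4 * 2 ^ (H+1)) ((∑ t : Fin 16, Lam H (sub f t)) / 16) ≤ Lam (H+1) f ∧
    Lam (H+1) f ≤ T (2 ^ (H+1) / 24) ((∑ t : Fin 16, Lam H (sub f t)) / 16) := by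
  rw [Lam_succ]
  have h := fun t => Lam_bounds (f := sub f t) fun i => hf _
  have := g_iter_bounds (sum16_nonneg fun t => (h t).1) (sum16_le fun t => (h t).2) (2 ^ (H+1))
  push_cast at this
  exact this.2.2

lemma Lam_le_av {H : ℕ} {f : L H → ℝ} (hf : ∀ i, 0 ≤ f i) : Lam H f ≤ av H f := by
  induction H with
  | zero =>
    rw [Lam_zero, av_zero]
    have := Real.add_one_le_exp (-(f ())); linarith
  | succ n ih =>
    have h := (Lam_step hf).2
    have h0 : 0 ≤ (∑ t : Fin 16, Lam n (sub f t)) / 16 :=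
      sum16_nonneg fun t => Lam_nonneg fun i => hf _
    have h2 := h.trans (T_le_self (by positivity) h0)
    refine h2.trans ?_
    rw [av_succ]
    exact div_le_div_of_nonneg_right (Finset.sum_le_sum fun t _ => ih fun i => hf _) (by norm_num)

/-! Laplace representable functions -/

/-- Laplace transform of a probability on `ι → ℕ` (with countable support) -/
def LR {ι : Type} [Fintype ι] (F : (ι → ℝ) → ℝ) : Prop :=
  ∃ (κ : Type) (_ : Countable κ) (μ : κ → ℝ) (y : κ → ι → ℕ),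
    (∀ k, 0 ≤ μ k) ∧ HasSum μ 1 ∧ ∀ f : ι → ℝ, (∀ i, 0 ≤ f i) →
      HasSum (fun k => μ k * Real.exp (-∑ i, (y k i : ℝ) * f i)) (F f)

lemma hasSum_sigma_nonneg {κ : ℕ → Type} {F : (Σ j, κ j) → ℝ} (h0 : ∀ x, 0 ≤ F x) {G : ℕ → ℝ}
    {a : ℝ} (h1 : ∀ j, HasSum (fun k => F ⟨j, k⟩) (G j)) (h2 : HasSum G a) : HasSum F a := by
  refine HasSum.sigma_of_hasSum h2 h1 ?_
  rw [summable_sigma_of_nonneg h0]
  refine ⟨fun j => (h1 j).summable, ?_⟩
  have : (fun j => ∑' k, F ⟨j, k⟩) = G := by funext j; exact (h1 j).tsum_eq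
  rw [this]; exact h2.summable

lemma LR_convex {ι : Type} [Fintype ι] (p : ℕ → ℝ) (hp0 : ∀ j, 0 ≤ p j) (hp : HasSum p 1)
    (Fj : ℕ → (ι → ℝ) → ℝ) (h : ∀ j, LR (Fj j)) (F : (ι → ℝ) → ℝ)
    (hF : ∀ f : ι → ℝ, (∀ i, 0 ≤ f i) → HasSum (fun j => p j * Fj j f) (F f)) : LR F := by
  choose κ hκ μ y hμ0 hμ1 hμ using h
  haveI := hκ
  refine ⟨Σ j, κ j, inferInstance, fun x => p x.1 * μ x.1 x.2, fun x => y x.1 x.2,
    fun x => mul_nonneg (hp0 _) (hμ0 _ _), ?_, ?_⟩
  · refine hasSum_sigma_nonneg (fun x => mul_nonneg (hp0 _) (hμ0 _ _)) (G := fun j => p j * 1)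
      (fun j => (hμ1 j).mul_left _) ?_
    simpa using hp
  · intro f hf
    refine hasSum_sigma_nonneg (fun x => mul_nonneg (mul_nonneg (hp0 _) (hμ0 _ _)) (Real.exp_pos _).le)
      (G := fun j => p j * Fj j f) (fun j => ?_) (hF f hf)
    have := (hμ j f hf).mul_left (p j)
    have e : (fun k => p j * μ j k * Real.exp (-∑ i, (y j k i : ℝ) * f i)) =
      fun k => p j * (μ j k * Real.exp (-∑ i, (y j k i : ℝ) * f i)) := by funext k; ring
    exact e ▸ this

lemma LR_one {ι : Type} [Fintype ι] : LR (fun _ : ι → ℝ => 1) := by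
  refine ⟨Unit, inferInstance, fun _ => 1, fun _ _ => 0, fun _ => zero_le_one, ?_, fun f hf => ?_⟩
  · have := hasSum_fintype (fun _ : Unit => (1:ℝ))
    simpa using this
  · have := hasSum_fintype (fun _ : Unit => (1:ℝ) * Real.exp (-∑ i : ι, ((0:ℕ) : ℝ) * f i))
    simpa using this

lemma LR_mul {ι : Type} [Fintype ι] {F G : (ι → ℝ) → ℝ} (hF : LR F) (hG : LR G) :
    LR (fun f => F f * G f) := by
  obtain ⟨κ, hκ, μ, y, h0, h1, h2⟩ := hF
  obtain ⟨κ', hκ', μ', y', h0', h1', h2'⟩ := hG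
  refine ⟨κ × κ', inferInstance, fun x => μ x.1 * μ' x.2, fun x i => y x.1 i + y' x.2 i,
    fun x => mul_nonneg (h0 _) (h0' _), ?_, fun f hf => ?_⟩
  · have := h1.mul h1' (h1.summable.mul_of_nonneg h1'.summable (fun k => h0 k) (fun k => h0' k))
    simpa using this
  · have a := h2 f hf
    have b := h2' f hf
    have := a.mul b (a.summable.mul_of_nonneg b.summable
      (fun k => mul_nonneg (h0 k) (Real.exp_pos _).le) (fun k => mul_nonneg (h0' k) (Real.exp_pos _).le))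
    have e : (fun x : κ × κ' => μ x.1 * μ' x.2 * Real.exp (-∑ i, ((y x.1 i + y' x.2 i : ℕ) : ℝ) * f i)) =
        fun x => μ x.1 * Real.exp (-∑ i, (y x.1 i : ℝ) * f i) *
          (μ' x.2 * Real.exp (-∑ i, (y' x.2 i : ℝ) * f i)) := by
      funext x
      have : -∑ i, ((y x.1 i + y' x.2 i : ℕ) : ℝ) * f i =
          -∑ i, (y x.1 i : ℝ) * f i + -∑ i, (y' x.2 i : ℝ) * f i := by
        rw [← neg_add, ← Finset.sum_add_distrib]
        congr 1
        refine Finset.sum_congr rfl fun i _ => by push_cast; ring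
      rw [this, Real.exp_add]; ring
    exact e ▸ this

lemma LR_pow {ι : Type} [Fintype ι] {F : (ι → ℝ) → ℝ} (hF : LR F) (n : ℕ) : LR (fun f => F f ^ n) := by
  induction n with
  | zero => simpa using (LR_one (ι := ι))
  | succ n ih =>
    have := LR_mul ih hF
    simpa [pow_succ] using this

lemma LR_mem {ι : Type} [Fintype ι] {F : (ι → ℝ) → ℝ} (hF : LR F) {f : ι → ℝ} (hf : ∀ i, 0 ≤ f i) :
    0 ≤ F f ∧ F f ≤ 1 := by
  obtain ⟨κ, hκ, μ, y, h0, h1, h2⟩ := hF
  refine ⟨(h2 f hf).nonneg fun k => mul_nonneg (h0 k) (Real.exp_pos _).le, ?_⟩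
  refine hasSum_le (fun k => ?_) (h2 f hf) h1
  refine mul_le_of_le_one_right (h0 k) (Real.exp_le_one_iff.2 ?_)
  have : 0 ≤ ∑ i, (y k i : ℝ) * f i := Finset.sum_nonneg fun i _ => mul_nonneg (Nat.cast_nonneg _) (hf i)
  linarith

lemma LR_gen {ι : Type} [Fintype ι] {F : (ι → ℝ) → ℝ} (hF : LR F) : LR (fun f => gen (F f)) := by
  refine LR_convex pw pw_nonneg hasSum_pw (fun j f => F f ^ ex j) (fun j => LR_pow hF _) _ ?_
  intro f hf
  exact hasSum_gen (LR_mem hF hf).1 (LR_mem hF hf).2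

lemma LR_gen_iter {ι : Type} [Fintype ι] {F : (ι → ℝ) → ℝ} (hF : LR F) (n : ℕ) :
    LR (fun f => gen^[n] (F f)) := by
  induction n with
  | zero => simpa using hF
  | succ n ih =>
    have := LR_gen ih
    simpa only [Function.iterate_succ_apply'] using this

lemma g_iter_eq (n : ℕ) (x : ℝ) : g^[n] x = 1 - gen^[n] (1 - x) := by
  induction n with
  | zero => simp
  | succ n ih =>
    rw [Function.iterate_succ_apply', Function.iterate_succ_apply', ih]
    unfold g
    rw [sub_sub_cancel]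

lemma LR_child {H : ℕ} {F : (L H → ℝ) → ℝ} (hF : LR F) :
    LR (fun f : L (H+1) → ℝ => (∑ t : Fin 16, F (sub f t)) / 16) := by
  obtain ⟨κ, hκ, μ, y, h0, h1, h2⟩ := hF
  have key : ∀ (G : Fin 16 → κ → ℝ) (a : Fin 16 → ℝ), (∀ t, HasSum (G t) (a t)) →
      HasSum (fun x : Fin 16 × κ => G x.1 x.2 / 16) ((∑ t, a t) / 16) := by
    intro G a hG
    have hs : ∀ t : Fin 16, HasSum (fun x : Fin 16 × κ => if x.1 = t then G t x.2 else 0) (a t) := by
      intro t
      have hinj : Function.Injective (fun k : κ => ((t, k) : Fin 16 × κ)) := fun a b h => by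
        simpa using h
      have := (hinj.hasSum_iff (f := fun x : Fin 16 × κ => if x.1 = t then G t x.2 else 0) (a := a t)
        (fun x hx => ?_))
      · rw [← this]
        simpa [Function.comp_def] using hG t
      · have : x.1 ≠ t := by
          intro h
          exact hx ⟨x.2, by rw [← h]⟩
        simp [this]
    have h3 := hasSum_sum (s := Finset.univ) (fun t _ => hs t)
    have h4 := h3.div_const 16
    have e : (fun x : Fin 16 × κ => G x.1 x.2 / 16) =
        fun x : Fin 16 × κ => (∑ t : Fin 16, if x.1 = t then G t x.2 else 0) / 16 := by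
      funext x
      rw [Finset.sum_ite_eq]
      simp
    rw [e]
    exact h4
  refine ⟨Fin 16 × κ, inferInstance, fun x => μ x.2 / 16,
    fun x i => (if (i : Fin 16 × L H).1 = x.1 then y x.2 (i : Fin 16 × L H).2 else 0),
    fun x => div_nonneg (h0 _) (by norm_num), ?_, fun f hf => ?_⟩
  · have := key (fun _ k => μ k) (fun _ => 1) (fun _ => h1)
    simpa using this
  · have := key (fun t k => μ k * Real.exp (-∑ i, (y k i : ℝ) * sub f t i)) (fun t => F (sub f t))
      (fun t => h2 (sub f t) fun i => hf _)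
    have e : (fun x : Fin 16 × κ => μ x.2 / 16 * Real.exp (-∑ i : L (H+1),
        (((if (i : Fin 16 × L H).1 = x.1 then y x.2 (i : Fin 16 × L H).2 else 0 : ℕ)) : ℝ) * f i)) =
        fun x => μ x.2 * Real.exp (-∑ i, (y x.2 i : ℝ) * sub f x.1 i) / 16 := by
      funext x
      have : ∑ i : L (H+1), (((if (i : Fin 16 × L H).1 = x.1 then y x.2 (i : Fin 16 × L H).2 else 0 : ℕ)) : ℝ) * f i
          = ∑ i, (y x.2 i : ℝ) * sub f x.1 i := by
        rw [sum_L_succ]
        rw [Finset.sum_eq_single x.1]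
        · refine Finset.sum_congr rfl fun i _ => ?_
          simp [sub]
        · intro t _ ht
          refine Finset.sum_eq_zero fun i _ => ?_
          simp [sub, ht]
        · intro h; exact absurd (Finset.mem_univ _) h
      rw [this]; ring
    exact e ▸ this

lemma LR_Lam (H : ℕ) : LR (fun f : L H → ℝ => 1 - Lam H f) := by
  induction H with
  | zero =>
    refine ⟨Unit, inferInstance, fun _ => 1, fun _ _ => 1, fun _ => zero_le_one, ?_, fun f hf => ?_⟩
    · simpa using hasSum_fintype (fun _ : Unit => (1:ℝ))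
    · have := hasSum_fintype (fun _ : Unit => (1:ℝ) * Real.exp (-∑ i : L 0, ((1:ℕ) : ℝ) * f i))
      have e : (1:ℝ) - Lam 0 f = ∑ _ : Unit, (1:ℝ) * Real.exp (-∑ i : L 0, ((1:ℕ) : ℝ) * f i) := by
        rw [Lam_zero, sum_L_zero]; simp
      show HasSum (fun _ : Unit => (1:ℝ) * Real.exp (-∑ i : L 0, ((1:ℕ) : ℝ) * f i)) (1 - Lam 0 f)
      rw [e]; exact this
  | succ n ih =>
    have h1 := LR_gen_iter (LR_child ih) (2 ^ (n+1))
    have e : (fun f : L (n+1) → ℝ => 1 - Lam (n+1) f) =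
        fun f => gen^[2 ^ (n+1)] ((∑ t : Fin 16, (1 - Lam n (sub f t))) / 16) := by
      funext f
      rw [Lam_succ, g_iter_eq]
      have : (∑ t : Fin 16, (1 - Lam n (sub f t))) / 16 = 1 - (∑ t : Fin 16, Lam n (sub f t)) / 16 := by
        rw [Finset.sum_sub_distrib]
        simp
        ring
      rw [this]; ring
    rw [e]; exact h1

/-- final form of the representation -/
lemma Lam_rep (H : ℕ) : ∃ (κ : Type) (_ : Countable κ) (μ : κ → ℝ) (y : κ → L H → ℕ),
    (∀ k, 0 ≤ μ k) ∧ ∀ f : L H → ℝ, (∀ i, 0 ≤ f i) →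
      HasSum (fun k => μ k * (1 - Real.exp (-∑ i, (y k i : ℝ) * f i))) (Lam H f) := by
  obtain ⟨κ, hκ, μ, y, h0, h1, h2⟩ := LR_Lam H
  refine ⟨κ, hκ, μ, y, h0, fun f hf => ?_⟩
  have := h1.sub (h2 f hf)
  have e : (fun k => μ k * (1 - Real.exp (-∑ i, (y k i : ℝ) * f i))) =
    fun k => μ k - μ k * Real.exp (-∑ i, (y k i : ℝ) * f i) := by funext k; ring
  rw [e]
  have e2 : Lam H f = 1 - (1 - Lam H f) := by ring
  rw [e2]; exact this

lemma Lam_mul16 {H : ℕ} {f : L H → ℝ} (hf : ∀ i, 0 ≤ f i) :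
    Lam H (fun i => 16 * f i) ≤ 16 * Lam H f := by
  obtain ⟨κ, hκ, μ, y, h0, h1⟩ := Lam_rep H
  have a := h1 (fun i => 16 * f i) (fun i => mul_nonneg (by norm_num) (hf i))
  have b := (h1 f hf).mul_left 16
  refine hasSum_le (fun k => ?_) a b
  obtain ⟨x, hx⟩ : ∃ x, x = ∑ i, (y k i : ℝ) * f i := ⟨_, rfl⟩
  have e : ∑ i, (y k i : ℝ) * (16 * f i) = 16 * x := by
    rw [hx, Finset.mul_sum]; exact Finset.sum_congr rfl fun i _ => by ring
  rw [e, ← hx]
  have h2 : 1 - Real.exp (-(16 * x)) ≤ 16 * (1 - Real.exp (-x)) := by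
    have e1 : Real.exp (-(16 * x)) = (Real.exp (-x)) ^ 16 := by
      rw [← Real.exp_nat_mul]; congr 1; push_cast; ring
    rw [e1]
    have := one_add_mul_le_pow (a := Real.exp (-x) - 1) (by have := Real.exp_pos (-x); linarith) 16
    have e2 : 1 + (Real.exp (-x) - 1) = Real.exp (-x) := by ring
    rw [e2] at this
    push_cast at this
    linarith
  calc μ k * (1 - Real.exp (-(16 * x))) ≤ μ k * (16 * (1 - Real.exp (-x))) :=
        mul_le_mul_of_nonneg_left h2 (h0 k)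
    _ = 16 * (μ k * (1 - Real.exp (-x))) := by ring

end Pool.Agent.H47.SQ
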