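import Pool.Agent.H47.SQ.Lam

/-! The dual estimate (L). -/

set_option autoImplicit false
set_option linter.unusedVariables false

namespace Pool.Agent.H47.SQ

lemma exists_switch {P : ℤ → Prop} {m0 m1 : ℤ} (h : m0 ≤ m1) (h0 : P m0) :
    ∃ m, m0 ≤ m ∧ m ≤ m1 ∧ P m ∧ (m = m1 ∨ ¬ P (m+1)) := by
  by_contra hcon
  push Not at hcon
  have h1 : ∀ m, m0 ≤ m → (m ≤ m1 → P m) := by
    intro m hm
    induction m, hm using Int.le_induction with
    | base => exact fun _ => h0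
    | succ n hn ih =>
      intro hle
      exact (hcon n hn (by omega) (ih (by omega))).2
  exact (hcon m1 h le_rfl (h1 m1 h le_rfl)).1 rfl

lemma exp_neg_one_ge : (0.367 : ℝ) ≤ Real.exp (-1) := by
  rw [Real.exp_neg]
  have h := Real.exp_one_lt_d9
  rw [le_inv_comm₀ (by norm_num) (Real.exp_pos 1)]
  refine h.le.trans ?_
  norm_num

lemma exp_neg_one_le : Real.exp (-1) ≤ 0.368 := by
  rw [Real.exp_neg]
  have h := Real.exp_one_gt_d9
  rw [inv_le_comm₀ (Real.exp_pos 1) (by norm_num)]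
  refine le_trans ?_ h.le
  norm_num

lemma exp_neg_three_ge : (0.049 : ℝ) ≤ Real.exp (-3) := by
  have : Real.exp (-3) = Real.exp (-1) ^ 3 := by
    rw [← Real.exp_nat_mul]; norm_num
  rw [this]
  have h := pow_le_pow_left₀ (by norm_num) exp_neg_one_ge 3
  refine le_trans ?_ h
  norm_num

lemma one_sub_exp_ge_half {x : ℝ} (h0 : 0 ≤ x) (h1 : x ≤ 1) : x / 2 ≤ 1 - Real.exp (-x) := by
  have h2 : Real.exp (-x) ≤ 1 / (1 + x) := by
    rw [Real.exp_neg, ← one_div]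
    refine one_div_le_one_div_of_le (by linarith) ?_
    have := Real.add_one_le_exp x; linarith
  have h3 : 1 / (1 + x) ≤ 1 - x / 2 := by
    rw [div_le_iff₀ (by linarith)]; nlinarith
  linarith

lemma one_sub_exp_ge_of_ge {x : ℝ} (h1 : 1 ≤ x) : 0.632 ≤ 1 - Real.exp (-x) := by
  have h2 : Real.exp (-x) ≤ Real.exp (-1) := Real.exp_le_exp.2 (by linarith)
  have := exp_neg_one_le
  linarith

/-- leaf case of (L) -/
lemma L_leaf {τ α β B : ℝ} {X : ℤ → ℝ} {m0 m1 : ℤ} (hτ : 0 ≤ τ) (hm : m0 ≤ m1) (hX : ∀ m, 0 ≤ X m)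
    (hX4 : ∀ m, X (m+1) ≤ 4 * X m)
    (hXτ : ∀ m, m0 ≤ m → m ≤ m1 → X m ≤ 1 → X m ≤ (2:ℝ) ^ m * τ)
    (hX0 : X m0 + 8 * ((2:ℝ) ^ m0) ^ 2 * B ≤ 1) (hα : 0 ≤ α) (hβ : 0 ≤ β) (hβB : β ≤ B)
    (hβ1 : β = 0 ∨ 1 ≤ ((2:ℝ) ^ m1) ^ 4 * β ^ 2) :
    ∃ m, m0 ≤ m ∧ m ≤ m1 ∧ α * β ≤ τ * α ^ 2 + 4/3 * α ^ 3 +
      120 * ((1 - Real.exp (-(((2:ℝ) ^ m) ^ 4 * β ^ 2))) / ((2:ℝ) ^ m) ^ 3 * Real.exp (-(3 * X m))) := by
  have hp0 : X m0 ≤ 1 ∧ ((2:ℝ) ^ m0) ^ 4 * β ^ 2 < 16 := by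
    have h1 : 0 ≤ 8 * ((2:ℝ) ^ m0) ^ 2 * B := by
      have := hβ.trans hβB
      positivity
    refine ⟨by linarith, ?_⟩
    have h2 : ((2:ℝ) ^ m0) ^ 2 * β ≤ 1/8 := by
      have := mul_le_mul_of_nonneg_left hβB (show 0 ≤ ((2:ℝ) ^ m0) ^ 2 by positivity)
      have := hX m0
      linarith
    have h3 : 0 ≤ ((2:ℝ) ^ m0) ^ 2 * β := by positivity
    nlinarith
  obtain ⟨m, hm0, hm1, ⟨hP1, hP2⟩, hsw⟩ := exists_switch
    (P := fun m => X m ≤ 1 ∧ ((2:ℝ) ^ m) ^ 4 * β ^ 2 < 16) hm hp0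
  refine ⟨m, hm0, hm1, ?_⟩
  obtain ⟨σ, hσe⟩ : ∃ σ, σ = (2:ℝ) ^ m := ⟨_, rfl⟩
  have hσ : 0 < σ := by rw [hσe]; positivity
  rw [← hσe] at hP2 ⊢
  have he3 : 0.049 ≤ Real.exp (-(3 * X m)) := by
    refine exp_neg_three_ge.trans (Real.exp_le_exp.2 ?_)
    have := hP1
    linarith
  rcases hβ.eq_or_lt with hb0 | hb0
  · subst hb0
    simp
    positivity
  have hβ1' : 1 ≤ ((2:ℝ) ^ m1) ^ 4 * β ^ 2 := by
    rcases hβ1 with h | h
    · exact absurd h hb0.ne'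
    · exact h
  rcases le_or_gt 1 (σ ^ 4 * β ^ 2) with hc | hc
  · -- case 1
    have h1 := one_sub_exp_ge_of_ge hc
    have h2 : σ ^ 2 * β < 4 := by
      by_contra hcon
      push Not at hcon
      have : (16:ℝ) ≤ (σ ^ 2 * β) ^ 2 := by nlinarith
      nlinarith
    obtain ⟨z, hz⟩ : ∃ z, z = 1 / σ := ⟨_, rfl⟩
    have hz0 : 0 < z := by rw [hz]; positivity
    have h3 : β ≤ 4 * z ^ 2 := by
      rw [hz, div_pow, one_pow, mul_one_div, le_div_iff₀ (by positivity)]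
      linarith
    have h4 : α * β ≤ 4/3 * α ^ 3 + 8/3 * z ^ 3 := by
      have h5 : α * β ≤ α * (4 * z ^ 2) := mul_le_mul_of_nonneg_left h3 hα
      nlinarith [mul_nonneg hα (sq_nonneg (α - z)), mul_nonneg hz0.le (sq_nonneg (α - z))]
    have h6 : (0.632 : ℝ) * z ^ 3 ≤ (1 - Real.exp (-(σ ^ 4 * β ^ 2))) / σ ^ 3 := by
      rw [hz, div_pow, one_pow, mul_one_div]
      exact div_le_div_of_nonneg_right h1 (by positivity)
    have h7 : (0.632 : ℝ) * z ^ 3 * 0.049 ≤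
        (1 - Real.exp (-(σ ^ 4 * β ^ 2))) / σ ^ 3 * Real.exp (-(3 * X m)) :=
      mul_le_mul h6 he3 (by norm_num) (le_trans (by positivity) h6)
    have h8 : 0 ≤ τ * α ^ 2 := by positivity
    have h9 : 0 < z ^ 3 := by positivity
    nlinarith
  · -- case 2
    have hne : m ≠ m1 := by
      intro h
      rw [hσe, h] at hc
      linarith
    have hX1 : 1 < X (m+1) := by
      rcases hsw with h | h
      · exact absurd h hne
      · by_contra hcon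
        push Not at hcon
        refine h ⟨hcon, ?_⟩
        have : (2:ℝ) ^ (m+1) = 2 * σ := by
          rw [zpow_add₀ (by norm_num : (2:ℝ) ≠ 0), zpow_one, hσe]; ring
        rw [this]
        nlinarith
    have h2 : 1/4 < X m := by have := hX4 m; linarith
    have h3 : 1/4 < σ * τ := by
      have := hXτ m hm0 hm1 hP1
      rw [hσe]; linarith
    have hx := one_sub_exp_ge_half (x := σ ^ 4 * β ^ 2) (by positivity) hc.le
    have h4 : α * β ≤ τ * α ^ 2 + σ * β ^ 2 := by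
      have hτ' : 0 < τ := by
        by_contra hcon
        push Not at hcon
        nlinarith
      -- (2 τ α - β)^2 ≥ 0
      have h5 : 0 ≤ (2 * τ * α - β) ^ 2 := sq_nonneg _
      have h6 : 4 * τ * (α * β) ≤ 4 * τ * (τ * α ^ 2 + σ * β ^ 2) := by
        nlinarith [mul_nonneg (sub_nonneg.2 h3.le) (sq_nonneg β)]
      have h7 : (0:ℝ) < 4 * τ := by linarith
      exact le_of_mul_le_mul_left h6 h7
    have h5 : σ * β ^ 2 / 2 ≤ (1 - Real.exp (-(σ ^ 4 * β ^ 2))) / σ ^ 3 := by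
      rw [le_div_iff₀ (by positivity)]
      calc σ * β ^ 2 / 2 * σ ^ 3 = σ ^ 4 * β ^ 2 / 2 := by ring
        _ ≤ _ := hx
    have h6 : σ * β ^ 2 / 2 * 0.049 ≤
        (1 - Real.exp (-(σ ^ 4 * β ^ 2))) / σ ^ 3 * Real.exp (-(3 * X m)) :=
      mul_le_mul h5 he3 (by norm_num) (le_trans (by positivity) h5)
    have h7 : 0 ≤ σ * β ^ 2 := by positivity
    have h8 : 0 ≤ α ^ 3 := by positivity
    nlinarith

/-- key inequality for one scale in the inductive step -/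
lemma L_scale {p ω X σ lam : ℝ} (hp : 0 ≤ p) (hω : 0 ≤ ω) (hX : 0 ≤ X) (hσ : 0 < σ)
    (hlam : T ω p ≤ lam) :
    120 * (p / σ ^ 3 * Real.exp (-(3 * (X + ω * √p)))) +
      (if X + ω * √p ≤ 1 then 16/3 * (p / σ ^ 3) * (ω * √p) else 0) ≤
    120 * (lam / σ ^ 3 * Real.exp (-(3 * X))) := by
  obtain ⟨x, hx⟩ : ∃ x, x = ω * √p := ⟨_, rfl⟩
  have hx0 : 0 ≤ x := by rw [hx]; positivity
  unfold T at hlam
  rw [← hx] at hlam ⊢
  have h1 : (1 + x) ^ 3 ≤ Real.exp (3 * x) := by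
    have : Real.exp (3 * x) = Real.exp x ^ 3 := by
      rw [← Real.exp_nat_mul]; norm_num
    rw [this]
    refine pow_le_pow_left₀ (by linarith) ?_ 3
    have := Real.add_one_le_exp x; linarith
  have e1 : Real.exp (-(3 * (X + x))) = Real.exp (-(3 * X)) * Real.exp (-(3 * x)) := by
    rw [← Real.exp_add]; congr 1; ring
  obtain ⟨E, hE⟩ : ∃ E, E = Real.exp (-(3 * (X + x))) := ⟨_, rfl⟩
  have hE0 : 0 < E := hE ▸ Real.exp_pos _
  have h2 : E * (1 + x) * (1 + x) ^ 2 ≤ Real.exp (-(3 * X)) := by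
    rw [hE, e1]
    have h3 : Real.exp (-(3 * x)) * (1 + x) ^ 3 ≤ 1 := by
      calc Real.exp (-(3 * x)) * (1 + x) ^ 3 ≤ Real.exp (-(3 * x)) * Real.exp (3 * x) :=
            mul_le_mul_of_nonneg_left h1 (Real.exp_pos _).le
        _ = 1 := by rw [← Real.exp_add]; simp
    calc _ = Real.exp (-(3 * X)) * (Real.exp (-(3 * x)) * (1 + x) ^ 3) := by ring
      _ ≤ Real.exp (-(3 * X)) * 1 := mul_le_mul_of_nonneg_left h3 (Real.exp_pos _).le
      _ = _ := mul_one _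
  have h4 : p * (E * (1 + x)) ≤ lam * Real.exp (-(3 * X)) := by
    have h5 : p / (1 + x) ^ 2 * (E * (1 + x) * (1 + x) ^ 2) ≤ lam * Real.exp (-(3 * X)) :=
      mul_le_mul hlam h2 (by positivity) (le_trans (by positivity) hlam)
    have h6 : p / (1 + x) ^ 2 * (E * (1 + x) * (1 + x) ^ 2) = p * (E * (1 + x)) := by
      field_simp
    rwa [h6] at h5
  rw [← hE]
  have hσ3 : 0 < σ ^ 3 := by positivity
  have h7 : 120 * (p / σ ^ 3 * E) + 120 * (p / σ ^ 3 * (E * x)) ≤ 120 * (lam / σ ^ 3 * Real.exp (-(3 * X))) := by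
    have : 120 * (p / σ ^ 3 * E) + 120 * (p / σ ^ 3 * (E * x)) = 120 * ((p * (E * (1 + x))) / σ ^ 3) := by
      field_simp
    rw [this]
    have h8 : 120 * (lam / σ ^ 3 * Real.exp (-(3 * X))) = 120 * ((lam * Real.exp (-(3 * X))) / σ ^ 3) := by
      field_simp
    rw [h8]
    exact mul_le_mul_of_nonneg_left (div_le_div_of_nonneg_right h4 hσ3.le) (by norm_num)
  refine le_trans ?_ h7
  refine add_le_add le_rfl ?_
  split_ifs with hc
  · have he3 : 0.049 ≤ E := by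
      rw [hE]
      refine exp_neg_three_ge.trans (Real.exp_le_exp.2 ?_)
      linarith
    have hpx : 0 ≤ p / σ ^ 3 * x := by positivity
    nlinarith [mul_le_mul_of_nonneg_left he3 hpx]
  · positivity

lemma exists_cbrt {G : ℝ} (h : 0 ≤ G) : ∃ g : ℝ, 0 ≤ g ∧ g ^ 3 = G := by
  refine ⟨G ^ (1/3 : ℝ), by positivity, ?_⟩
  rw [← Real.rpow_natCast, ← Real.rpow_mul h]
  norm_num

/-- (L) -/
lemma L_dual (H : ℕ) : ∀ (τ : ℝ) (X : ℤ → ℝ) (m0 m1 : ℤ) (B : ℝ) (α β : L H → ℝ),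
    0 ≤ τ → m0 ≤ m1 → (∀ m, 0 ≤ X m) → (∀ m, X (m+1) ≤ 4 * X m) →
    (∀ m, m0 ≤ m → m ≤ m1 → X m ≤ 1 → X m ≤ (2:ℝ) ^ m * τ) →
    (X m0 + 8 * 2 ^ H * ((2:ℝ) ^ m0) ^ 2 * B ≤ 1) → (∀ i, 0 ≤ α i) → (∀ i, 0 ≤ β i) →
    (∀ i, β i ≤ B) → (∀ i, β i = 0 ∨ 1 ≤ ((2:ℝ) ^ m1) ^ 4 * β i ^ 2) →
    av H (fun i => α i * β i) ≤ τ * av H (fun i => α i ^ 2) + 4/3 * NN H (fun i => α i ^ 2) +
      120 * ∑ m ∈ Finset.Icc m0 m1,
        Lam H (fun i => ((2:ℝ) ^ m) ^ 4 * β i ^ 2) / ((2:ℝ) ^ m) ^ 3 * Real.exp (-(3 * X m)) := by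
  induction H with
  | zero =>
    intro τ X m0 m1 B α β hτ hm hX hX4 hXτ hX0 hα hβ hβB hβ1
    obtain ⟨m, hm0, hm1, h⟩ := L_leaf (α := α ()) hτ hm hX hX4 hXτ (B := B) (by simpa using hX0)
      (hα _) (hβ ()) (hβB _) (hβ1 _)
    show α () * β () ≤ τ * α () ^ 2 + 4/3 * q (α () ^ 2) + _
    rw [q_sq _ (hα _)]
    refine h.trans ?_
    have h2 : (1 - Real.exp (-(((2:ℝ) ^ m) ^ 4 * β () ^ 2))) / ((2:ℝ) ^ m) ^ 3 * Real.exp (-(3 * X m)) ≤
      ∑ m ∈ Finset.Icc m0 m1,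
        Lam 0 (fun i => ((2:ℝ) ^ m) ^ 4 * β i ^ 2) / ((2:ℝ) ^ m) ^ 3 * Real.exp (-(3 * X m)) := by
      refine Finset.single_le_sum (f := fun m =>
        Lam 0 (fun i => ((2:ℝ) ^ m) ^ 4 * β i ^ 2) / ((2:ℝ) ^ m) ^ 3 * Real.exp (-(3 * X m)))
        (fun j _ => ?_) (Finset.mem_Icc.2 ⟨hm0, hm1⟩)
      have : 0 ≤ Lam 0 (fun i => ((2:ℝ) ^ j) ^ 4 * β i ^ 2) := Lam_nonneg fun i => by positivity
      positivity
    linarith
  | succ n ih =>
    intro τ X m0 m1 B α β hτ hm hX hX4 hXτ hX0 hα hβ hβB hβ1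
    obtain ⟨K, hK⟩ : ∃ K : ℝ, K = 2 ^ (n+1) := ⟨_, rfl⟩
    have hK0 : 0 < K := by rw [hK]; positivity
    -- p, x
    obtain ⟨p, hp⟩ : ∃ p : ℤ → ℝ, p = fun m =>
      (∑ t : Fin 16, Lam n (sub (fun i : L (n+1) => ((2:ℝ) ^ m) ^ 4 * β i ^ 2) t)) / 16 := ⟨_, rfl⟩
    have hp0 : ∀ m, 0 ≤ p m := by
      intro m; rw [hp]
      exact sum16_nonneg fun t => Lam_nonneg fun i => by
        show 0 ≤ ((2:ℝ) ^ m) ^ 4 * β (t, i) ^ 2
        positivity
    have hp16 : ∀ m, p (m+1) ≤ 16 * p m := by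
      intro m; rw [hp]
      show (∑ t : Fin 16, Lam n (sub (fun i : L (n+1) => ((2:ℝ) ^ (m+1)) ^ 4 * β i ^ 2) t)) / 16 ≤
        16 * ((∑ t : Fin 16, Lam n (sub (fun i : L (n+1) => ((2:ℝ) ^ m) ^ 4 * β i ^ 2) t)) / 16)
      rw [← mul_div_assoc, Finset.mul_sum]
      refine div_le_div_of_nonneg_right (Finset.sum_le_sum fun t _ => ?_) (by norm_num)
      have h1 := Lam_mul16 (f := sub (fun i : L (n+1) => ((2:ℝ) ^ m) ^ 4 * β i ^ 2) t) (fun i => by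
        show 0 ≤ ((2:ℝ) ^ m) ^ 4 * β (t, i) ^ 2
        positivity)
      have e : (fun i => 16 * sub (fun i : L (n+1) => ((2:ℝ) ^ m) ^ 4 * β i ^ 2) t i) =
        sub (fun i : L (n+1) => ((2:ℝ) ^ (m+1)) ^ 4 * β i ^ 2) t := by
        funext i
        show 16 * (((2:ℝ) ^ m) ^ 4 * β (t, i) ^ 2) = ((2:ℝ) ^ (m+1)) ^ 4 * β (t, i) ^ 2
        rw [zpow_add₀ (by norm_num : (2:ℝ) ≠ 0), zpow_one]; ring
      rwa [e] at h1
    obtain ⟨x, hx⟩ : ∃ x : ℤ → ℝ, x = fun m => (4 * K) * √(p m) := ⟨_, rfl⟩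
    have hx0 : ∀ m, 0 ≤ x m := by intro m; rw [hx]; positivity
    have hx4 : ∀ m, x (m+1) ≤ 4 * x m := by
      intro m; rw [hx]
      show (4 * K) * √(p (m+1)) ≤ 4 * ((4 * K) * √(p m))
      have h1 : √(p (m+1)) ≤ √(16 * p m) := Real.sqrt_le_sqrt (hp16 m)
      have h2 : √(16 * p m) = 4 * √(p m) := by
        rw [Real.sqrt_mul (by norm_num)]
        congr 1
        rw [show (16:ℝ) = 4 ^ 2 by norm_num, Real.sqrt_sq (by norm_num)]
      rw [h2] at h1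
      nlinarith
    have hB0 : 0 ≤ B := by
      obtain ⟨i⟩ := instNonemptyL (n+1)
      exact (hβ i).trans (hβB i)
    have hxm0 : x m0 ≤ (4 * K) * (((2:ℝ) ^ m0) ^ 2 * B) := by
      rw [hx]
      refine mul_le_mul_of_nonneg_left ?_ (by positivity)
      have h1 : p m0 ≤ (((2:ℝ) ^ m0) ^ 2 * B) ^ 2 := by
        rw [hp]
        refine sum16_le fun t => ?_
        refine (Lam_le_av fun i => ?_).trans (av_le_of_le fun i => ?_)
        · show 0 ≤ ((2:ℝ) ^ m0) ^ 4 * β (t, i) ^ 2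
          positivity
        · show ((2:ℝ) ^ m0) ^ 4 * β (t, i) ^ 2 ≤ _
          have : β (t, i) ^ 2 ≤ B ^ 2 := pow_le_pow_left₀ (hβ _) (hβB _) 2
          calc _ ≤ ((2:ℝ) ^ m0) ^ 4 * B ^ 2 := mul_le_mul_of_nonneg_left this (by positivity)
            _ = _ := by ring
      calc √(p m0) ≤ √((((2:ℝ) ^ m0) ^ 2 * B) ^ 2) := Real.sqrt_le_sqrt h1
        _ = _ := Real.sqrt_sq (by positivity)
    -- g
    obtain ⟨G3, hG3⟩ : ∃ G3, G3 = ∑ m ∈ Finset.Icc m0 m1,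
      (if X m + x m ≤ 1 then (x m / (2:ℝ) ^ m) ^ 3 else 0) := ⟨_, rfl⟩
    have hterm0 : ∀ m ∈ Finset.Icc m0 m1, 0 ≤ (if X m + x m ≤ 1 then (x m / (2:ℝ) ^ m) ^ 3 else 0) := by
      intro m _
      split_ifs
      · have := hx0 m; positivity
      · exact le_rfl
    have hG30 : 0 ≤ G3 := by rw [hG3]; exact Finset.sum_nonneg hterm0
    obtain ⟨g0, hg0, hg3⟩ := exists_cbrt hG30
    have hxg : ∀ m, m0 ≤ m → m ≤ m1 → X m + x m ≤ 1 → x m ≤ (2:ℝ) ^ m * g0 := by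
      intro m h1 h2 h3
      have h4 : (x m / (2:ℝ) ^ m) ^ 3 ≤ g0 ^ 3 := by
        rw [hg3, hG3]
        have := Finset.single_le_sum hterm0 (Finset.mem_Icc.2 ⟨h1, h2⟩)
        rwa [if_pos h3] at this
      have h5 : x m / (2:ℝ) ^ m ≤ g0 :=
        le_of_pow_le_pow_left₀ (by norm_num) hg0 h4
      rw [div_le_iff₀ (by positivity)] at h5
      linarith
    -- apply the induction hypothesis
    have hIH := fun t : Fin 16 => ih (τ + g0) (fun m => X m + x m) m0 m1 B (sub α t) (sub β t)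
      (by positivity) hm (fun m => add_nonneg (hX m) (hx0 m))
      (fun m => by have := hX4 m; have := hx4 m; linarith)
      (fun m h1 h2 h3 => by
        have h4 := hxg m h1 h2 h3
        have h5 := hXτ m h1 h2 (by have := hx0 m; have h3' : X m + x m ≤ 1 := h3; linarith)
        rw [mul_add]; exact add_le_add h5 h4)
      (by
        show X m0 + x m0 + 8 * 2 ^ n * ((2:ℝ) ^ m0) ^ 2 * B ≤ 1
        have e : (8:ℝ) * 2 ^ (n+1) = 8 * K := by rw [hK]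
        have e2 : (8:ℝ) * 2 ^ n = 4 * K := by rw [hK, pow_succ]; ring
        rw [e] at hX0
        rw [e2]
        nlinarith)
      (fun i => hα _) (fun i => hβ _) (fun i => hβB _) (fun i => hβ1 _)
    have hsum := Finset.sum_le_sum fun t (_ : t ∈ Finset.univ) => hIH t
    rw [Finset.sum_add_distrib, Finset.sum_add_distrib, ← Finset.mul_sum, ← Finset.mul_sum,
      ← Finset.mul_sum, Finset.sum_comm] at hsum
    obtain ⟨A, hA⟩ : ∃ A, A = av (n+1) (fun i => α i ^ 2) := ⟨_, rfl⟩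
    have hA0 : 0 ≤ A := by rw [hA]; exact av_nonneg fun i => sq_nonneg _
    have e1 : ∑ t : Fin 16, av n (fun i => sub α t i ^ 2) = 16 * A := by
      rw [hA, av_succ]
      have : ∀ t : Fin 16, av n (fun i => sub α t i ^ 2) = av n (sub (fun i : L (n+1) => α i ^ 2) t) := fun t => rfl
      rw [Finset.sum_congr rfl fun t _ => this t]; ring
    have e2 : ∑ t : Fin 16, av n (fun i => sub α t i * sub β t i) = 16 * av (n+1) (fun i => α i * β i) := by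
      rw [av_succ]
      have : ∀ t : Fin 16, av n (fun i => sub α t i * sub β t i) =
        av n (sub (fun i : L (n+1) => α i * β i) t) := fun t => rfl
      rw [Finset.sum_congr rfl fun t _ => this t]; ring
    have e3 : ∑ m ∈ Finset.Icc m0 m1, ∑ t : Fin 16,
        Lam n (fun i => ((2:ℝ) ^ m) ^ 4 * sub β t i ^ 2) / ((2:ℝ) ^ m) ^ 3 * Real.exp (-(3 * (X m + x m))) =
        16 * ∑ m ∈ Finset.Icc m0 m1, p m / ((2:ℝ) ^ m) ^ 3 * Real.exp (-(3 * (X m + x m))) := by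
      rw [Finset.mul_sum]
      refine Finset.sum_congr rfl fun m _ => ?_
      rw [← Finset.sum_mul, ← Finset.sum_div, hp]
      show (∑ t : Fin 16, Lam n (sub (fun i : L (n+1) => ((2:ℝ) ^ m) ^ 4 * β i ^ 2) t)) / ((2:ℝ) ^ m) ^ 3 *
        Real.exp (-(3 * (X m + x m))) = 16 * ((∑ t : Fin 16, Lam n (sub (fun i : L (n+1) => ((2:ℝ) ^ m) ^ 4 * β i ^ 2) t)) / 16 / ((2:ℝ) ^ m) ^ 3 *
        Real.exp (-(3 * (X m + x m))))
      ring
    rw [e1, e2, e3] at hsum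
    have e4 : NN (n+1) (fun i => α i ^ 2) =
        (∑ t : Fin 16, NN n (fun i => sub α t i ^ 2)) / 16 + K * q A := by
      rw [NN_succ, hA, hK]; rfl
    rw [e4, ← hA]
    -- Young
    have hY : g0 * A ≤ 2/3 * (K * q A) + 1/3 * (G3 / K ^ 2) := by
      obtain ⟨s, hs, hAs⟩ : ∃ s : ℝ, 0 ≤ s ∧ A = s ^ 2 :=
        ⟨√A, Real.sqrt_nonneg _, (Real.sq_sqrt hA0).symm⟩
      rw [hAs, q_sq s hs, ← hg3]
      obtain ⟨y, hy⟩ : ∃ y, y = g0 / K := ⟨_, rfl⟩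
      have hy0 : 0 ≤ y := by rw [hy]; positivity
      have hgy : g0 = K * y := by rw [hy]; field_simp
      rw [hgy]
      have e : (K * y) ^ 3 / K ^ 2 = K * y ^ 3 := by field_simp
      rw [e]
      have h1 : 3 * (y * s ^ 2) ≤ 2 * s ^ 3 + y ^ 3 := by
        nlinarith [mul_nonneg hy0 (sq_nonneg (y - s)), mul_nonneg hs (sq_nonneg (y - s))]
      nlinarith [mul_le_mul_of_nonneg_left h1 hK0.le]
    -- scales
    have hscale : 120 * ∑ m ∈ Finset.Icc m0 m1, p m / ((2:ℝ) ^ m) ^ 3 * Real.exp (-(3 * (X m + x m)))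
        + 1/3 * (G3 / K ^ 2) ≤ 120 * ∑ m ∈ Finset.Icc m0 m1,
        Lam (n+1) (fun i => ((2:ℝ) ^ m) ^ 4 * β i ^ 2) / ((2:ℝ) ^ m) ^ 3 * Real.exp (-(3 * X m)) := by
      rw [hG3, Finset.sum_div, Finset.mul_sum, Finset.mul_sum, Finset.mul_sum, ← Finset.sum_add_distrib]
      refine Finset.sum_le_sum fun m _ => ?_
      have hl : T (4 * K) (p m) ≤ Lam (n+1) (fun i => ((2:ℝ) ^ m) ^ 4 * β i ^ 2) := by
        have := (Lam_step (f := fun i : L (n+1) => ((2:ℝ) ^ m) ^ 4 * β i ^ 2) (fun i => by positivity)).1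
        rw [hp, hK]; exact this
      have h1 := L_scale (X := X m) (σ := (2:ℝ) ^ m) (hp0 m) (by positivity) (hX m) (by positivity) hl
      have ex : x m = (4 * K) * √(p m) := by rw [hx]
      rw [← ex] at h1
      refine le_trans (add_le_add le_rfl ?_) h1
      split_ifs with hc
      · apply le_of_eq
        have h2 : x m ^ 2 = 16 * K ^ 2 * p m := by
          rw [ex, mul_pow, Real.sq_sqrt (hp0 m)]; ring
        have h3 : (x m / (2:ℝ) ^ m) ^ 3 = x m ^ 2 * x m / ((2:ℝ) ^ m) ^ 3 := by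
          rw [div_pow]; ring
        rw [h3, h2]
        field_simp
      · simp
    have hqA : 0 ≤ K * q A := mul_nonneg hK0.le (q_nonneg hA0)
    linarith

end Pool.Agent.H47.SQ
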