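import Pool.Agent.H47.SQ.Upper
import Pool.Agent.H47.SQ.Lower
import Pool.Agent.H47.SQ.Khin

/-! Assembly of part A: the dual of the tree space embeds in `ℓ_{3/2}`. -/

set_option autoImplicit false
set_option linter.unusedVariables false

namespace Pool.Agent.H47.SQ

lemma hasSum_congr_fun {κ : Type*} {f g : κ → ℝ} {a : ℝ} (h : ∀ k, f k = g k) (hg : HasSum g a) :
    HasSum f a := by
  have : f = g := funext h
  rwa [this]

lemma exists_q_root {r : ℝ} (h : 0 ≤ r) : ∃ ρ : ℝ, 0 ≤ ρ ∧ q ρ = r := by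
  obtain ⟨g, hg, h3⟩ := exists_cbrt h
  exact ⟨g ^ 2, sq_nonneg g, by rw [q_sq g hg, h3]⟩

/-- a fourth root -/
lemma exists_z {x : ℝ} (hx : 0 < x) : ∃ z : ℝ, 0 < z ∧ x = z ^ 4 ∧ q (√x) = z ^ 3 := by
  refine ⟨√(√x), Real.sqrt_pos.2 (Real.sqrt_pos.2 hx), ?_, ?_⟩
  · have h1 : √(√x) ^ 2 = √x := Real.sq_sqrt (Real.sqrt_nonneg x)
    have h2 : √x ^ 2 = x := Real.sq_sqrt hx.le
    calc x = (√(√x) ^ 2) ^ 2 := by rw [h1, h2]
      _ = _ := by ring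
  · have h1 : √(√x) ^ 2 = √x := Real.sq_sqrt (Real.sqrt_nonneg x)
    unfold q
    calc √x * √(√x) = √(√x) ^ 2 * √(√x) := by rw [h1]
      _ = _ := by ring

lemma min_term {n z σ : ℝ} (hz : 0 < z) (hσ : 0 < σ) (h1 : n ≤ 1) (h2 : n ≤ σ ^ 4 * z ^ 4) :
    n / σ ^ 3 ≤ z ^ 3 * min (σ * z) (1 / (σ * z)) := by
  obtain ⟨P, hP⟩ : ∃ P, P = σ * z := ⟨_, rfl⟩
  have hP0 : 0 < P := by rw [hP]; positivity
  rw [← hP, mul_min_of_nonneg _ _ (by positivity)]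
  rcases le_or_gt P 1 with h | h
  · refine le_min ?_ ?_
    · rw [div_le_iff₀ (by positivity)]
      refine h2.trans (le_of_eq ?_)
      rw [hP]; ring
    · rw [div_le_iff₀ (by positivity)]
      refine h2.trans ?_
      have : z ^ 3 * (1 / P) * σ ^ 3 = P ^ 2 := by rw [hP]; field_simp
      rw [this]
      have e : σ ^ 4 * z ^ 4 = P ^ 4 := by rw [hP]; ring
      rw [e]
      exact pow_le_pow_of_le_one hP0.le h (by norm_num)
  · have hkey : n / σ ^ 3 ≤ z ^ 3 * (1 / P) := by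
      rw [div_le_iff₀ (by positivity)]
      have : z ^ 3 * (1 / P) * σ ^ 3 = P ^ 2 := by rw [hP]; field_simp
      rw [this]
      refine h1.trans (one_le_pow₀ h.le)
    refine le_min (hkey.trans ?_) hkey
    refine mul_le_mul_of_nonneg_left ?_ (by positivity)
    rw [div_le_iff₀ hP0]; nlinarith

lemma S_bound {x : ℝ} (hx : 0 ≤ x) (M : Finset ℤ) (n : ℤ → ℝ) (h1 : ∀ m, n m ≤ 1)
    (h2 : ∀ m, n m ≤ ((2:ℝ) ^ m) ^ 4 * x) :
    ∑ m ∈ M, n m / ((2:ℝ) ^ m) ^ 3 ≤ 6 * q (√x) := by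
  rcases hx.eq_or_lt with h | hx
  · subst h
    have e : q (√0) = 0 := by simp [q]
    rw [e, mul_zero]
    refine Finset.sum_nonpos fun m _ => ?_
    refine div_nonpos_of_nonpos_of_nonneg ?_ (by positivity)
    have := h2 m
    simpa using this
  · obtain ⟨z, hz, hxz, hq⟩ := exists_z hx
    rw [hq]
    have h3 := Finset.sum_le_sum fun m (_ : m ∈ M) =>
      min_term (n := n m) (σ := (2:ℝ) ^ m) hz (by positivity) (h1 m) (hxz ▸ h2 m)
    rw [← Finset.mul_sum] at h3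
    have h4 := mul_le_mul_of_nonneg_left (Zsum M hz) (show 0 ≤ z ^ 3 by positivity)
    linarith

lemma S_upper {x : ℝ} (hx : 0 ≤ x) (M : Finset ℤ) :
    ∑ m ∈ M, (1 - Real.exp (-(((2:ℝ) ^ m) ^ 4 * x))) / ((2:ℝ) ^ m) ^ 3 ≤ 6 * q (√x) := by
  refine S_bound hx M _ (fun m => ?_) (fun m => ?_)
  · have := Real.exp_pos (-(((2:ℝ) ^ m) ^ 4 * x)); linarith
  · have := Real.add_one_le_exp (-(((2:ℝ) ^ m) ^ 4 * x)); linarith

lemma S_lower {x : ℝ} (hx : 0 ≤ x) :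
    ∃ m : ℤ, q (√x) ≤ 13 * ((1 - Real.exp (-(((2:ℝ) ^ m) ^ 4 * x))) / ((2:ℝ) ^ m) ^ 3) := by
  rcases hx.eq_or_lt with h | hx
  · subst h
    exact ⟨0, by simp [q]⟩
  · obtain ⟨z, hz, hxz, hq⟩ := exists_z hx
    obtain ⟨n, hn1, hn2⟩ := exists_mem_Ico_zpow (show 0 < 1 / z by positivity) (by norm_num : (1:ℝ) < 2)
    refine ⟨n + 1, ?_⟩
    obtain ⟨σ, hσ⟩ : ∃ σ, σ = (2:ℝ) ^ (n+1) := ⟨_, rfl⟩
    have hσ0 : 0 < σ := by rw [hσ]; positivity
    have h1 : 1 ≤ σ * z := by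
      rw [← hσ, div_lt_iff₀ hz] at hn2; linarith
    have h2 : σ * z ≤ 2 := by
      have : σ = 2 * 2 ^ n := by
        rw [hσ, zpow_add₀ (by norm_num : (2:ℝ) ≠ 0), zpow_one]; ring
      rw [le_div_iff₀ hz] at hn1
      rw [this]; linarith
    rw [← hσ, hq, hxz]
    have h3 : 1 ≤ σ ^ 4 * z ^ 4 := by
      rw [← mul_pow]; exact one_le_pow₀ h1
    have h4 := one_sub_exp_ge_of_ge h3
    have h5 : z ^ 3 / 8 ≤ 1 / σ ^ 3 := by
      rw [div_le_div_iff₀ (by norm_num) (by positivity), ← mul_pow, one_mul, mul_comm z σ]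
      calc (σ * z) ^ 3 ≤ 2 ^ 3 := pow_le_pow_left₀ (by positivity) h2 3
        _ = 8 := by norm_num
    have h6 : 0.632 * (1 / σ ^ 3) ≤ (1 - Real.exp (-(σ ^ 4 * z ^ 4))) / σ ^ 3 := by
      rw [mul_one_div]
      exact div_le_div_of_nonneg_right h4 (by positivity)
    have h7 : 0 < z ^ 3 := by positivity
    linarith

section
variable {H : ℕ} {κ : Type} {μ : κ → ℝ} {y : κ → L H → ℕ}

lemma rep_sum (hrep : ∀ f : L H → ℝ, (∀ i, 0 ≤ f i) →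
      HasSum (fun k => μ k * (1 - Real.exp (-∑ i, (y k i : ℝ) * f i))) (Lam H f))
    {f : L H → ℝ} (hf : ∀ i, 0 ≤ f i) (M : Finset ℤ) :
    HasSum (fun k => μ k * ∑ m ∈ M, (1 - Real.exp (-(((2:ℝ) ^ m) ^ 4 * ∑ i, (y k i : ℝ) * f i))) / ((2:ℝ) ^ m) ^ 3)
      (∑ m ∈ M, Lam H (fun i => ((2:ℝ) ^ m) ^ 4 * f i) / ((2:ℝ) ^ m) ^ 3) := by
  have h := hasSum_sum (s := M) (fun m _ =>
    (hrep (fun i => ((2:ℝ) ^ m) ^ 4 * f i) (fun i => mul_nonneg (by positivity) (hf i))).div_const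
      (((2:ℝ) ^ m) ^ 3))
  refine hasSum_congr_fun (fun k => ?_) h
  rw [Finset.mul_sum]
  refine Finset.sum_congr rfl fun m _ => ?_
  have : ∑ i, (y k i : ℝ) * (((2:ℝ) ^ m) ^ 4 * f i) = ((2:ℝ) ^ m) ^ 4 * ∑ i, (y k i : ℝ) * f i := by
    rw [Finset.mul_sum]; exact Finset.sum_congr rfl fun i _ => by ring
  rw [this]; ring

lemma rep_bound (hμ : ∀ k, 0 ≤ μ k) (hrep : ∀ f : L H → ℝ, (∀ i, 0 ≤ f i) →
      HasSum (fun k => μ k * (1 - Real.exp (-∑ i, (y k i : ℝ) * f i))) (Lam H f))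
    {f : L H → ℝ} (hf : ∀ i, 0 ≤ f i) {D : ℝ}
    (hD : ∀ M : Finset ℤ, ∑ m ∈ M, Lam H (fun i => ((2:ℝ) ^ m) ^ 4 * f i) / ((2:ℝ) ^ m) ^ 3 ≤ D) :
    Summable (fun k => μ k * q (√(∑ i, (y k i : ℝ) * f i))) ∧
    ∑' k, μ k * q (√(∑ i, (y k i : ℝ) * f i)) ≤ 13 * D := by
  have hx : ∀ k, 0 ≤ ∑ i, (y k i : ℝ) * f i := fun k =>
    Finset.sum_nonneg fun i _ => mul_nonneg (Nat.cast_nonneg _) (hf i)
  have hS : ∀ (x : ℝ) (m : ℤ), 0 ≤ x → 0 ≤ (1 - Real.exp (-(((2:ℝ) ^ m) ^ 4 * x))) / ((2:ℝ) ^ m) ^ 3 := by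
    intro x m hx
    refine div_nonneg ?_ (by positivity)
    have : Real.exp (-(((2:ℝ) ^ m) ^ 4 * x)) ≤ 1 := Real.exp_le_one_iff.2 (by
      have : 0 ≤ ((2:ℝ) ^ m) ^ 4 * x := by positivity
      linarith)
    linarith
  have key : ∀ F : Finset κ, ∑ k ∈ F, μ k * q (√(∑ i, (y k i : ℝ) * f i)) ≤ 13 * D := by
    intro F
    choose mm hmm using fun k => S_lower (hx k)
    have h1 := rep_sum hrep hf (F.image mm)
    have h2 := sum_le_hasSum F (fun k _ => mul_nonneg (hμ k)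
      (Finset.sum_nonneg fun m _ => hS _ m (hx k))) h1
    have h3 : ∑ k ∈ F, μ k * q (√(∑ i, (y k i : ℝ) * f i)) ≤ 13 * ∑ k ∈ F, μ k *
        ∑ m ∈ F.image mm, (1 - Real.exp (-(((2:ℝ) ^ m) ^ 4 * ∑ i, (y k i : ℝ) * f i))) / ((2:ℝ) ^ m) ^ 3 := by
      rw [Finset.mul_sum]
      refine Finset.sum_le_sum fun k hk => ?_
      have h4 := Finset.single_le_sum (f := fun m =>
        (1 - Real.exp (-(((2:ℝ) ^ m) ^ 4 * ∑ i, (y k i : ℝ) * f i))) / ((2:ℝ) ^ m) ^ 3)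
        (s := F.image mm) (fun m _ => hS _ m (hx k)) (Finset.mem_image_of_mem mm hk)
      have h5 := (hmm k).trans (mul_le_mul_of_nonneg_left h4 (by norm_num : (0:ℝ) ≤ 13))
      have h6 := mul_le_mul_of_nonneg_left h5 (hμ k)
      refine h6.trans (le_of_eq ?_)
      ring
    have := hD (F.image mm)
    linarith
  have hs : Summable (fun k => μ k * q (√(∑ i, (y k i : ℝ) * f i))) :=
    summable_of_sum_le (fun k => mul_nonneg (hμ k) (q_nonneg (Real.sqrt_nonneg _))) key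
  exact ⟨hs, hasSum_le_of_sum_le hs.hasSum key⟩

lemma crude_bound {f : L H → ℝ} (hf : ∀ i, 0 ≤ f i) (M : Finset ℤ) :
    ∑ m ∈ M, Lam H (fun i => ((2:ℝ) ^ m) ^ 4 * f i) / ((2:ℝ) ^ m) ^ 3 ≤ 6 * q (√(av H f)) := by
  have h0 : ∀ (m : ℤ) (i : L H), 0 ≤ ((2:ℝ) ^ m) ^ 4 * f i := fun m i =>
    mul_nonneg (by positivity) (hf i)
  refine S_bound (av_nonneg hf) M (fun m => Lam H (fun i => ((2:ℝ) ^ m) ^ 4 * f i))
    (fun m => Lam_le_one (h0 m)) (fun m => ?_)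
  have := Lam_le_av (h0 m)
  rwa [av_const_mul] at this

end

lemma hasSum_prod_fin {κ Θ : Type} [Fintype Θ] {F : κ × Θ → ℝ} (h0 : ∀ x, 0 ≤ F x) {a : ℝ}
    (h : HasSum (fun k => ∑ θ, F (k, θ)) a) : HasSum F a := by
  have hs : Summable F := (summable_prod_of_nonneg h0).2
    ⟨fun k => (hasSum_fintype _).summable, by simpa [tsum_fintype] using h.summable⟩
  have h2 := hs.hasSum.prod_fiberwise (fun k => hasSum_fintype (fun θ => F (k, θ)))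
  have h3 := h2.unique h
  rw [← h3]; exact hs.hasSum

lemma exists_m1 {H : ℕ} (b : L H → ℝ) (m0 : ℤ) :
    ∃ m1 : ℤ, m0 ≤ m1 ∧ ∀ i, b i = 0 ∨ 1 ≤ ((2:ℝ) ^ m1) ^ 4 * b i ^ 2 := by
  have h1 : ∀ i, ∃ n : ℕ, b i = 0 ∨ 1 ≤ ((2:ℝ) ^ n) * b i ^ 2 := by
    intro i
    by_cases h : b i = 0
    · exact ⟨0, Or.inl h⟩
    · have hb : 0 < b i ^ 2 := by positivity
      obtain ⟨n, hn⟩ := pow_unbounded_of_one_lt (1 / b i ^ 2) (by norm_num : (1:ℝ) < 2)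
      refine ⟨n, Or.inr ?_⟩
      rw [div_lt_iff₀ hb] at hn
      exact hn.le
  choose n hn using h1
  refine ⟨max m0 ((Finset.univ.sup n : ℕ) : ℤ), le_max_left _ _, fun i => ?_⟩
  rcases hn i with h | h
  · exact Or.inl h
  · refine Or.inr (h.trans (mul_le_mul_of_nonneg_right ?_ (sq_nonneg _)))
    have h2 : (2:ℝ) ^ n i ≤ (2:ℝ) ^ (max m0 ((Finset.univ.sup n : ℕ) : ℤ)) := by
      rw [← zpow_natCast]
      refine zpow_le_zpow_right₀ (by norm_num) ((Int.ofNat_le.2 ?_).trans (le_max_right _ _))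
      exact Finset.le_sup (Finset.mem_univ i)
    have h3 : (1:ℝ) ≤ (2:ℝ) ^ (max m0 ((Finset.univ.sup n : ℕ) : ℤ)) := by
      have : (1:ℝ) ≤ 2 ^ n i := one_le_pow₀ (by norm_num)
      linarith
    refine h2.trans ?_
    exact le_self_pow₀ h3 (by norm_num)

lemma exists_m0 (H : ℕ) {B : ℝ} (hB : 0 ≤ B) : ∃ m0 : ℤ, 0 + 8 * 2 ^ H * ((2:ℝ) ^ m0) ^ 2 * B ≤ 1 := by
  obtain ⟨n, hn⟩ := pow_unbounded_of_one_lt (8 * 2 ^ H * B) (by norm_num : (1:ℝ) < 2)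
  refine ⟨-n, ?_⟩
  rw [zpow_neg, zpow_natCast, zero_add]
  have h1 : (1:ℝ) ≤ 2 ^ n := one_le_pow₀ (by norm_num)
  have h2 : ((2:ℝ) ^ n)⁻¹ ^ 2 ≤ ((2:ℝ) ^ n)⁻¹ := by
    have : ((2:ℝ) ^ n)⁻¹ ≤ 1 := inv_le_one_of_one_le₀ h1
    have h0 : 0 ≤ ((2:ℝ) ^ n)⁻¹ := by positivity
    nlinarith
  calc 8 * 2 ^ H * ((2:ℝ) ^ n)⁻¹ ^ 2 * B = (8 * 2 ^ H * B) * ((2:ℝ) ^ n)⁻¹ ^ 2 := by ring
    _ ≤ (8 * 2 ^ H * B) * ((2:ℝ) ^ n)⁻¹ := mul_le_mul_of_nonneg_left h2 (by positivity)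
    _ ≤ 2 ^ n * ((2:ℝ) ^ n)⁻¹ := mul_le_mul_of_nonneg_right hn.le (by positivity)
    _ = 1 := by field_simp

/-- PART A. -/
theorem partA : ∃ C : ℝ, 0 < C ∧ ∀ H : ℕ, ∃ w : ℕ → L H → ℝ,
    (∀ b : L H → ℝ, Summable (fun k => q |∑ i, b i * w k i|)) ∧
    (∀ a : L H → ℝ, ∃ b : L H → ℝ, ∑ i, a i * b i = N H (fun i => a i ^ 2) ∧
      ∑' k, q |∑ i, b i * w k i| ≤ C * N H (fun i => a i ^ 2)) ∧
    (∀ a b : L H → ℝ, |∑ i, a i * b i| ≤ C * N H (fun i => a i ^ 2) +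
      C * ∑' k, q |∑ i, b i * w k i|) := by
  refine ⟨100000, by norm_num, fun H => ?_⟩
  obtain ⟨κ, hκ, μ, y, hμ, hrep⟩ := Lam_rep H
  obtain ⟨c2, hc2⟩ : ∃ c2 : ℝ, c2 = 2 ^ Fintype.card (L H) := ⟨_, rfl⟩
  have hc20 : 0 < c2 := by rw [hc2]; positivity
  have hρ : ∀ k, ∃ ρ : ℝ, 0 ≤ ρ ∧ q ρ = 16 ^ H * μ k / c2 := fun k =>
    exists_q_root (div_nonneg (mul_nonneg (by positivity) (hμ k)) hc20.le)
  choose ρ hρ0 hρq using hρ
  -- the vectors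
  obtain ⟨W, hW⟩ : ∃ W : κ × (L H → Bool) → L H → ℝ,
    W = fun x i => ρ x.1 * (sg (x.2 i) * √(y x.1 i)) := ⟨_, rfl⟩
  obtain ⟨e, he⟩ := exists_injective_nat (κ × (L H → Bool))
  obtain ⟨w, hw⟩ : ∃ w : ℕ → L H → ℝ, w = Function.extend e W (fun _ _ => 0) := ⟨_, rfl⟩
  -- reindexing
  have hre : ∀ (b : L H → ℝ) (a : ℝ), HasSum (fun x => q |∑ i, b i * W x i|) a ↔
      HasSum (fun k => q |∑ i, b i * w k i|) a := by
    intro b a
    have h1 := he.hasSum_iff (f := fun k => q |∑ i, b i * w k i|) (a := a) (fun k hk => by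
      have : w k = fun _ => 0 := by
        rw [hw]
        exact Function.extend_apply' _ _ _ (fun ⟨x, hx⟩ => hk ⟨x, hx⟩)
      rw [this]; simp [q])
    rw [← h1]
    have h2 : ((fun k => q |∑ i, b i * w k i|) ∘ e) = fun x => q |∑ i, b i * W x i| := by
      funext x
      show q |∑ i, b i * w (e x) i| = _
      rw [hw, he.extend_apply]
    rw [h2]
  -- sums over signs
  obtain ⟨A, hA⟩ : ∃ A : (L H → ℝ) → κ → ℝ,
    A = fun b k => Ea (fun θ => q |RX Finset.univ (fun i => b i * √(y k i)) θ|) := ⟨_, rfl⟩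
  have hfib : ∀ (b : L H → ℝ) (k : κ), ∑ θ, q |∑ i, b i * W (k, θ) i| = 16 ^ H * (μ k * A b k) := by
    intro b k
    have h1 : ∀ θ : L H → Bool, q |∑ i, b i * W (k, θ) i| =
        (16 ^ H * μ k / c2) * q |RX Finset.univ (fun i => b i * √(y k i)) θ| := by
      intro θ
      have h2 : ∑ i, b i * W (k, θ) i = ρ k * RX Finset.univ (fun i => b i * √(y k i)) θ := by
        rw [hW]; unfold RX
        rw [Finset.mul_sum]
        exact Finset.sum_congr rfl fun i _ => by ring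
      rw [h2, abs_mul, abs_of_nonneg (hρ0 k), q_mul (hρ0 k), hρq]
    rw [Finset.sum_congr rfl fun θ _ => h1 θ, ← Finset.mul_sum, hA]
    unfold Ea
    rw [← hc2]; ring
  have hx : ∀ (b : L H → ℝ) (k : κ), 0 ≤ ∑ i, (y k i : ℝ) * b i ^ 2 := fun b k =>
    Finset.sum_nonneg fun i _ => mul_nonneg (Nat.cast_nonneg _) (sq_nonneg _)
  have hσ : ∀ (b : L H → ℝ) (k : κ), ∑ i ∈ Finset.univ, (b i * √(y k i)) ^ 2 =
      √(∑ i, (y k i : ℝ) * b i ^ 2) ^ 2 := by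
    intro b k
    rw [Real.sq_sqrt (hx b k)]
    refine Finset.sum_congr rfl fun i _ => ?_
    rw [mul_pow, Real.sq_sqrt (Nat.cast_nonneg _), mul_comm]
  have hA1 : ∀ b k, A b k ≤ q (√(∑ i, (y k i : ℝ) * b i ^ 2)) := by
    intro b k; rw [hA]
    exact Kh_upper _ _ _ (Real.sqrt_nonneg _) (hσ b k)
  have hA2 : ∀ b k, 7/10 * q (√(∑ i, (y k i : ℝ) * b i ^ 2)) ≤ A b k := by
    intro b k; rw [hA]
    exact Kh_lower _ _ _ (Real.sqrt_nonneg _) (hσ b k)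
  have hA0 : ∀ b k, 0 ≤ A b k := fun b k =>
    le_trans (mul_nonneg (by norm_num) (q_nonneg (Real.sqrt_nonneg _))) (hA2 b k)
  have hsumA : ∀ b : L H → ℝ, Summable (fun k => μ k * q (√(∑ i, (y k i : ℝ) * b i ^ 2))) :=
    fun b => (rep_bound hμ hrep (fun i => sq_nonneg (b i)) (crude_bound fun i => sq_nonneg (b i))).1
  have hsumA' : ∀ b : L H → ℝ, Summable (fun k => μ k * A b k) := fun b =>
    Summable.of_nonneg_of_le (fun k => mul_nonneg (hμ k) (hA0 b k))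
      (fun k => mul_le_mul_of_nonneg_left (hA1 b k) (hμ k)) (hsumA b)
  have hWN : ∀ b : L H → ℝ, HasSum (fun k => q |∑ i, b i * w k i|) (16 ^ H * ∑' k, μ k * A b k) := by
    intro b
    rw [← hre]
    refine hasSum_prod_fin (fun x => q_nonneg (abs_nonneg _)) ?_
    exact hasSum_congr_fun (fun k => hfib b k) ((hsumA' b).hasSum.mul_left (16 ^ H))
  refine ⟨w, fun b => (hWN b).summable, fun a => ?_, fun a b => ?_⟩
  · -- (W2)
    obtain ⟨c, hc⟩ : ∃ c : L H → ℝ, c = fun i => a i ^ 2 := ⟨_, rfl⟩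
    have hc0 : ∀ i, 0 ≤ c i := fun i => by rw [hc]; positivity
    refine ⟨fun i => a i * GG H 0 c i, ?_, ?_⟩
    · have h1 := av_GG H 0 c hc0
      rw [zero_mul, zero_add, av_eq] at h1
      rw [← hc, N_eq, ← h1, hc]
      field_simp
    · rw [(hWN _).tsum_eq, ← hc, N_eq]
      have hb2 : ∀ i, (a i * GG H 0 c i) ^ 2 = c i * GG H 0 c i ^ 2 := by
        intro i; rw [mul_pow, hc]
      have h1 := (rep_bound hμ hrep (f := fun i => (a i * GG H 0 c i) ^ 2)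
        (fun i => sq_nonneg _) (D := 6912 * NN H c) (fun M => by
          have := U_top H c hc0 M
          simp only [hb2]; exact this)).2
      have h2 : ∑' k, μ k * A (fun i => a i * GG H 0 c i) k ≤
          ∑' k, μ k * q (√(∑ i, (y k i : ℝ) * (a i * GG H 0 c i) ^ 2)) :=
        (hsumA' _).tsum_le_tsum (fun k => mul_le_mul_of_nonneg_left (hA1 _ k) (hμ k)) (hsumA _)
      have hN := NN_nonneg hc0
      have h16 : (0:ℝ) < 16 ^ H := by positivity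
      have h3 : ∑' k, μ k * A (fun i => a i * GG H 0 c i) k ≤ 100000 * NN H c := by linarith
      calc _ ≤ 16 ^ H * (100000 * NN H c) := mul_le_mul_of_nonneg_left h3 h16.le
        _ = _ := by ring
  · -- (W3)
    rw [(hWN b).tsum_eq, N_eq]
    have h16 : (0:ℝ) < 16 ^ H := by positivity
    obtain ⟨B, hB⟩ : ∃ B, B = ∑ i, |b i| := ⟨_, rfl⟩
    have hB0 : 0 ≤ B := by rw [hB]; exact Finset.sum_nonneg fun i _ => abs_nonneg _
    have hbB : ∀ i, |b i| ≤ B := fun i => by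
      rw [hB]; exact Finset.single_le_sum (fun j _ => abs_nonneg (b j)) (Finset.mem_univ i)
    obtain ⟨m0, hm0⟩ := exists_m0 H hB0
    obtain ⟨m1, hm1, hm1'⟩ := exists_m1 b m0
    have hL := L_dual H 0 (fun _ => 0) m0 m1 B (fun i => |a i|) (fun i => |b i|) le_rfl hm1
      (fun _ => le_rfl) (fun _ => by simp) (fun m _ _ _ => by simp) hm0 (fun i => abs_nonneg _)
      (fun i => abs_nonneg _) hbB (fun i => by
        rcases hm1' i with h | h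
        · exact Or.inl (abs_eq_zero.2 h)
        · exact Or.inr (by rw [sq_abs]; exact h))
    simp only [sq_abs, mul_zero, neg_zero, Real.exp_zero, mul_one, zero_mul, zero_add] at hL
    -- representation
    have h1 := rep_sum hrep (f := fun i => b i ^ 2) (fun i => sq_nonneg _) (Finset.Icc m0 m1)
    have h2 : ∑ m ∈ Finset.Icc m0 m1, Lam H (fun i => ((2:ℝ) ^ m) ^ 4 * b i ^ 2) / ((2:ℝ) ^ m) ^ 3 ≤
        6 * ∑' k, μ k * q (√(∑ i, (y k i : ℝ) * b i ^ 2)) := by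
      have h3 := (hsumA b).hasSum.mul_left 6
      refine hasSum_le (fun k => ?_) h1 h3
      have h4 := mul_le_mul_of_nonneg_left (S_upper (hx b k) (Finset.Icc m0 m1)) (hμ k)
      refine h4.trans (le_of_eq ?_)
      ring
    have h3 : 7/10 * ∑' k, μ k * q (√(∑ i, (y k i : ℝ) * b i ^ 2)) ≤ ∑' k, μ k * A b k := by
      have h4 := (hsumA b).hasSum.mul_left (7/10)
      refine hasSum_le (fun k => ?_) h4 (hsumA' b).hasSum
      calc 7/10 * (μ k * q (√(∑ i, (y k i : ℝ) * b i ^ 2))) =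
          μ k * (7/10 * q (√(∑ i, (y k i : ℝ) * b i ^ 2))) := by ring
        _ ≤ _ := mul_le_mul_of_nonneg_left (hA2 b k) (hμ k)
    have h4 : |∑ i, a i * b i| ≤ 16 ^ H * av H (fun i => |a i| * |b i|) := by
      rw [av_eq, mul_div_cancel₀ _ h16.ne']
      refine (Finset.abs_sum_le_sum_abs _ _).trans (le_of_eq ?_)
      exact Finset.sum_congr rfl fun i _ => abs_mul _ _
    have hNN : 0 ≤ NN H (fun i => a i ^ 2) := NN_nonneg fun i => sq_nonneg _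
    have hT : 0 ≤ ∑' k, μ k * A b k := tsum_nonneg fun k => mul_nonneg (hμ k) (hA0 b k)
    have h5 : av H (fun i => |a i| * |b i|) ≤ 100000 * NN H (fun i => a i ^ 2) +
        100000 * ∑' k, μ k * A b k := by linarith
    calc _ ≤ 16 ^ H * av H (fun i => |a i| * |b i|) := h4
      _ ≤ 16 ^ H * (100000 * NN H (fun i => a i ^ 2) + 100000 * ∑' k, μ k * A b k) :=
        mul_le_mul_of_nonneg_left h5 h16.le
      _ = _ := by ring

end Pool.Agent.H47.SQ
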