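import Pool.Agent.H47.SQ.Defs

/-! The maps `T_w(x) = x / (1 + w √x)^2`. -/

set_option autoImplicit false

namespace Pool.Agent.H47.SQ

noncomputable def T (w x : ℝ) : ℝ := x / (1 + w * √x) ^ 2

lemma T_nonneg {w x : ℝ} (hx : 0 ≤ x) : 0 ≤ T w x := by
  unfold T; positivity

lemma one_le_den {w x : ℝ} (hw : 0 ≤ w) : 1 ≤ 1 + w * √x := by
  have := mul_nonneg hw (Real.sqrt_nonneg x); linarith

lemma T_le_self {w x : ℝ} (hw : 0 ≤ w) (hx : 0 ≤ x) : T w x ≤ x := by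
  unfold T
  have h := one_le_den (x := x) hw
  exact div_le_self hx (by nlinarith)

lemma sqrt_T {w x : ℝ} (hw : 0 ≤ w) : √(T w x) = √x / (1 + w * √x) := by
  unfold T
  have h := one_le_den (x := x) hw
  rw [Real.sqrt_div' _ (by positivity), Real.sqrt_sq (by linarith)]

lemma T_zero_left (x : ℝ) : T 0 x = x := by simp [T]

lemma T_comp {w v x : ℝ} (hw : 0 ≤ w) (hv : 0 ≤ v) : T w (T v x) = T (v + w) x := by
  have h := one_le_den (x := x) hv
  have h2 := one_le_den (x := x) (add_nonneg hv hw)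
  have e : T w (T v x) = T v x / (1 + w * √(T v x)) ^ 2 := rfl
  rw [e, sqrt_T hv]
  unfold T
  have h3 : (1 + v * √x) ≠ 0 := by linarith
  have h4 : (1 + (v + w) * √x) ≠ 0 := by linarith
  have e2 : 1 + w * (√x / (1 + v * √x)) = (1 + (v + w) * √x) / (1 + v * √x) := by
    field_simp; ring
  rw [e2]
  field_simp

lemma T_mono {w x y : ℝ} (hw : 0 ≤ w) (hx : 0 ≤ x) (hxy : x ≤ y) : T w x ≤ T w y := by
  have hy : 0 ≤ y := hx.trans hxy
  have h1 := one_le_den (x := x) hw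
  have h2 := one_le_den (x := y) hw
  have hs : √x ≤ √y := Real.sqrt_le_sqrt hxy
  have h0 := Real.sqrt_nonneg x
  have key : √(T w x) ≤ √(T w y) := by
    rw [sqrt_T hw, sqrt_T hw, div_le_div_iff₀ (by linarith) (by linarith)]
    nlinarith
  have := Real.sqrt_le_sqrt_iff (x := T w x) (y := T w y) (T_nonneg hy)
  exact this.1 key

/-- tangent line bound -/
lemma T_le_tangent {w x u : ℝ} (hw : 0 < w) (hx : 0 ≤ x) (hu : 0 ≤ u) :
    T w x ≤ (x + u ^ 3 / w ^ 2) / (1 + u) ^ 3 := by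
  unfold T
  obtain ⟨s, hs0, hs⟩ : ∃ s : ℝ, 0 ≤ s ∧ x = s ^ 2 := ⟨√x, Real.sqrt_nonneg x, (Real.sq_sqrt hx).symm⟩
  subst hs
  rw [Real.sqrt_sq hs0]
  have h1 : 0 < 1 + w * s := by positivity
  have h2 : 0 < 1 + u := by linarith
  have e : s ^ 2 + u ^ 3 / w ^ 2 = ((w * s) ^ 2 + u ^ 3) / w ^ 2 := by field_simp
  have e2 : s ^ 2 = (w * s) ^ 2 / w ^ 2 := by field_simp
  rw [e, div_div, e2, div_div, div_le_div_iff₀ (by positivity) (by positivity)]
  obtain ⟨t, ht⟩ : ∃ t, t = w * s := ⟨_, rfl⟩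
  have ht0 : 0 ≤ t := by rw [ht]; positivity
  rw [← ht]
  have key : t ^ 2 * (1 + u) ^ 3 ≤ (t ^ 2 + u ^ 3) * (1 + t) ^ 2 := by
    -- difference = (t - u)^2 * something nonnegative
    nlinarith [mul_nonneg ht0 hu, sq_nonneg (t - u), mul_nonneg (sq_nonneg (t - u)) hu,
      mul_nonneg (sq_nonneg (t-u)) ht0, mul_nonneg (mul_nonneg (sq_nonneg (t-u)) ht0) hu,
      mul_nonneg (sq_nonneg (t-u)) (sq_nonneg t), pow_nonneg ht0 3, pow_nonneg hu 3,
      mul_nonneg (mul_nonneg (sq_nonneg (t-u)) ht0) ht0]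
  have hw2 : 0 < w ^ 2 := by positivity
  nlinarith [mul_le_mul_of_nonneg_left key hw2.le]

lemma T_ge_exp {w x : ℝ} (hw : 0 ≤ w) (hx : 0 ≤ x) : x * Real.exp (-(2 * (w * √x))) ≤ T w x := by
  unfold T
  have h1 := one_le_den (x := x) hw
  have h2 : (1 + w * √x) ^ 2 ≤ Real.exp (2 * (w * √x)) := by
    have : Real.exp (2 * (w * √x)) = (Real.exp (w * √x)) ^ 2 := by
      rw [← Real.exp_nat_mul]; norm_num
    rw [this]
    have h3 : 1 + w * √x ≤ Real.exp (w * √x) := by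
      have := Real.add_one_le_exp (w * √x); linarith
    exact pow_le_pow_left₀ (by linarith) h3 2
  rw [Real.exp_neg, ← div_eq_mul_inv]
  exact div_le_div_of_nonneg_left hx (by positivity) h2

lemma q_nonneg {x : ℝ} (hx : 0 ≤ x) : 0 ≤ q x := mul_nonneg hx (Real.sqrt_nonneg x)

lemma q_sq (s : ℝ) (hs : 0 ≤ s) : q (s ^ 2) = s ^ 3 := by
  unfold q; rw [Real.sqrt_sq hs]; ring

lemma N_nonneg {H : ℕ} {c : L H → ℝ} (hc : ∀ i, 0 ≤ c i) : 0 ≤ N H c := by
  induction H with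
  | zero => exact q_nonneg (hc _)
  | succ n ih =>
    rw [N_succ]
    have h1 : 0 ≤ q (∑ i, c i) := q_nonneg (Finset.sum_nonneg fun i _ => hc i)
    have h2 : 0 ≤ ∑ t : Fin 16, N n (sub c t) := Finset.sum_nonneg fun t _ => ih fun i => hc _
    positivity

end Pool.Agent.H47.SQ
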