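import Pool.Agent.H47.SQ.Lam

/-! The upper estimate (U). -/

set_option autoImplicit false
set_option linter.unusedVariables false

namespace Pool.Agent.H47.SQ

/-- the multiplier `G = τ + ∑_l 2^l (E_l c)^{1/2}` -/
noncomputable def GG : (H : ℕ) → ℝ → (L H → ℝ) → L H → ℝ
  | 0, τ, c => fun _ => τ + √(c ())
  | (H+1), τ, c => fun i => GG H (τ + 2 ^ (H+1) * √(av (H+1) c)) (sub c (i : Fin 16 × L H).1)
      (i : Fin 16 × L H).2

lemma GG_zero (τ : ℝ) (c : L 0 → ℝ) (i : L 0) : GG 0 τ c i = τ + √(c ()) := rfl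

lemma sub_GG (H : ℕ) (τ : ℝ) (c : L (H+1) → ℝ) (t : Fin 16) :
    sub (GG (H+1) τ c) t = GG H (τ + 2 ^ (H+1) * √(av (H+1) c)) (sub c t) := rfl

lemma GG_nonneg {H : ℕ} {τ : ℝ} {c : L H → ℝ} (hτ : 0 ≤ τ) (i : L H) : 0 ≤ GG H τ c i := by
  induction H generalizing τ with
  | zero => rw [GG_zero]; positivity
  | succ n ih =>
    exact ih (τ := τ + 2 ^ (n+1) * √(av (n+1) c)) (c := sub c (i : Fin 16 × L n).1) (by positivity)
      (i : Fin 16 × L n).2

lemma av_GG (H : ℕ) (τ : ℝ) (c : L H → ℝ) (hc : ∀ i, 0 ≤ c i) :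
    av H (fun i => c i * GG H τ c i) = τ * av H c + NN H c := by
  induction H generalizing τ with
  | zero =>
    show c () * (τ + √(c ())) = τ * c () + q (c ())
    unfold q; ring
  | succ n ih =>
    rw [av_succ, NN_succ]
    have h : ∀ t : Fin 16, av n (sub (fun i => c i * GG (n+1) τ c i) t) =
        (τ + 2 ^ (n+1) * √(av (n+1) c)) * av n (sub c t) + NN n (sub c t) := fun t =>
      ih _ (sub c t) fun i => hc _
    rw [Finset.sum_congr rfl fun t _ => h t, Finset.sum_add_distrib, ← Finset.mul_sum]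
    have h2 : ∑ t : Fin 16, av n (sub c t) = 16 * av (n+1) c := by rw [av_succ]; ring
    rw [h2]
    unfold q; ring

/-- one term of the sum in (U) -/
noncomputable def tU (H : ℕ) (τ : ℝ) (f : L H → ℝ) (σ : ℝ) : ℝ :=
  Lam H (fun i => σ ^ 4 * f i) / (σ * max 1 (σ * τ)) ^ 3

lemma tU_leaf {s τ σ : ℝ} (hs : 0 ≤ s) (hτ : 0 ≤ τ) (hσ : 0 < σ) (hG : 0 < τ + s) (f : L 0 → ℝ)
    (hf : f () = s ^ 2 * (τ + s) ^ 2) :
    tU 0 τ f σ ≤ (8 * (s ^ 2 * (τ + s))) * min (σ * (τ + s)) (1 / (σ * (τ + s))) := by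
  unfold tU
  rw [Lam_zero, hf]
  obtain ⟨G, hGe⟩ : ∃ G, G = τ + s := ⟨_, rfl⟩
  rw [← hGe] at hG ⊢
  obtain ⟨P, hP⟩ : ∃ P, P = σ * G := ⟨_, rfl⟩
  have hP0 : 0 < P := by rw [hP]; positivity
  have hn1 : 1 - Real.exp (-(σ ^ 4 * (s ^ 2 * G ^ 2))) ≤ σ ^ 4 * (s ^ 2 * G ^ 2) := by
    have := Real.add_one_le_exp (-(σ ^ 4 * (s ^ 2 * G ^ 2))); linarith
  have hn2 : 1 - Real.exp (-(σ ^ 4 * (s ^ 2 * G ^ 2))) ≤ 1 := by
    have := Real.exp_pos (-(σ ^ 4 * (s ^ 2 * G ^ 2))); linarith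
  have hmax1 : 1 ≤ max 1 (σ * τ) := le_max_left _ _
  have hmax2 : σ * τ ≤ max 1 (σ * τ) := le_max_right _ _
  have hden : σ ^ 3 ≤ (σ * max 1 (σ * τ)) ^ 3 :=
    pow_le_pow_left₀ hσ.le (le_mul_of_one_le_right hσ.le hmax1) 3
  have hσ3 : 0 < σ ^ 3 := by positivity
  have hden0 : 0 < (σ * max 1 (σ * τ)) ^ 3 := hσ3.trans_le hden
  rw [← hP]
  rcases le_or_gt P 1 with h | h
  · have hmin : P ≤ min P (1 / P) := by
      refine le_min le_rfl ?_
      rw [le_div_iff₀ hP0]; nlinarith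
    have h1 : (1 - Real.exp (-(σ ^ 4 * (s ^ 2 * G ^ 2)))) / (σ * max 1 (σ * τ)) ^ 3 ≤
        (s ^ 2 * G) * P := by
      rw [div_le_iff₀ hden0]
      calc _ ≤ σ ^ 4 * (s ^ 2 * G ^ 2) := hn1
        _ = (s ^ 2 * G * P) * σ ^ 3 := by rw [hP]; ring
        _ ≤ _ := mul_le_mul_of_nonneg_left hden (by positivity)
    refine h1.trans ?_
    have h2 : (s ^ 2 * G) * P ≤ (s ^ 2 * G) * min P (1/P) := mul_le_mul_of_nonneg_left hmin (by positivity)
    have h3 : 0 ≤ (s ^ 2 * G) * min P (1/P) := by positivity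
    nlinarith
  · have hmin : min P (1 / P) = 1 / P := by
      refine min_eq_right ?_
      rw [div_le_iff₀ hP0]; nlinarith
    rw [hmin]
    rcases le_or_gt s τ with h4 | h4
    · -- G ≤ 2τ
      have hG2 : G ≤ 2 * τ := by linarith
      rw [div_le_iff₀ hden0]
      have h5 : P ^ 3 ≤ 8 * (max 1 (σ * τ)) ^ 3 := by
        have : P ≤ 2 * max 1 (σ * τ) := by
          rw [hP]; nlinarith
        calc P ^ 3 ≤ (2 * max 1 (σ * τ)) ^ 3 := pow_le_pow_left₀ hP0.le this 3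
          _ = _ := by ring
      calc _ ≤ σ ^ 4 * (s ^ 2 * G ^ 2) := hn1
        _ = (s ^ 2 * G) * (1 / P) * (σ ^ 3 * P ^ 2) := by
            have : σ * G = P := hP.symm
            field_simp
            rw [hP]; ring
        _ ≤ (s ^ 2 * G) * (1 / P) * (σ ^ 3 * P ^ 3) := by
            refine mul_le_mul_of_nonneg_left ?_ (by positivity)
            refine mul_le_mul_of_nonneg_left ?_ hσ3.le
            nlinarith [pow_pos hP0 2]
        _ ≤ (s ^ 2 * G) * (1 / P) * (σ ^ 3 * (8 * (max 1 (σ * τ)) ^ 3)) := by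
            refine mul_le_mul_of_nonneg_left ?_ (by positivity)
            exact mul_le_mul_of_nonneg_left h5 hσ3.le
        _ = _ := by ring
    · have hG2 : G ≤ 2 * s := by linarith
      have h1 : (1 - Real.exp (-(σ ^ 4 * (s ^ 2 * G ^ 2)))) / (σ * max 1 (σ * τ)) ^ 3 ≤ 1 / σ ^ 3 :=
        div_le_div₀ zero_le_one hn2 hσ3 hden
      refine h1.trans ?_
      have h6 : 1 / σ ^ 3 = G ^ 3 / P ^ 3 := by rw [hP]; field_simp
      rw [h6, div_le_iff₀ (by positivity)]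
      have h7 : 8 * (s ^ 2 * G) * (1 / P) * P ^ 3 = 8 * (s ^ 2 * G) * P ^ 2 := by field_simp
      rw [h7]
      have h8 : G ^ 2 ≤ 4 * s ^ 2 := by nlinarith
      have h9 : 1 ≤ P ^ 2 := by nlinarith
      calc G ^ 3 = G ^ 2 * G := by ring
        _ ≤ (4 * s ^ 2) * G := mul_le_mul_of_nonneg_right h8 hG.le
        _ ≤ 8 * (s ^ 2 * G) * 1 := by nlinarith [mul_nonneg (sq_nonneg s) hG.le]
        _ ≤ _ := mul_le_mul_of_nonneg_left h9 (by positivity)

/-- the inductive step, for one scale -/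
lemma tU_step {H : ℕ} {τ g0 : ℝ} {f : L (H+1) → ℝ} {σ : ℝ} (hτ : 0 ≤ τ) (hg : 0 ≤ g0) (hσ : 0 < σ)
    (hf : ∀ i, 0 ≤ f i) :
    tU (H+1) τ f σ ≤ (∑ t : Fin 16, tU H (τ + g0) (sub f t) σ) / 16 +
      g0 ^ 3 / (2 ^ (H+1) / 24) ^ 2 * (if 1 ≤ σ * (τ + g0) then 1 / (σ * (τ + g0)) ^ 3 else 0) := by
  have hf' : ∀ i, 0 ≤ (fun i : L (H+1) => σ ^ 4 * f i) i := fun i => mul_nonneg (by positivity) (hf i)
  have h1 := (Lam_step hf').2
  have h0 : 0 ≤ (∑ t : Fin 16, Lam H (sub (fun i : L (H+1) => σ ^ 4 * f i) t)) / 16 :=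
    sum16_nonneg fun t => Lam_nonneg fun i => hf' _
  have hsum : (∑ t : Fin 16, tU H (τ + g0) (sub f t) σ) / 16 =
      ((∑ t : Fin 16, Lam H (sub (fun i : L (H+1) => σ ^ 4 * f i) t)) / 16) /
        (σ * max 1 (σ * (τ + g0))) ^ 3 := by
    unfold tU
    rw [← Finset.sum_div, div_div, div_div, mul_comm]
    rfl
  rw [hsum]
  unfold tU
  obtain ⟨p, hp⟩ : ∃ p, p = (∑ t : Fin 16, Lam H (sub (fun i : L (H+1) => σ ^ 4 * f i) t)) / 16 := ⟨_, rfl⟩
  rw [← hp] at h1 h0 ⊢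
  obtain ⟨w, hw⟩ : ∃ w : ℝ, w = 2 ^ (H+1) / 24 := ⟨_, rfl⟩
  have hw0 : 0 < w := by rw [hw]; positivity
  rw [← hw] at h1 ⊢
  have hmax1 : 1 ≤ max 1 (σ * τ) := le_max_left _ _
  have hmax2 : σ * τ ≤ max 1 (σ * τ) := le_max_right _ _
  obtain ⟨D, hD⟩ : ∃ D, D = max 1 (σ * τ) := ⟨_, rfl⟩
  rw [← hD] at hmax1 hmax2 ⊢
  have hden0 : 0 < (σ * D) ^ 3 := by positivity
  split_ifs with hc
  · have h2 := h1.trans (T_le_tangent hw0 h0 (u := σ * g0) (by positivity))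
    have hm : max 1 (σ * (τ + g0)) = σ * (τ + g0) := max_eq_right hc
    rw [hm]
    have hτ' : 0 < τ + g0 := by
      by_contra hcon
      push Not at hcon
      nlinarith
    have hprod : σ * (τ + g0) ≤ (1 + σ * g0) * D := by
      nlinarith [mul_nonneg hσ.le hg]
    have h3 : p / (σ * (σ * (τ + g0))) ^ 3 + g0 ^ 3 / w ^ 2 * (1 / (σ * (τ + g0)) ^ 3) =
        (p + (σ * g0) ^ 3 / w ^ 2) / (σ * (σ * (τ + g0))) ^ 3 := by
      field_simp
    rw [h3]
    have hnum : 0 ≤ p + (σ * g0) ^ 3 / w ^ 2 := by positivity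
    calc _ ≤ ((p + (σ * g0) ^ 3 / w ^ 2) / (1 + σ * g0) ^ 3) / (σ * D) ^ 3 :=
          div_le_div_of_nonneg_right h2 hden0.le
      _ = (p + (σ * g0) ^ 3 / w ^ 2) / (σ * ((1 + σ * g0) * D)) ^ 3 := by
          rw [div_div]; congr 1; ring
      _ ≤ _ := by
          refine div_le_div_of_nonneg_left hnum (by positivity) ?_
          refine pow_le_pow_left₀ (by positivity) ?_ 3
          exact mul_le_mul_of_nonneg_left hprod hσ.le
  · have hc' : σ * (τ + g0) ≤ 1 := by linarith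
    have hm : max 1 (σ * (τ + g0)) = 1 := max_eq_left hc'
    rw [hm]
    have h2 := h1.trans (T_le_self hw0.le h0)
    have : D = 1 := by
      rw [hD]; refine max_eq_left ?_
      nlinarith [mul_nonneg hσ.le hg]
    rw [this, mul_zero, add_zero]
    exact div_le_div_of_nonneg_right h2 (by positivity)

lemma ind_sum_le (M : Finset ℤ) {b : ℝ} (hb : 0 ≤ b) :
    ∑ m ∈ M, (if 1 ≤ (2:ℝ) ^ m * b then 1 / ((2:ℝ) ^ m * b) ^ 3 else 0) ≤ 6 := by
  rcases hb.eq_or_lt with h | hb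
  · subst h
    simp
  · refine le_trans (Finset.sum_le_sum fun m _ => ?_) (Zsum M hb)
    obtain ⟨P, hP⟩ : ∃ P, P = (2:ℝ) ^ m * b := ⟨_, rfl⟩
    have hP0 : 0 < P := by rw [hP]; positivity
    rw [← hP]
    split_ifs with h
    · refine le_min ?_ ?_
      · rw [div_le_iff₀ (by positivity)]
        have : 1 ≤ P ^ 4 := one_le_pow₀ h
        nlinarith
      · refine one_div_le_one_div_of_le hP0 ?_
        nlinarith [mul_nonneg hP0.le hP0.le, one_le_pow₀ h (n := 2)]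
    · positivity

/-- (U) -/
lemma U_spec (H : ℕ) : ∀ (τ : ℝ) (c : L H → ℝ), 0 ≤ τ → (∀ i, 0 ≤ c i) → ∀ M : Finset ℤ,
    ∑ m ∈ M, tU H τ (fun i => c i * GG H τ c i ^ 2) ((2:ℝ) ^ m) ≤
      3456 * (τ * av H c + 2 * NN H c) := by
  induction H with
  | zero =>
    intro τ c hτ hc M
    obtain ⟨s, hs, hcs⟩ : ∃ s : ℝ, 0 ≤ s ∧ c () = s ^ 2 :=
      ⟨√(c ()), Real.sqrt_nonneg _, (Real.sq_sqrt (hc _)).symm⟩
    have hss : √(c ()) = s := by rw [hcs, Real.sqrt_sq hs]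
    have hRHS : 3456 * (τ * av 0 c + 2 * NN 0 c) = 3456 * (s ^ 2 * (τ + 2 * s)) := by
      show 3456 * (τ * c () + 2 * q (c ())) = _
      unfold q; rw [hss, hcs]; ring
    rw [hRHS]
    have hf : (fun i => c i * GG 0 τ c i ^ 2) () = s ^ 2 * (τ + s) ^ 2 := by
      show c () * (τ + √(c ())) ^ 2 = _
      rw [hss, hcs]
    rcases (add_nonneg hτ hs).eq_or_lt with h | hG
    · have h1 : s = 0 := by linarith
      have h2 : τ = 0 := by linarith
      have h3 : ∀ m ∈ M, tU 0 τ (fun i => c i * GG 0 τ c i ^ 2) ((2:ℝ) ^ m) = 0 := by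
        intro m _
        unfold tU
        rw [Lam_zero]
        rw [hf, h1]; simp
      rw [Finset.sum_eq_zero h3, h1]; simp
    · have h1 := Finset.sum_le_sum fun m (_ : m ∈ M) =>
        tU_leaf hs hτ (σ := (2:ℝ) ^ m) (by positivity) hG (fun i => c i * GG 0 τ c i ^ 2) hf
      rw [← Finset.mul_sum] at h1
      have h2 := Zsum M hG
      have h3 := mul_le_mul_of_nonneg_left h2 (show 0 ≤ 8 * (s ^ 2 * (τ + s)) by positivity)
      have h4 : 0 ≤ s ^ 2 * (τ + s) := by positivity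
      have h5 : 0 ≤ s ^ 2 * s := by positivity
      nlinarith
  | succ n ih =>
    intro τ c hτ hc M
    obtain ⟨A, hA⟩ : ∃ A, A = av (n+1) c := ⟨_, rfl⟩
    have hA0 : 0 ≤ A := hA ▸ av_nonneg hc
    obtain ⟨g0, hg0⟩ : ∃ g0, g0 = 2 ^ (n+1) * √A := ⟨_, rfl⟩
    have hg : 0 ≤ g0 := by rw [hg0]; positivity
    have hf : ∀ i, 0 ≤ c i * GG (n+1) τ c i ^ 2 := fun i => mul_nonneg (hc i) (sq_nonneg _)
    have h1 := Finset.sum_le_sum fun m (_ : m ∈ M) =>
      tU_step (σ := (2:ℝ) ^ m) hτ hg (by positivity) hf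
    rw [Finset.sum_add_distrib, ← Finset.mul_sum, ← Finset.sum_div, Finset.sum_comm] at h1
    have h2 : ∀ t : Fin 16, ∑ m ∈ M, tU n (τ + g0) (sub (fun i => c i * GG (n+1) τ c i ^ 2) t) ((2:ℝ) ^ m)
        ≤ 3456 * ((τ + g0) * av n (sub c t) + 2 * NN n (sub c t)) := by
      intro t
      have := ih (τ + g0) (sub c t) (by positivity) (fun i => hc _) M
      have e : sub (fun i => c i * GG (n+1) τ c i ^ 2) t =
          fun i => sub c t i * GG n (τ + g0) (sub c t) i ^ 2 := by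
        funext i
        rw [hg0, hA]; rfl
      rw [e]; exact this
    have h3 := Finset.sum_le_sum fun t (_ : t ∈ Finset.univ) => h2 t
    rw [← Finset.mul_sum, Finset.sum_add_distrib, ← Finset.mul_sum, ← Finset.mul_sum] at h3
    have h4 : ∑ t : Fin 16, av n (sub c t) = 16 * A := by rw [hA, av_succ]; ring
    rw [h4] at h3
    have h5 := ind_sum_le M (b := τ + g0) (by positivity)
    have h6 : g0 ^ 3 / (2 ^ (n+1) / 24) ^ 2 = 576 * (2 ^ (n+1) * q A) := by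
      rw [hg0]; unfold q
      have : (2:ℝ) ^ (n+1) ≠ 0 := by positivity
      have h7 : √A ^ 3 = A * √A := by
        calc √A ^ 3 = √A ^ 2 * √A := by ring
          _ = _ := by rw [Real.sq_sqrt hA0]
      rw [mul_pow, h7]
      field_simp
      norm_num
    rw [h6] at h1
    have hqA : 0 ≤ 2 ^ (n+1) * q A := mul_nonneg (by positivity) (q_nonneg hA0)
    have h7 := mul_le_mul_of_nonneg_left h5 (show 0 ≤ 576 * (2 ^ (n+1) * q A) by positivity)
    have h8 : g0 * A = 2 ^ (n+1) * q A := by rw [hg0]; unfold q; ring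
    rw [NN_succ, ← hA]
    have h9 : 3456 * ((τ + g0) * (16 * A) + 2 * ∑ t : Fin 16, NN n (sub c t)) =
      16 * (3456 * (τ * A + 2 * ((∑ t : Fin 16, NN n (sub c t)) / 16)) + 3456 * (g0 * A)) := by ring
    rw [h9, h8] at h3
    linarith

/-- (U) with `τ = 0` -/
lemma U_top (H : ℕ) (c : L H → ℝ) (hc : ∀ i, 0 ≤ c i) (M : Finset ℤ) :
    ∑ m ∈ M, Lam H (fun i => ((2:ℝ) ^ m) ^ 4 * (c i * GG H 0 c i ^ 2)) / ((2:ℝ) ^ m) ^ 3 ≤
      6912 * NN H c := by
  have h := U_spec H 0 c le_rfl hc M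
  have e : ∀ m ∈ M, tU H 0 (fun i => c i * GG H 0 c i ^ 2) ((2:ℝ) ^ m) =
      Lam H (fun i => ((2:ℝ) ^ m) ^ 4 * (c i * GG H 0 c i ^ 2)) / ((2:ℝ) ^ m) ^ 3 := by
    intro m _
    unfold tU
    have : max 1 ((2:ℝ) ^ m * 0) = 1 := by simp
    rw [this, mul_one]
  rw [Finset.sum_congr rfl e] at h
  linarith

end Pool.Agent.H47.SQ
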