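import Pool.Agent.H47.SQ.Tfun

/-! Sums over dyadic scales. -/

set_option autoImplicit false

namespace Pool.Agent.H47.SQ

lemma hasSum_half_natAbs : HasSum (fun j : ℤ => (1/2 : ℝ) ^ j.natAbs) (2 + 1) := by
  refine HasSum.of_nat_of_neg_add_one ?_ ?_
  · simpa using hasSum_geometric_two
  · have h := (hasSum_geometric_two).mul_left (1/2 : ℝ)
    have e : (fun n : ℕ => (1/2 : ℝ) ^ (-((n : ℤ) + 1)).natAbs) = fun n : ℕ => (1/2:ℝ) * (1/2) ^ n := by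
      funext n
      have : (-((n : ℤ) + 1)).natAbs = n + 1 := by omega
      rw [this, pow_succ]; ring
    rw [e]
    have e1 : (1/2 * 2 : ℝ) = 1 := by norm_num
    rw [e1] at h
    exact h

lemma min_le_two_natAbs {b : ℝ} {n : ℤ} (h1 : (2:ℝ) ^ n ≤ b) (h2 : b < (2:ℝ) ^ (n+1)) (m : ℤ) :
    min ((2:ℝ) ^ m * b) (1 / ((2:ℝ) ^ m * b)) ≤ 2 * (1/2 : ℝ) ^ (m + n).natAbs := by
  have hm : (0:ℝ) < 2 ^ m := by positivity
  have hn : (0:ℝ) < 2 ^ n := by positivity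
  have hb : 0 < b := hn.trans_le h1
  rcases le_or_gt 0 (m + n) with h | h
  · refine (min_le_right _ _).trans ?_
    obtain ⟨k, hk⟩ := Int.eq_ofNat_of_zero_le h
    have e : (m + n).natAbs = k := by omega
    rw [e]
    have h3 : (2:ℝ) ^ k ≤ 2 ^ m * b := by
      have : (2:ℝ) ^ k = 2 ^ m * 2 ^ n := by
        rw [← zpow_add₀ (by norm_num : (2:ℝ) ≠ 0), hk, zpow_natCast]
      rw [this]
      exact mul_le_mul_of_nonneg_left h1 hm.le
    have h4 : 1 / (2 ^ m * b) ≤ 1 / (2:ℝ) ^ k := one_div_le_one_div_of_le (by positivity) h3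
    have h5 : (1 / (2:ℝ)) ^ k = 1 / 2 ^ k := by rw [div_pow, one_pow]
    rw [h5]
    have : 0 < 1 / (2:ℝ) ^ k := by positivity
    linarith
  · refine (min_le_left _ _).trans ?_
    obtain ⟨k, hk⟩ := Int.eq_ofNat_of_zero_le (show 0 ≤ -(m + n) by omega)
    have e : (m + n).natAbs = k := by omega
    rw [e]
    have h3 : (2:ℝ) ^ m * b ≤ 2 ^ m * 2 ^ (n + 1) := mul_le_mul_of_nonneg_left h2.le hm.le
    refine h3.trans ?_
    rw [← zpow_add₀ (by norm_num : (2:ℝ) ≠ 0)]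
    have e2 : m + (n + 1) = -(k:ℤ) + 1 := by omega
    rw [e2, zpow_add₀ (by norm_num : (2:ℝ) ≠ 0), zpow_neg, zpow_natCast, zpow_one, div_pow, one_pow]
    rw [mul_comm, one_div]

/-- sums of `min (2^m b) (1/(2^m b))` over integers are at most `6`. -/
lemma Zsum (M : Finset ℤ) {b : ℝ} (hb : 0 < b) :
    ∑ m ∈ M, min ((2:ℝ) ^ m * b) (1 / ((2:ℝ) ^ m * b)) ≤ 6 := by
  obtain ⟨n, hn1, hn2⟩ := exists_mem_Ico_zpow hb (by norm_num : (1:ℝ) < 2)
  have h1 : ∑ m ∈ M, min ((2:ℝ) ^ m * b) (1 / ((2:ℝ) ^ m * b)) ≤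
      ∑ m ∈ M, 2 * (1/2 : ℝ) ^ (m + n).natAbs :=
    Finset.sum_le_sum fun m _ => min_le_two_natAbs hn1 hn2 m
  refine h1.trans ?_
  rw [← Finset.mul_sum]
  have h2 : HasSum (fun m : ℤ => (1/2 : ℝ) ^ (m + n).natAbs) (2 + 1) := by
    have := (Equiv.addRight n).hasSum_iff (f := fun j : ℤ => (1/2 : ℝ) ^ j.natAbs) (a := (2:ℝ) + 1)
    exact this.2 hasSum_half_natAbs
  have h3 := sum_le_hasSum M (fun m _ => by positivity) h2
  linarith

end Pool.Agent.H47.SQ
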